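import Pool.Agent.TH872.Mir3
import Pool.Agent.W93.AU2

set_option autoImplicit false

/-! Random integers with mirror-dependent digits: small values, and Goldbach's conjecture. -/

namespace Pool.Agent.TH872.Mir
open Finset
open Pool.Agent.H807R2.Dav
open Pool.Agent.W93.DG
open Pool.Agent.W93.RD
open Pool.Agent.W93.AU

lemma eta_le {b m : ℕ} {η : ℝ} {w : ℕ → ℕ × ℕ → ℝ} (hw : Mirr b m η w) (hm : 1 < m) : η ≤ 1 := by
  have h1 := hw.mir 1 hm le_rfl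
  have h2 : ∑ a ∈ Q b, ∑ a' ∈ Q b, (if a.1 ≠ a'.1 ∧ a.2 ≠ a'.2 then w 1 a * w 1 a' else 0) ≤
      ∑ a ∈ Q b, ∑ a' ∈ Q b, w 1 a * w 1 a' := by
    apply sum_le_sum; intro a _
    apply sum_le_sum; intro a' _
    have := mul_nonneg (hw.nonneg 1 hm a) (hw.nonneg 1 hm a')
    split_ifs
    · exact le_rfl
    · exact this
  rw [← sum_mul_sum, hw.sum 1 hm, one_mul] at h2
  linarith

lemma pow_log' (b : ℕ) (hb : 2 ≤ b) (l : ℝ) (hl0 : 0 ≤ l) (V D : ℕ) (h : l ^ D ≤ (1 / (b : ℝ)) ^ V) (K : ℕ) (hK : 1 ≤ K) :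
    l ^ (D * (Nat.log b K + 1)) ≤ 1 / (K : ℝ) ^ V := by
  have hB0 : (0 : ℝ) < b := by exact_mod_cast (by omega : 0 < b)
  have hK0 : (0 : ℝ) < K := by exact_mod_cast hK
  have h1 : (K : ℝ) ≤ (b : ℝ) ^ (Nat.log b K + 1) := by
    exact_mod_cast (Nat.lt_pow_succ_log_self (by omega) K).le
  rw [pow_mul]
  calc (l ^ D) ^ (Nat.log b K + 1) ≤ ((1 / (b : ℝ)) ^ V) ^ (Nat.log b K + 1) := pow_le_pow_left₀ (by positivity) h _
    _ = 1 / ((b : ℝ) ^ (Nat.log b K + 1)) ^ V := by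
        rw [one_div, inv_pow, inv_pow, one_div, ← pow_mul, ← pow_mul, mul_comm V]
    _ ≤ _ := one_div_le_one_div_of_le (by positivity) (pow_le_pow_left₀ hK0.le h1 V)

/-- room for the logarithm -/
lemma room (b : ℕ) (hb : 2 ≤ b) (τ c : ℕ) : ∃ K₀ : ℕ, ∀ K, K₀ ≤ K → τ * (Nat.log b K + 1) + c ≤ K := by
  have h2 : ∃ N : ℕ, ∀ n, N ≤ n → τ * (n + 1) + c ≤ 2 ^ n := by
    refine ⟨2 * (τ + c) + 4, fun n hn => ?_⟩
    have h3 : ∀ n, 4 ≤ n → n * n ≤ 2 ^ n := by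
      intro n hn
      induction n, hn using Nat.le_induction with
      | base => norm_num
      | succ n hn ih => rw [pow_succ]; nlinarith
    have h4 := h3 n (by omega)
    have h5 : (τ + c) * (n + 1) ≤ n * n := by nlinarith
    nlinarith
  obtain ⟨N, hN⟩ := h2
  refine ⟨b ^ N, fun K hK => ?_⟩
  have hp : 0 < b ^ N := by positivity
  have h3 : N ≤ Nat.log b K := (Nat.le_log_iff_pow_le (by omega) (by omega)).2 hK
  exact ((hN _ h3).trans (Nat.pow_le_pow_left hb _)).trans (Nat.pow_log_le_self b (by omega))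

/-- small values are rare -/
lemma anti_small (b : ℕ) (hb : 2 ≤ b) (η : ℝ) (hη : 0 < η) (κ : ℤ) (hκ : κ ≠ 0) (e s U : ℕ) : ∃ W K₀ : ℕ, ∀ K : ℕ, K₀ ≤ K →
    ∀ m, K = 2 * m + s + e → ∀ w : ℕ → ℕ × ℕ → ℝ, Mirr b m η w → ∀ cc : ℤ, ∀ Sm : (Fin m → ℕ × ℕ) → Prop, [DecidablePred Sm] →
    (∀ g, Sm g → 1 ≤ cc + κ * (val b (2 * m + s) g : ℕ) ∧
      ((cc + κ * (val b (2 * m + s) g : ℕ) : ℤ) : ℝ) < ((b ^ K : ℕ) : ℝ) / Real.log ((b ^ K : ℕ) : ℝ) ^ (W + 1)) →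
    ∑ g ∈ Gs b m, (if Sm g then pw w g else 0) ≤ 1 / (K : ℝ) ^ (U + 1) := by
  have hbr : (2 : ℝ) ≤ b := by exact_mod_cast hb
  have hb0 : (0 : ℝ) < b := by linarith
  have hlogB : 0 < Real.log b := Real.log_pos (by linarith)
  obtain ⟨τ, hτ⟩ : ∃ τ : ℕ, (max (1 - η / 2) 0) ^ τ < (1 / (b : ℝ)) ^ (U + 2) :=
    exists_pow_lt_of_lt_one (show (0 : ℝ) < (1 / b) ^ (U + 2) by positivity) (max_lt (by linarith) one_pos)
  obtain ⟨k2, hk2⟩ := exists_nat_ge ((b : ℝ) ^ (e + τ + 1) / Real.log b ^ (τ + 1))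
  obtain ⟨k3, hk3⟩ := room b hb (2 * τ) (2 + s + e + 4)
  refine ⟨τ, k2 + k3 + 4, fun K hK m hm w hw cc Sm _ hSm => ?_⟩
  have hK1 : 1 ≤ K := by omega
  have hKr : (1 : ℝ) ≤ K := by exact_mod_cast hK1
  have hK4 : (4 : ℝ) ≤ K := by exact_mod_cast (by omega : 4 ≤ K)
  have hroom := hk3 K (by omega)
  obtain ⟨Lg, hLg⟩ : ∃ Lg, Lg = Nat.log b K := ⟨_, rfl⟩
  rw [← hLg] at hroom
  obtain ⟨T, hT⟩ : ∃ T, T = τ * (Lg + 1) + 1 := ⟨_, rfl⟩
  have hTm : T ≤ m := by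
    have : 2 * τ * (Lg + 1) = 2 * (τ * (Lg + 1)) := by ring
    omega
  have hm1 : 1 < m := by omega
  have hη1 := eta_le hw hm1
  obtain ⟨l, hl⟩ : ∃ l, l = 2 * m + s - T := ⟨_, rfl⟩
  have hR : ((b ^ K : ℕ) : ℝ) / Real.log ((b ^ K : ℕ) : ℝ) ^ (τ + 1) ≤ (b : ℝ) ^ l := by
    have e0 : Real.log ((b ^ K : ℕ) : ℝ) = K * Real.log b := by
      push_cast
      rw [Real.log_pow]
    have e1 : (b : ℝ) ^ Lg ≤ K := by
      rw [hLg]
      exact_mod_cast Nat.pow_log_le_self b (by omega)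
    have e2 : ((b ^ K : ℕ) : ℝ) = (b : ℝ) ^ l * ((b : ℝ) ^ (e + τ + 1) * ((b : ℝ) ^ Lg) ^ τ) := by
      push_cast
      rw [← pow_mul, ← pow_add, ← pow_add]
      congr 1
      rw [hm, hl, mul_comm Lg τ]
      have : τ * (Lg + 1) = τ * Lg + τ := by ring
      omega
    have hlog0 : 0 < (K : ℝ) * Real.log b := by positivity
    rw [e0, div_le_iff₀ (by positivity), e2]
    apply mul_le_mul_of_nonneg_left _ (by positivity)
    rw [mul_pow, pow_succ (K : ℝ)]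
    have e3 : (b : ℝ) ^ (e + τ + 1) ≤ K * Real.log b ^ (τ + 1) := by
      rw [div_le_iff₀ (by positivity)] at hk2
      refine hk2.trans (mul_le_mul_of_nonneg_right ?_ (by positivity))
      exact_mod_cast (by omega : k2 ≤ K)
    calc (b : ℝ) ^ (e + τ + 1) * ((b : ℝ) ^ Lg) ^ τ ≤ (K * Real.log b ^ (τ + 1)) * (K : ℝ) ^ τ :=
          mul_le_mul e3 (pow_le_pow_left₀ (by positivity) e1 τ) (by positivity) (by positivity)
      _ = _ := by ring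
  have hint := interval b m s T (by omega) η hη.le (by linarith) hTm w hw Sm (by
    intro g _ g' _ hg hg'
    obtain ⟨a5, a1⟩ := hSm g hg
    obtain ⟨a6, a2⟩ := hSm g' hg'
    rw [← hl]
    obtain ⟨v, hv⟩ : ∃ v, v = val b (2 * m + s) g := ⟨_, rfl⟩
    obtain ⟨v', hv'⟩ : ∃ v', v' = val b (2 * m + s) g' := ⟨_, rfl⟩
    rw [← hv] at a1 a5 ⊢
    rw [← hv'] at a2 a6 ⊢
    have a3 : cc + κ * v < (b : ℤ) ^ l := by exact_mod_cast lt_of_lt_of_le a1 hR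
    have a4 : cc + κ * v' < (b : ℤ) ^ l := by exact_mod_cast lt_of_lt_of_le a2 hR
    by_contra hcon
    push Not at hcon
    have a7 : (v : ℤ) + (b : ℤ) ^ l ≤ v' := by exact_mod_cast hcon
    have hbl : (0 : ℤ) < (b : ℤ) ^ l := by positivity
    rcases lt_or_gt_of_ne hκ with h | h
    · have : κ * ((v' : ℤ) - v) ≤ -1 * ((v' : ℤ) - v) := by
        apply mul_le_mul_of_nonneg_right (by omega)
        linarith
      linarith
    · have : 1 * ((v' : ℤ) - v) ≤ κ * ((v' : ℤ) - v) := by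
        apply mul_le_mul_of_nonneg_right (by omega)
        linarith
      linarith)
  refine hint.trans ?_
  have h1 : (1 - η / 2) ^ (T - 1) ≤ 1 / (K : ℝ) ^ (U + 2) := by
    have e1 : T - 1 = τ * (Nat.log b K + 1) := by rw [hT, hLg]; omega
    rw [e1]
    apply pow_log' b hb _ (by linarith) _ _ _ K hK1
    have : max (1 - η / 2) 0 = 1 - η / 2 := max_eq_left (by linarith)
    rw [this] at hτ
    exact hτ.le
  have hKp : (0 : ℝ) < (K : ℝ) ^ (U + 1) := by positivity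
  calc 4 * (1 - η / 2) ^ (T - 1) ≤ 4 * (1 / (K : ℝ) ^ (U + 2)) := mul_le_mul_of_nonneg_left h1 (by norm_num)
    _ = 4 / K * (1 / (K : ℝ) ^ (U + 1)) := by
        rw [pow_succ (K : ℝ) (U + 1)]
        field_simp
    _ ≤ 1 * (1 / (K : ℝ) ^ (U + 1)) := by
        apply mul_le_mul_of_nonneg_right _ (by positivity)
        rw [div_le_one (by linarith)]
        exact hK4
    _ = _ := one_mul _

lemma val_lt (b m s : ℕ) (hb : 0 < b) (g : Fin m → ℕ × ℕ) (hg : g ∈ Gs b m) : val b (2 * m + s) g < 2 * b ^ (2 * m + s) := by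
  have h := (top_val b m s 0 hb (Nat.zero_le _) g hg).2
  unfold top at h
  rw [range_zero, sum_empty, Nat.sub_zero] at h
  omega

/-- Goldbach's conjecture for almost all integers with mirror-dependent digits -/
theorem mir_goldbach (b : ℕ) (hb : 2 ≤ b) (η : ℝ) (hη : 0 < η) (κ : ℤ) (hκ : κ ≠ 0) (e s U : ℕ) (ε : ℝ) (hε : 0 < ε) :
    ∃ m₀ : ℕ, ∀ m, m₀ ≤ m → ∀ w : ℕ → ℕ × ℕ → ℝ, Mirr b m η w → ∀ cc : ℤ,
    |cc| + |κ| * (2 * (b : ℤ) ^ (2 * m + s)) ≤ (b : ℤ) ^ (2 * m + s + e) →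
    ∀ E : (Fin m → ℕ × ℕ) → Prop, [DecidablePred E] →
    (∀ g ∈ Gs b m, E g → 0 < cc + κ * (val b (2 * m + s) g : ℕ) ∧ 2 ∣ cc + κ * (val b (2 * m + s) g : ℕ) ∧
      ¬ (|(Pool.Agent.H560R3.GB.g (cc + κ * (val b (2 * m + s) g : ℕ)).toNat : ℝ) -
            Pool.Agent.H560R3.GB.HL (cc + κ * (val b (2 * m + s) g : ℕ)).toNat| ≤
          ε * Pool.Agent.H560R3.GB.HL (cc + κ * (val b (2 * m + s) g : ℕ)).toNat ∧
        ∃ p q : ℕ, p.Prime ∧ q.Prime ∧ p ≠ q ∧ p + q = (cc + κ * (val b (2 * m + s) g : ℕ)).toNat)) →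
    ∑ g ∈ Gs b m, (if E g then pw w g else 0) ≤ 1 / ((2 * m + s : ℕ) : ℝ) ^ U := by
  classical
  obtain ⟨W, K1, hanti⟩ := anti_small b hb η hη κ hκ e s U
  obtain ⟨D, hlaw⟩ := mir_law b hb η hη κ e s (U + (2 * W + 6) + 1 + 6)
  obtain ⟨K3, hfin⟩ := gl_final b (FF0 b κ) U W D hb (FF0_pos b κ hκ) ε hε
  refine ⟨K1 + K3 + 1, fun m hm w hw cc hcc E _ hE => ?_⟩
  obtain ⟨K, hK⟩ : ∃ K, K = 2 * m + s + e := ⟨_, rfl⟩
  have h := hfin K (by omega) (Fin m → ℕ × ℕ) (Gs b m) (pw w) (fun g => cc + κ * (val b (2 * m + s) g : ℕ))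
    (hlaw m K hK (by omega) w hw cc) (by
      intro g hg
      have h0 : ((val b (2 * m + s) g : ℕ) : ℤ) ≤ 2 * (b : ℤ) ^ (2 * m + s) := by
        exact_mod_cast (val_lt b m s (by omega) g hg).le
      have h1 : cc ≤ |cc| := le_abs_self cc
      have h2 : κ * (val b (2 * m + s) g : ℕ) ≤ |κ| * (2 * (b : ℤ) ^ (2 * m + s)) := by
        calc κ * (val b (2 * m + s) g : ℕ) ≤ |κ| * (val b (2 * m + s) g : ℕ) :=
              mul_le_mul_of_nonneg_right (le_abs_self _) (by positivity)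
          _ ≤ _ := mul_le_mul_of_nonneg_left h0 (abs_nonneg _)
      rw [hK]
      show cc + κ * (val b (2 * m + s) g : ℕ) ≤ (b : ℤ) ^ (2 * m + s + e)
      linarith)
    E (fun g => 1 ≤ cc + κ * (val b (2 * m + s) g : ℕ) ∧
      ((cc + κ * (val b (2 * m + s) g : ℕ) : ℤ) : ℝ) < ((b ^ K : ℕ) : ℝ) / Real.log ((b ^ K : ℕ) : ℝ) ^ (W + 1))
    (fun g _ h1 h2 => ⟨h1, h2⟩) (hanti K (by omega) m hK w hw cc _ (fun g h => h)) hE
  refine h.trans ?_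
  have hm1 : (0 : ℝ) < ((2 * m + s : ℕ) : ℝ) := by exact_mod_cast (by omega : 0 < 2 * m + s)
  apply one_div_le_one_div_of_le (by positivity)
  apply pow_le_pow_left₀ hm1.le
  exact_mod_cast (by omega : 2 * m + s ≤ K)

end Pool.Agent.TH872.Mir
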