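import Mathlib

/-! Sum colourings without large homogeneous sets. -/

set_option autoImplicit false

open Finset

namespace Pool.Agent.TH872.AddLow

variable {Γ : Type*} [AddCommGroup Γ] [DecidableEq Γ]

/-- sums of at most `r` elements of `Y` (with repetitions) -/
def R (Y : Finset Γ) : ℕ → Finset Γ
  | 0 => {0}
  | r + 1 => image₂ (· + ·) (R Y r) (insert 0 Y)

lemma R_card (Y : Finset Γ) (r : ℕ) : (R Y r).card ≤ (Y.card + 1) ^ r := by
  induction r with
  | zero => simp [R]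
  | succ r ih =>
    calc (R Y (r + 1)).card ≤ (R Y r).card * (insert 0 Y).card := card_image₂_le _ _ _
      _ ≤ (Y.card + 1) ^ r * (Y.card + 1) := Nat.mul_le_mul ih (card_insert_le _ _)
      _ = _ := by rw [pow_succ]

lemma R_mono (Y : Finset Γ) (r : ℕ) : R Y r ⊆ R Y (r + 1) := by
  intro x hx
  show x ∈ image₂ (· + ·) (R Y r) (insert 0 Y)
  rw [mem_image₂]
  exact ⟨x, hx, 0, mem_insert_self _ _, add_zero x⟩

lemma R_mono' (Y : Finset Γ) {r r' : ℕ} (h : r ≤ r') : R Y r ⊆ R Y r' := by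
  induction h with
  | refl => exact Finset.Subset.refl _
  | step _ ih => exact ih.trans (R_mono Y _)

lemma sum_mem_R (Y : Finset Γ) : ∀ S : Finset Γ, S ⊆ Y → ∑ x ∈ S, x ∈ R Y S.card := by
  intro S
  induction S using Finset.induction_on with
  | empty => intro _; simp [R]
  | insert a S ha ih =>
    intro hS
    rw [card_insert_of_notMem ha, sum_insert ha]
    show _ ∈ image₂ (· + ·) (R Y S.card) (insert 0 Y)
    rw [mem_image₂]
    refine ⟨_, ih ((subset_insert _ _).trans hS), a,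
      mem_insert_of_mem (hS (mem_insert_self _ _)), by abel⟩

/-- subsets of the same size at most `r` have different sums -/
def Dis (r : ℕ) (Y : Finset Γ) : Prop :=
  ∀ S ⊆ Y, ∀ T ⊆ Y, S.card = T.card → S.card ≤ r → ∑ x ∈ S, x = ∑ x ∈ T, x → S = T

lemma extend (r : ℕ) (Y X : Finset Γ) (hY : Dis r Y)
    (hX : (Y.card + 1) ^ (2 * r) + Y.card < X.card) :
    ∃ z ∈ X, z ∉ Y ∧ Dis r (insert z Y) := by
  set bad : Finset Γ := image₂ (· - ·) (R Y r) (R Y r) with hbad
  have hb : bad.card ≤ (Y.card + 1) ^ (2 * r) := by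
    calc bad.card ≤ (R Y r).card * (R Y r).card := card_image₂_le _ _ _
      _ ≤ (Y.card + 1) ^ r * (Y.card + 1) ^ r := Nat.mul_le_mul (R_card _ _) (R_card _ _)
      _ = _ := by rw [← pow_add]; congr 1; ring
  have hex : ∃ z ∈ X, z ∉ bad ∪ Y := by
    by_contra hcon
    push Not at hcon
    have h1 : X ⊆ bad ∪ Y := hcon
    have h2 := card_le_card h1
    have h3 := card_union_le bad Y
    omega
  obtain ⟨z, hzX, hz⟩ := hex
  rw [mem_union, not_or] at hz
  refine ⟨z, hzX, hz.2, ?_⟩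
  -- a relation with `z` on one side only is impossible
  have hno : ∀ S T : Finset Γ, S ⊆ Y → T ⊆ Y → S.card + 1 = T.card → T.card ≤ r →
      z + ∑ x ∈ S, x ≠ ∑ x ∈ T, x := by
    intro S T hS hT hc hr h
    apply hz.1
    rw [hbad, mem_image₂]
    refine ⟨_, R_mono' Y hr (sum_mem_R Y T hT), _,
      R_mono' Y (by omega : S.card ≤ r) (sum_mem_R Y S hS), ?_⟩
    show ∑ x ∈ T, x - ∑ x ∈ S, x = z
    rw [← h]; abel
  have herase : ∀ S : Finset Γ, S ⊆ insert z Y → S.erase z ⊆ Y := by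
    intro S hS x hx
    rw [mem_erase] at hx
    rcases mem_insert.1 (hS hx.2) with h | h
    · exact absurd h hx.1
    · exact h
  intro S hS T hT hc hr hsum
  by_cases hzS : z ∈ S <;> by_cases hzT : z ∈ T
  · have h1 := Finset.add_sum_erase S (fun x => x) hzS
    have h2 := Finset.add_sum_erase T (fun x => x) hzT
    rw [← h1, ← h2] at hsum
    have h3 := add_left_cancel hsum
    have h4 := hY _ (herase S hS) _ (herase T hT) (by
      rw [card_erase_of_mem hzS, card_erase_of_mem hzT, hc]) (by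
      rw [card_erase_of_mem hzS]; omega) h3
    rw [← insert_erase hzS, ← insert_erase hzT, h4]
  · exfalso
    have h1 : z + ∑ x ∈ S.erase z, x = ∑ x ∈ S, x := Finset.add_sum_erase S (fun x => x) hzS
    have hT' : T ⊆ Y := by
      have := herase T hT
      rwa [erase_eq_of_notMem hzT] at this
    refine hno _ T (herase S hS) hT' ?_ (by omega) (h1.trans hsum)
    rw [card_erase_of_mem hzS]
    have : 0 < S.card := card_pos.2 ⟨z, hzS⟩
    omega
  · exfalso
    have h1 : z + ∑ x ∈ T.erase z, x = ∑ x ∈ T, x := Finset.add_sum_erase T (fun x => x) hzT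
    have hS' : S ⊆ Y := by
      have := herase S hS
      rwa [erase_eq_of_notMem hzS] at this
    refine hno _ S (herase T hT) hS' ?_ (by omega) (h1.trans hsum.symm)
    rw [card_erase_of_mem hzT]
    have : 0 < T.card := card_pos.2 ⟨z, hzT⟩
    omega
  · have hS' : S ⊆ Y := by
      have := herase S hS
      rwa [erase_eq_of_notMem hzS] at this
    have hT' : T ⊆ Y := by
      have := herase T hT
      rwa [erase_eq_of_notMem hzT] at this
    exact hY S hS' T hT' hc hr hsum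

lemma exists_dis (r : ℕ) (X : Finset Γ) : ∀ s : ℕ, s ^ (2 * r) + s < X.card →
    ∃ Y ⊆ X, Y.card = s ∧ Dis r Y := by
  intro s
  induction s with
  | zero =>
    intro _
    refine ⟨∅, by simp, rfl, ?_⟩
    intro S hS T hT _ _ _
    rw [subset_empty] at hS hT
    rw [hS, hT]
  | succ s ih =>
    intro h
    have hle : s ^ (2 * r) ≤ (s + 1) ^ (2 * r) := Nat.pow_le_pow_left (by omega) _
    obtain ⟨Y, hYX, hYc, hY⟩ := ih (by omega)
    obtain ⟨z, hzX, hzY, hd⟩ := extend r Y X hY (by rw [hYc]; omega)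
    refine ⟨insert z Y, ?_, by rw [card_insert_of_notMem hzY, hYc], hd⟩
    intro x hx
    rcases mem_insert.1 hx with rfl | h
    · exact hzX
    · exact hYX h

omit [AddCommGroup Γ] in
/-- Property B -/
lemma propB (𝓣 : Finset (Finset Γ)) (t : ℕ) (ht : ∀ T ∈ 𝓣, t ≤ T.card)
    (hc : 2 * 𝓣.card < 2 ^ t) :
    ∃ C : Finset Γ, ∀ T ∈ 𝓣, (∃ x ∈ T, x ∈ C) ∧ (∃ x ∈ T, x ∉ C) := by
  set Z : Finset Γ := 𝓣.sup id with hZ
  have hTZ : ∀ T ∈ 𝓣, T ⊆ Z := fun T hT => Finset.le_sup (f := id) hT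
  by_contra hcon
  push Not at hcon
  have h1 : Z.powerset ⊆ 𝓣.biUnion (fun T => Icc T Z ∪ (Z \ T).powerset) := by
    intro C hC
    rw [mem_powerset] at hC
    obtain ⟨T, hT, h⟩ := hcon C
    rw [mem_biUnion]
    refine ⟨T, hT, ?_⟩
    rw [mem_union]
    by_cases h2 : ∃ x ∈ T, x ∈ C
    · left
      rw [mem_Icc]
      exact ⟨fun x hx => h h2 x hx, hC⟩
    · right
      push Not at h2
      rw [mem_powerset]
      intro x hx
      rw [mem_sdiff]
      exact ⟨hC hx, fun hxT => h2 x hxT hx⟩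
  have h2 : ∀ T ∈ 𝓣, (Icc T Z ∪ (Z \ T).powerset).card ≤ 2 * 2 ^ (Z.card - T.card) := by
    intro T hT
    calc (Icc T Z ∪ (Z \ T).powerset).card ≤ (Icc T Z).card + ((Z \ T).powerset).card :=
          card_union_le _ _
      _ = 2 ^ (Z.card - T.card) + 2 ^ (Z.card - T.card) := by
          rw [card_Icc_finset (hTZ T hT), card_powerset, card_sdiff_of_subset (hTZ T hT)]
      _ = _ := by ring
  have h3 : 2 ^ Z.card ≤ ∑ T ∈ 𝓣, 2 * 2 ^ (Z.card - T.card) := by
    calc 2 ^ Z.card = (Z.powerset).card := (card_powerset _).symm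
      _ ≤ _ := card_le_card h1
      _ ≤ ∑ T ∈ 𝓣, (Icc T Z ∪ (Z \ T).powerset).card := card_biUnion_le
      _ ≤ _ := sum_le_sum h2
  rcases Finset.eq_empty_or_nonempty 𝓣 with he | ⟨T0, hT0⟩
  · rw [he, sum_empty] at h3
    have : 0 < 2 ^ Z.card := by positivity
    omega
  have htZ : t ≤ Z.card := (ht T0 hT0).trans (card_le_card (hTZ T0 hT0))
  have h4 : ∑ T ∈ 𝓣, 2 * 2 ^ (Z.card - T.card) ≤ ∑ T ∈ 𝓣, 2 * 2 ^ (Z.card - t) := by
    apply sum_le_sum
    intro T hT
    have := ht T hT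
    apply Nat.mul_le_mul_left
    exact Nat.pow_le_pow_right (by norm_num) (by omega)
  rw [sum_const, smul_eq_mul] at h4
  have h5 : 2 ^ Z.card = 2 ^ t * 2 ^ (Z.card - t) := by
    rw [← pow_add]; congr 1; omega
  have h6 : 𝓣.card * (2 * 2 ^ (Z.card - t)) < 2 ^ t * 2 ^ (Z.card - t) := by
    have h7 : 0 < 2 ^ (Z.card - t) := by positivity
    calc 𝓣.card * (2 * 2 ^ (Z.card - t)) = (2 * 𝓣.card) * 2 ^ (Z.card - t) := by ring
      _ < 2 ^ t * 2 ^ (Z.card - t) := Nat.mul_lt_mul_of_pos_right hc h7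
  omega

/-- sum colourings without large homogeneous sets -/
theorem low (r s N : ℕ) (B : Finset Γ) (hB : B.card = N) (hs : 2 * N ^ s < 2 ^ (s.choose r)) :
    ∃ f : Γ → Fin 2, ∀ X ⊆ B, s ^ (2 * r) + s < X.card →
      ∃ S ⊆ X, ∃ T ⊆ X, S.card = r ∧ T.card = r ∧ f (∑ x ∈ S, x) ≠ f (∑ x ∈ T, x) := by
  classical
  set 𝓣 : Finset (Finset Γ) := ((B.powersetCard s).filter (fun Y => Dis r Y)).image
    (fun Y => (Y.powersetCard r).image (fun S => ∑ x ∈ S, x)) with h𝓣
  have hcard : ∀ T ∈ 𝓣, s.choose r ≤ T.card := by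
    intro T hT
    obtain ⟨Y, hY, rfl⟩ := mem_image.1 hT
    rw [mem_filter, mem_powersetCard] at hY
    rw [card_image_of_injOn]
    · rw [card_powersetCard, hY.1.2]
    · intro S hS S' hS' h
      rw [mem_coe, mem_powersetCard] at hS hS'
      exact hY.2 S hS.1 S' hS'.1 (hS.2.trans hS'.2.symm) hS.2.le h
  have hcount : 2 * 𝓣.card < 2 ^ (s.choose r) := by
    refine lt_of_le_of_lt ?_ hs
    apply Nat.mul_le_mul_left
    calc 𝓣.card ≤ ((B.powersetCard s).filter (fun Y => Dis r Y)).card := card_image_le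
      _ ≤ (B.powersetCard s).card := card_filter_le _ _
      _ = N.choose s := by rw [card_powersetCard, hB]
      _ ≤ N ^ s := Nat.choose_le_pow _ _
  obtain ⟨C, hC⟩ := propB 𝓣 _ hcard hcount
  refine ⟨fun z => if z ∈ C then 0 else 1, ?_⟩
  intro X hX hXc
  obtain ⟨Y, hYX, hYc, hY⟩ := exists_dis r X s hXc
  have hmem : (Y.powersetCard r).image (fun S => ∑ x ∈ S, x) ∈ 𝓣 := by
    rw [h𝓣]
    apply mem_image_of_mem (f := fun Y : Finset Γ => (Y.powersetCard r).image (fun S => ∑ x ∈ S, x))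
    rw [mem_filter, mem_powersetCard]
    exact ⟨⟨hYX.trans hX, hYc⟩, hY⟩
  obtain ⟨⟨a, ha, haC⟩, ⟨b, hb, hbC⟩⟩ := hC _ hmem
  obtain ⟨S, hS, rfl⟩ := mem_image.1 ha
  obtain ⟨T, hT, rfl⟩ := mem_image.1 hb
  rw [mem_powersetCard] at hS hT
  refine ⟨S, hS.1.trans hYX, T, hT.1.trans hYX, hS.2, hT.2, ?_⟩
  simp only [haC, hbC, if_true, if_false]
  decide

end Pool.Agent.TH872.AddLow
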