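import Pool.Agent.TH872.Mir5

set_option autoImplicit false

/-! Random integers with mirror-dependent digits and palindromes: definitions and the passage from laws to
statements about them. -/

namespace Pool.Agent.TH872.Tr
open Finset
open Pool.Agent.TH872.Mir

/-- `v` is a palindrome with exactly `k` digits in base `b`: the digit number `j` (which is
`v / b ^ j % b`) is equal to the digit number `k - 1 - j`, for all `j < k`. -/
def IsPalindrome (b k v : ℕ) : Prop :=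
  b ^ (k - 1) ≤ v ∧ v < b ^ k ∧ ∀ j < k, v / b ^ j % b = v / b ^ (k - 1 - j) % b

open Classical in
/-- The number of the palindromes with `k` digits in base `b` which have the property `E`. -/
noncomputable def num (b k : ℕ) (E : ℕ → Prop) : ℕ :=
  ((range (b ^ k)).filter (fun v => IsPalindrome b k v ∧ E v)).card

/-- `c + κ v`, where `v` is the integer with the following `k` digits in base `b`: `(d i).1` at the position
`i` and `(d i).2` at the mirror position `k - 1 - i`, for `i < k / 2`, and, if `k` is odd, `z` in the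
middle. -/
def value (b k : ℕ) (κ c : ℤ) (d : Fin (k / 2) → ℕ × ℕ) (z : ℕ) : ℤ :=
  c + κ * ((∑ i : Fin (k / 2), ((d i).1 * b ^ (i : ℕ) + (d i).2 * b ^ (k - 1 - (i : ℕ))) + k % 2 * z * b ^ (k / 2) : ℕ) : ℤ)

open Classical in
/-- The probability of the event `E` if the pairs of digits `d i`, `i < k / 2`, and the middle digit `z`
are chosen independently of each other, `d i` is equal to `a` with probability `w i a`, and `z` is equal
to `a` with probability `u a`. -/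
noncomputable def Prob (b k : ℕ) (w : ℕ → ℕ × ℕ → ℝ) (u : ℕ → ℝ) (E : (Fin (k / 2) → ℕ × ℕ) → ℕ → Prop) : ℝ :=
  ∑ d ∈ Fintype.piFinset (fun _ : Fin (k / 2) => range b ×ˢ range b), ∑ z ∈ range b,
    if E d z then (∏ i : Fin (k / 2), w i (d i)) * u z else 0

/-- The numbers `w i a`, `i < k / 2`, are distributions of a pair `a` of digits in base `b`, and, for
`i ≥ 1`, two independent copies of the pair differ in BOTH digits with a probability of at least `η`. -/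
structure Pairs (b k : ℕ) (η : ℝ) (w : ℕ → ℕ × ℕ → ℝ) : Prop where
  nonneg : ∀ i < k / 2, ∀ a, 0 ≤ w i a
  sum : ∀ i < k / 2, ∑ a ∈ range b ×ˢ range b, w i a = 1
  differ : ∀ i < k / 2, 1 ≤ i → η ≤ ∑ a ∈ range b ×ˢ range b, ∑ a' ∈ range b ×ˢ range b,
    if a.1 ≠ a'.1 ∧ a.2 ≠ a'.2 then w i a * w i a' else 0

/-- what has to be proved about the laws -/
def Rare (b B U : ℕ) (κ : ℤ) (Adm : ℕ → (ℤ → Prop) → Prop) : Prop :=
  ∀ η : ℝ, 0 < η → ∀ s : ℕ, s ≤ 1 → ∃ m₀ : ℕ, ∀ m, m₀ ≤ m → ∀ w : ℕ → ℕ × ℕ → ℝ, Mirr b m η w → ∀ cc : ℤ,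
    |cc| + |κ| * (2 * (b : ℤ) ^ (2 * m + s)) ≤ (b : ℤ) ^ (2 * m + s + (B + 3 * κ.natAbs)) →
    ∀ bad : ℤ → Prop, Adm (2 * m + s) bad → ∀ E : (Fin m → ℕ × ℕ) → Prop, [DecidablePred E] →
    (∀ g ∈ Gs b m, E g → bad (cc + κ * (val b (2 * m + s) g : ℕ))) →
    ∑ g ∈ Gs b m, (if E g then pw w g else 0) ≤ 1 / ((2 * m + s : ℕ) : ℝ) ^ U

theorem transfer (b B U : ℕ) (hb : 2 ≤ b) (κ : ℤ) (Adm : ℕ → (ℤ → Prop) → Prop) (H : Rare b B U κ Adm) (η : ℝ) (hη : 0 < η) :
    ∃ k₀ : ℕ, ∀ k : ℕ, k₀ ≤ k → ∀ c : ℤ, |c| ≤ B * (b : ℤ) ^ k → ∀ bad : ℤ → Prop, Adm k bad →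
      (∀ (w : ℕ → ℕ × ℕ → ℝ) (u : ℕ → ℝ), Pairs b k η w → (∀ a, 0 ≤ u a) → ∑ a ∈ range b, u a = 1 →
        Prob b k w u (fun d z => bad (value b k κ c d z)) ≤ 1 / (k : ℝ) ^ U) ∧
      (num b k (fun v => bad (c + κ * v)) : ℝ) ≤ num b k (fun _ => True) / (k : ℝ) ^ U := by
  classical
  have hmain : ∀ s : ℕ, s ≤ 1 → ∀ η : ℝ, 0 < η → ∃ m₀ : ℕ, ∀ m, m₀ ≤ m → ∀ w : ℕ → ℕ × ℕ → ℝ, Mirr b m η w →
      ∀ c : ℤ, |c| ≤ B * (b : ℤ) ^ (2 * m + s) → ∀ bad : ℤ → Prop, Adm (2 * m + s) bad → ∀ z < b,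
      ∑ g ∈ Gs b m, (if bad (c + κ * ((val b (2 * m + s) g + s * z * b ^ m : ℕ) : ℤ))
        then pw w g else 0) ≤ 1 / ((2 * m + s : ℕ) : ℝ) ^ U := by
    intro s hs η hη
    obtain ⟨m₀, h0⟩ := H η hη s hs
    refine ⟨m₀, fun m hm w hw c hc bad hbad z hz => ?_⟩
    have hcc := cc_bound b B m s hb hs κ c hc z hz
    have hval : ∀ g : Fin m → ℕ × ℕ, c + κ * ((val b (2 * m + s) g + s * z * b ^ m : ℕ) : ℤ) =
        (c + κ * ((s * z * b ^ m : ℕ) : ℤ)) + κ * ((val b (2 * m + s) g : ℕ) : ℤ) := by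
      intro g
      push_cast
      ring
    simp only [hval]
    exact h0 m hm w hw _ hcc bad hbad _ (fun g _ hg => hg)
  obtain ⟨m0, h0⟩ := hmain 0 (by norm_num) η hη
  obtain ⟨m1, h1⟩ := hmain 1 le_rfl η hη
  have hη' : (0 : ℝ) < 1 / (b : ℝ) ^ 2 := by
    have : (0 : ℝ) < b := by exact_mod_cast (by omega : 0 < b)
    positivity
  obtain ⟨m2, h2⟩ := hmain 0 (by norm_num) _ hη'
  obtain ⟨m3, h3⟩ := hmain 1 le_rfl _ hη'
  refine ⟨2 * (m0 + m1 + m2 + m3) + 4, fun k hk c hc bad hbad => ?_⟩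
  obtain ⟨m, hm⟩ : ∃ m, m = k / 2 := ⟨_, rfl⟩
  obtain ⟨s, hs⟩ : ∃ s, s = k % 2 := ⟨_, rfl⟩
  have hs1 : s ≤ 1 := by omega
  have hkms : k = 2 * m + s := by omega
  have hkr : (0 : ℝ) < k := by exact_mod_cast (by omega : 0 < k)
  have hg : ∀ w : ℕ → ℕ × ℕ → ℝ, Mirr b m η w → ∀ z < b,
      ∑ g ∈ Gs b m, (if bad (c + κ * ((val b (2 * m + s) g + s * z * b ^ m : ℕ) : ℤ))
        then pw w g else 0) ≤ 1 / ((2 * m + s : ℕ) : ℝ) ^ U := by
    intro w hw z hz
    have h4 : s = 0 ∨ s = 1 := by omega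
    rw [hkms] at hc hbad
    rcases h4 with rfl | rfl
    · exact h0 m (by omega) w hw c hc bad hbad z hz
    · exact h1 m (by omega) w hw c hc bad hbad z hz
  have hg' : ∀ w : ℕ → ℕ × ℕ → ℝ, Mirr b m (1 / (b : ℝ) ^ 2) w → ∀ z < b,
      ∑ g ∈ Gs b m, (if bad (c + κ * ((val b (2 * m + s) g + s * z * b ^ m : ℕ) : ℤ))
        then pw w g else 0) ≤ 1 / ((2 * m + s : ℕ) : ℝ) ^ U := by
    intro w hw z hz
    have h4 : s = 0 ∨ s = 1 := by omega
    rw [hkms] at hc hbad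
    rcases h4 with rfl | rfl
    · exact h2 m (by omega) w hw c hc bad hbad z hz
    · exact h3 m (by omega) w hw c hc bad hbad z hz
  constructor
  · intro w u hw hu hu1
    have hmir : Mirr b m η w := by
      rw [hm]
      exact ⟨hw.nonneg, hw.sum, hw.differ⟩
    have hP : Prob b k w u (fun d z => bad (value b k κ c d z)) =
        ∑ z ∈ range b, u z * ∑ g ∈ Gs b m, (if bad (c + κ * ((val b (2 * m + s) g + s * z * b ^ m : ℕ) : ℤ))
        then pw w g else 0) := by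
      unfold Prob
      rw [sum_comm]
      subst hm hs
      apply sum_congr rfl
      intro z _
      rw [mul_sum]
      apply sum_congr rfl
      intro d _
      rw [← hkms]
      unfold value Mir.val pw
      split_ifs
      · ring
      · ring
    rw [hP]
    calc _ ≤ ∑ z ∈ range b, u z * (1 / ((2 * m + s : ℕ) : ℝ) ^ U) :=
          sum_le_sum fun z hz => mul_le_mul_of_nonneg_left (hg w hmir z (mem_range.1 hz)) (hu z)
      _ = _ := by rw [← sum_mul, hu1, one_mul, hkms]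
  · have h5 := pals_of_prob b m s hb (by omega) hs1
      (fun v => bad (c + κ * v)) (1 / ((2 * m + s : ℕ) : ℝ) ^ U) (by positivity) (by
        intro z hz
        convert hg' _ (w0_mirr b m hb) z hz)
    have e1 : ∀ E : ℕ → Prop, num b k E = ((Pals b (2 * m + s)).filter E).card := by
      intro E
      unfold num Pals
      rw [← hkms, filter_filter]
      rfl
    rw [e1, e1, filter_true, ← hkms] at *
    rw [mul_one_div] at h5
    exact h5

end Pool.Agent.TH872.Tr
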