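import Pool.Agent.W93.AU18
import Pool.Agent.W93.PG6
import Pool.Agent.TH872.Transfer

set_option autoImplicit false

/-! Goldbach pairs in windows, for an arbitrary law with small characteristic function. -/

namespace Pool.Agent.TH872.Mir
open Finset
open Pool.Agent.H373R2.T7
open Pool.Agent.H560R3.GB (sing)
open Pool.Agent.W93.GB (vM_le)
open Pool.Agent.W93.AU
open Pool.Agent.W93.PG

theorem gg_law (b F : ℕ) (hb : 2 ≤ b) (hF : 1 ≤ F) (W U : ℕ) :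
    ∃ V : ℕ, ∀ D : ℕ, ∃ K₀ : ℕ, ∀ K : ℕ, K₀ ≤ K → ∀ (ι : Type) (Ω : Finset ι) (p : ι → ℝ) (Y : ι → ℤ),
    Law b F D V K Ω p Y → (∀ ω ∈ Ω, -((b ^ K : ℕ) : ℤ) < Y ω ∧ Y ω ≤ ((b ^ K : ℕ) : ℤ)) →
    ∀ E : ι → Prop, [DecidablePred E] →
    (∀ ω ∈ Ω, E ω → 0 < Y ω ∧ 2 ∣ Y ω ∧ ¬ GoodG W (b ^ K) (Y ω).toNat) →
    ∑ ω ∈ Ω, (if E ω then p ω else 0) ≤ 1 / (K : ℝ) ^ U := by
  obtain ⟨U2, hU2⟩ : ∃ U2, U2 = 2 * (W + 2) + U := ⟨_, rfl⟩
  refine ⟨4 * U2 + 3 * 2 + 7 + 6, fun D => ?_⟩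
  obtain ⟨B0, h0⟩ := law_prob b F hb hF 2 U2 D
  obtain ⟨E1, hE1⟩ : ∃ E1, E1 = B0 + W + 6 := ⟨_, rfl⟩
  obtain ⟨n0, h0⟩ := h0 (E1 + 1)
  obtain ⟨X1, hdet⟩ := pg_det W E1 (by omega)
  refine ⟨n0 + X1 + b + 4, fun K hK ι Ω p Y hlaw hY E _ hE => ?_⟩
  have hK1 : 1 ≤ K := by omega
  have hKr : (1 : ℝ) ≤ K := by exact_mod_cast hK1
  have hK0 : (0 : ℝ) < K := by linarith
  have hKb : K < b ^ K := Nat.lt_pow_self (by omega)
  obtain ⟨X, hX⟩ : ∃ X : ℕ, X = b ^ K := ⟨_, rfl⟩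
  rw [← hX] at hKb hY hE
  have hX1 : 1 ≤ X := by omega
  have hX0 : (0 : ℝ) < X := by exact_mod_cast (by omega : 0 < X)
  obtain ⟨L, hL⟩ : ∃ L, L = Real.log (X : ℝ) := ⟨_, rfl⟩
  have hb2 : (2 : ℝ) ≤ b := by exact_mod_cast hb
  have hLe : L = K * Real.log b := by
    rw [hL, hX]; push_cast; rw [Real.log_pow]
  have hL1 : 1 ≤ L := by
    rw [hL, Real.le_log_iff_exp_le hX0]
    have h3 : (3 : ℝ) ≤ X := by exact_mod_cast (by omega : 3 ≤ X)
    linarith [Real.exp_one_lt_d9]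
  have hLK : L ≤ (K : ℝ) ^ 2 := by
    have e2 : Real.log (b : ℝ) ≤ K := by
      have q1 : Real.log (b : ℝ) ≤ b := (Real.log_le_sub_one_of_pos (by linarith)).trans (by linarith)
      exact q1.trans (by exact_mod_cast (by omega : b ≤ K))
    rw [hLe, pow_two]
    exact mul_le_mul_of_nonneg_left e2 hK0.le
  have hL0 : 0 < L := by linarith
  obtain ⟨z, hz⟩ : ∃ z, z = ⌈L ^ E1⌉₊ := ⟨_, rfl⟩
  have hfl : ∀ E : ℕ, L ^ E ≤ (⌈L ^ E⌉₊ : ℝ) ∧ (E = E1 → 2 ≤ L → (⌈L ^ E⌉₊ : ℝ) ≤ L ^ (E + 1)) := by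
    intro E
    refine ⟨Nat.le_ceil _, fun _ h2 => ?_⟩
    have h5 : (⌈L ^ E⌉₊ : ℝ) < L ^ E + 1 := Nat.ceil_lt_add_one (by positivity)
    have h6 : 1 ≤ L ^ E := one_le_pow₀ hL1
    rw [pow_succ]
    nlinarith
  have hL2 : 2 ≤ L := by
    have q1 : Real.log 2 ≤ Real.log b := Real.log_le_log (by norm_num) hb2
    have q2 := Real.log_two_gt_d9
    have q3 : (4 : ℝ) ≤ K := by exact_mod_cast (by omega : 4 ≤ K)
    rw [hLe]
    nlinarith
  have hz1 : L ^ E1 ≤ z := by rw [hz]; exact (hfl E1).1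
  have hz2 : (z : ℝ) ≤ L ^ (E1 + 1) := by rw [hz]; exact (hfl E1).2 rfl hL2
  obtain ⟨T, hT⟩ : ∃ T, T = ⌈L ^ (W + 3)⌉₊ := ⟨_, rfl⟩
  have hT1 : L ^ (W + 3) ≤ T := by rw [hT]; exact (hfl (W + 3)).1
  have hXU : (X : ℝ) / (K : ℝ) ^ U2 ≤ X / L ^ (W + 2) := by
    apply div_le_div_of_nonneg_left hX0.le (by positivity)
    rw [hU2, pow_add (K : ℝ), pow_mul]
    have e1 : (1 : ℝ) ≤ (K : ℝ) ^ U := one_le_pow₀ hKr
    have e2 : L ^ (W + 2) ≤ ((K : ℝ) ^ 2) ^ (W + 2) := pow_le_pow_left₀ hL0.le hLK _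
    calc L ^ (W + 2) ≤ ((K : ℝ) ^ 2) ^ (W + 2) * 1 := by rw [mul_one]; exact e2
      _ ≤ _ := mul_le_mul_of_nonneg_left e1 (by positivity)
  have key := h0 K (by omega) z (by rw [← hX, ← hL]; exact (pow_le_pow_right₀ hL1 (by omega)).trans hz1)
    (by rw [← hX, ← hL]; exact hz2) ι Ω p Y hlaw 0 (by
      intro ω hω
      rw [← hX]
      refine ⟨(hY ω hω).1, ?_⟩
      have := (hY ω hω).2
      push_cast
      linarith) (Nat.zero_le _)
    (fun n => if n ≤ X then ArithmeticFunction.vonMangoldt n else 0) (by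
      intro n
      split_ifs with hn
      · rw [abs_of_nonneg ArithmeticFunction.vonMangoldt_nonneg]
        refine (vM_le n X hX1 hn).trans ?_
        rw [← hL]
        exact hLK
      · rw [abs_zero]; positivity) E (by
      intro ω hω hEω
      rw [← hX]
      obtain ⟨c1, c2, c3⟩ := hE ω hω hEω
      obtain ⟨m, hm⟩ : ∃ m : ℕ, (m : ℤ) = Y ω := ⟨(Y ω).toNat, Int.toNat_of_nonneg c1.le⟩
      have hmY := (hY ω hω).2
      rw [← hm] at c1 c2 c3 hmY ⊢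
      rw [Int.toNat_natCast] at c3
      have hmX : m ≤ X := by exact_mod_cast hmY
      by_contra hcon
      rw [not_or] at hcon
      obtain ⟨_, d2⟩ := hcon
      push Not at d2
      apply c3
      intro y hy
      refine hdet X (by omega) m hmX (by exact_mod_cast c2) (by omega) z (by rw [← hL]; exact hz1) (by rw [← hL]; exact hz2) T
        (by rw [← hL]; exact hT1) ?_ y hy
      intro i hi
      rw [← hL]
      have h5 := (d2 c1 (min (i * (X / T + 1)) X) (min_le_right _ _)).trans hXU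
      refine le_trans (le_of_eq ?_) h5
      congr 1
      apply sum_congr rfl
      intro n hn
      rw [mem_Icc] at hn
      rw [if_pos (hn.2.trans (min_le_right _ _))]
      rfl)
  refine key.trans ?_
  apply one_div_le_one_div_of_le (by positivity)
  exact pow_le_pow_right₀ hKr (by omega)

/-- the numbers of Goldbach pairs in all windows -/
theorem mir_windows (b B U A m₀ : ℕ) (hb : 2 ≤ b) (κ : ℤ) (hκ : κ ≠ 0) (ε : ℝ) (hε : 0 < ε) (P : ℕ → Prop)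
    (hP : ∀ m : ℕ, m₀ ≤ m → 2 ∣ m → WinP ε A m → P m) :
    Pool.Agent.TH872.Tr.Rare b B U κ (fun _ bad => ∀ n : ℤ, bad n → 0 < n ∧ Even n ∧ ¬ P n.toNat) := by
  classical
  intro η hη s hs
  obtain ⟨e, he⟩ : ∃ e, e = B + 3 * κ.natAbs := ⟨_, rfl⟩
  obtain ⟨W0, K1, h1⟩ := anti_small b hb η hη κ hκ e s U
  obtain ⟨W, hW⟩ : ∃ W, W = W0 + 1 := ⟨_, rfl⟩
  obtain ⟨V, hV⟩ := gg_law b (FF0 b κ) hb (FF0_pos b κ hκ) (A + W + 4) (U + 1)
  obtain ⟨D, hD⟩ := mir_law b hb η hη κ e s V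
  obtain ⟨K2, h2⟩ := hV D
  obtain ⟨X0, h3⟩ := win_count ε hε A W
  obtain ⟨n4, h4⟩ := ev_log' W 1
  refine ⟨K1 + K2 + X0 + n4 + m₀ ^ 2 + 4, fun m hm w hw cc hcc bad hbad E _ hE => ?_⟩
  rw [← he] at hcc
  obtain ⟨K, hK⟩ : ∃ K, K = 2 * m + s + e := ⟨_, rfl⟩
  obtain ⟨X, hX⟩ : ∃ X, X = b ^ K := ⟨_, rfl⟩
  have hkX : K < X := by rw [hX]; exact Nat.lt_pow_self (by omega)
  have hX3 : (3 : ℝ) ≤ X := by exact_mod_cast (by omega : 3 ≤ X)
  have hX0 : (0 : ℝ) < X := by linarith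
  obtain ⟨L, hL⟩ : ∃ L, L = Real.log (X : ℝ) := ⟨_, rfl⟩
  have hL1 : 1 ≤ L := by
    rw [hL, Real.le_log_iff_exp_le hX0]
    have := Real.exp_one_lt_d9
    linarith
  have a4 := h4 X (by omega)
  rw [one_mul, ← hL] at a4
  have hss : √(X : ℝ) * √(X : ℝ) = X := Real.mul_self_sqrt hX0.le
  have hs0 : 0 < √(X : ℝ) := Real.sqrt_pos.2 hX0
  have hYb : ∀ g ∈ Gs b m, |cc + κ * (Pool.Agent.TH872.Mir.val b (2 * m + s) g : ℕ)| < (X : ℤ) := by
    intro g hg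
    have h0 : ((Pool.Agent.TH872.Mir.val b (2 * m + s) g : ℕ) : ℤ) < 2 * (b : ℤ) ^ (2 * m + s) := by
      exact_mod_cast val_lt b m s (by omega) g hg
    calc |cc + κ * (Pool.Agent.TH872.Mir.val b (2 * m + s) g : ℕ)| ≤
          |cc| + |κ * (Pool.Agent.TH872.Mir.val b (2 * m + s) g : ℕ)| := abs_add_le _ _
      _ = |cc| + |κ| * (Pool.Agent.TH872.Mir.val b (2 * m + s) g : ℕ) := by
          rw [abs_mul, abs_of_nonneg (by positivity : (0 : ℤ) ≤ ((Pool.Agent.TH872.Mir.val b (2 * m + s) g : ℕ) : ℤ))]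
      _ < |cc| + |κ| * (2 * (b : ℤ) ^ (2 * m + s)) := by
          have := mul_lt_mul_of_pos_left h0 (abs_pos.2 hκ)
          linarith
      _ ≤ _ := hcc.trans (le_of_eq (by rw [hX, hK]; push_cast; rfl))
  obtain ⟨Y, hYd⟩ : ∃ Y : (Fin m → ℕ × ℕ) → ℤ, Y = fun g => cc + κ * (Pool.Agent.TH872.Mir.val b (2 * m + s) g : ℕ) := ⟨_, rfl⟩
  have hYg : ∀ g, cc + κ * (Pool.Agent.TH872.Mir.val b (2 * m + s) g : ℕ) = Y g := fun g => by rw [hYd]
  have hlaw := hD m K hK (by omega) w hw cc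
  rw [← hYd] at hlaw
  have g1 := h1 K (by omega) m hK w hw cc (fun g => 1 ≤ Y g ∧ ((Y g : ℤ) : ℝ) < (X : ℝ) / L ^ W) (by
    intro g h
    rw [hYg, ← hX, ← hL, ← hW]
    exact h)
  have g2 := h2 K (by omega) _ (Gs b m) (pw w) Y hlaw (by
    intro g hg
    have := hYb g hg
    rw [hYg, abs_lt] at this
    rw [← hX]
    exact ⟨this.1, this.2.le⟩) (fun g => 0 < Y g ∧ 2 ∣ Y g ∧ ¬ GoodG (A + W + 4) (b ^ K) (Y g).toNat) (fun g _ h => h)
  rw [← hX] at g2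
  have hpw : ∀ g ∈ Gs b m, 0 ≤ pw w g := fun g hg => hlaw.nonneg g hg
  have hpt : ∀ g ∈ Gs b m, (if E g then pw w g else 0) ≤
      (if (1 ≤ Y g ∧ ((Y g : ℤ) : ℝ) < (X : ℝ) / L ^ W) then pw w g else 0) +
      (if (0 < Y g ∧ 2 ∣ Y g ∧ ¬ GoodG (A + W + 4) X (Y g).toNat) then pw w g else 0) := by
    intro g hg
    have hp := hpw g hg
    have hn : ∀ Q : Prop, ∀ _ : Decidable Q, 0 ≤ (if Q then pw w g else 0) := by
      intro Q _
      split_ifs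
      · exact hp
      · exact le_rfl
    by_cases hB : E g
    swap
    · rw [if_neg hB]
      exact add_nonneg (hn _ _) (hn _ _)
    rw [if_pos hB]
    obtain ⟨c1, c2, c3⟩ := hbad _ (hE g hg hB)
    have hgX := hYb g hg
    rw [hYg] at c1 c2 c3 hgX
    by_cases hA : (1 ≤ Y g ∧ ((Y g : ℤ) : ℝ) < (X : ℝ) / L ^ W)
    · rw [if_pos hA]
      linarith [hn (0 < Y g ∧ 2 ∣ Y g ∧ ¬ GoodG (A + W + 4) X (Y g).toNat) inferInstance]
    · by_cases hC : (0 < Y g ∧ 2 ∣ Y g ∧ ¬ GoodG (A + W + 4) X (Y g).toNat)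
      · rw [if_pos hC]
        linarith [hn (1 ≤ Y g ∧ ((Y g : ℤ) : ℝ) < (X : ℝ) / L ^ W) inferInstance]
      · exfalso
        apply c3
        obtain ⟨n, hn⟩ : ∃ n : ℕ, (n : ℤ) = Y g := ⟨(Y g).toNat, Int.toNat_of_nonneg c1.le⟩
        rw [← hn, Int.toNat_natCast] at hC
        rw [← hn] at c1 c2 hA hgX ⊢
        rw [Int.toNat_natCast]
        have hm2 : 2 ∣ n := by exact_mod_cast c2.two_dvd
        have hGood : GoodG (A + W + 4) X n := by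
          by_contra hcon
          exact hC ⟨c1, c2.two_dvd, hcon⟩
        have hmW : (X : ℝ) / L ^ W ≤ n := by
          by_contra hcon
          push Not at hcon
          apply hA
          refine ⟨by omega, ?_⟩
          push_cast
          exact hcon
        have hmX : n ≤ X := by
          rw [abs_lt] at hgX
          exact_mod_cast hgX.2.le
        have hmsq : √(X : ℝ) ≤ n := by
          refine le_trans ?_ hmW
          rw [le_div_iff₀ (by positivity)]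
          calc √(X : ℝ) * L ^ W ≤ √(X : ℝ) * √(X : ℝ) := mul_le_mul_of_nonneg_left a4 hs0.le
            _ = X := hss
        have hmm : m₀ ≤ n := by
          have h5 : ((m₀ : ℕ) : ℝ) ≤ √(X : ℝ) := by
            apply Real.le_sqrt_of_sq_le
            exact_mod_cast (by omega : m₀ ^ 2 ≤ X)
          exact_mod_cast h5.trans hmsq
        apply hP n hmm hm2
        intro y₁ y₂ h12 hy2 hΔ
        exact h3 X (by omega) n hmX (by rw [← hL]; exact hmW) hGood y₁ y₂ h12 hy2 hΔ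
  refine (sum_le_sum hpt).trans ?_
  rw [sum_add_distrib]
  have hk0 : (2 : ℝ) ≤ K := by exact_mod_cast (by omega : 2 ≤ K)
  have e : 1 / (K : ℝ) ^ (U + 1) + 1 / (K : ℝ) ^ (U + 1) ≤ 1 / ((2 * m + s : ℕ) : ℝ) ^ U := by
    have e1 : 1 / (K : ℝ) ^ (U + 1) + 1 / (K : ℝ) ^ (U + 1) ≤ 1 / (K : ℝ) ^ U := by
      rw [← two_mul, mul_one_div, div_le_div_iff₀ (by positivity) (by positivity), pow_succ]
      have : 0 < (K : ℝ) ^ U := by positivity
      nlinarith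
    refine e1.trans ?_
    have hm1 : (0 : ℝ) < ((2 * m + s : ℕ) : ℝ) := by exact_mod_cast (by omega : 0 < 2 * m + s)
    apply one_div_le_one_div_of_le (by positivity)
    apply pow_le_pow_left₀ hm1.le
    exact_mod_cast (by omega : 2 * m + s ≤ K)
  exact (add_le_add g1 g2).trans e

end Pool.Agent.TH872.Mir
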