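import Pool.Agent.TH872.An2
import Pool.Agent.TH872.Mir7

set_option autoImplicit false

/-! Goldbach pairs in windows: an arbitrary law, and random permutations of digits. -/

namespace Pool.Agent.TH872.An
open Finset
open Pool.Agent.H373R2.T7
open Pool.Agent.H560R3.GB (sing)
open Pool.Agent.W93.AU
open Pool.Agent.W93.PG

/-- the numbers of Goldbach pairs in all windows, for an arbitrary law -/
theorem windows_any (b F U A m₀ W : ℕ) (hb : 2 ≤ b) (hF : 1 ≤ F) (ε : ℝ) (hε : 0 < ε) (P : ℕ → Prop)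
    (hP : ∀ m : ℕ, m₀ ≤ m → 2 ∣ m → WinP ε A m → P m) :
    ∃ V : ℕ, ∀ D : ℕ, ∃ K₀ : ℕ, ∀ K : ℕ, K₀ ≤ K → ∀ (ι : Type) (Ω : Finset ι) (p : ι → ℝ) (Y : ι → ℤ),
    Law b F D V K Ω p Y → (∀ ω ∈ Ω, |Y ω| < ((b ^ K : ℕ) : ℤ)) →
    (∀ Sm : ι → Prop, [DecidablePred Sm] → (∀ ω ∈ Ω, Sm ω → 1 ≤ Y ω ∧
      ((Y ω : ℤ) : ℝ) < ((b ^ K : ℕ) : ℝ) / Real.log ((b ^ K : ℕ) : ℝ) ^ W) →
      ∑ ω ∈ Ω, (if Sm ω then p ω else 0) ≤ 1 / (K : ℝ) ^ (U + 1)) →
    ∀ E : ι → Prop, [DecidablePred E] → (∀ ω ∈ Ω, E ω → 0 < Y ω ∧ Even (Y ω) ∧ ¬ P (Y ω).toNat) →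
    ∑ ω ∈ Ω, (if E ω then p ω else 0) ≤ 1 / (K : ℝ) ^ U := by
  classical
  obtain ⟨V, hV⟩ := Pool.Agent.TH872.Mir.gg_law b F hb hF (A + W + 4) (U + 1)
  refine ⟨V, fun D => ?_⟩
  obtain ⟨K2, h2⟩ := hV D
  obtain ⟨X0, h3⟩ := win_count ε hε A W
  obtain ⟨n4, h4⟩ := ev_log' W 1
  refine ⟨K2 + X0 + n4 + m₀ ^ 2 + 4, fun K hK ι Ω p Y hlaw hYb hsm E _ hE => ?_⟩
  obtain ⟨X, hX⟩ : ∃ X, X = b ^ K := ⟨_, rfl⟩
  rw [← hX] at hYb hsm
  have hkX : K < X := by rw [hX]; exact Nat.lt_pow_self (by omega)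
  have hX3 : (3 : ℝ) ≤ X := by exact_mod_cast (by omega : 3 ≤ X)
  have hX0 : (0 : ℝ) < X := by linarith
  obtain ⟨L, hL⟩ : ∃ L, L = Real.log (X : ℝ) := ⟨_, rfl⟩
  rw [← hL] at hsm
  have hL1 : 1 ≤ L := by
    rw [hL, Real.le_log_iff_exp_le hX0]
    have := Real.exp_one_lt_d9
    linarith
  have a4 := h4 X (by omega)
  rw [one_mul, ← hL] at a4
  have hss : √(X : ℝ) * √(X : ℝ) = X := Real.mul_self_sqrt hX0.le
  have hs0 : 0 < √(X : ℝ) := Real.sqrt_pos.2 hX0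
  have g1 := hsm (fun ω => 1 ≤ Y ω ∧ ((Y ω : ℤ) : ℝ) < (X : ℝ) / L ^ W) (fun ω _ h => h)
  have g2 := h2 K (by omega) ι Ω p Y hlaw (by
    intro ω hω
    have := hYb ω hω
    rw [abs_lt] at this
    rw [← hX]
    exact ⟨this.1, this.2.le⟩) (fun ω => 0 < Y ω ∧ 2 ∣ Y ω ∧ ¬ GoodG (A + W + 4) (b ^ K) (Y ω).toNat) (fun ω _ h => h)
  rw [← hX] at g2
  have hpt : ∀ ω ∈ Ω, (if E ω then p ω else 0) ≤
      (if (1 ≤ Y ω ∧ ((Y ω : ℤ) : ℝ) < (X : ℝ) / L ^ W) then p ω else 0) +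
      (if (0 < Y ω ∧ 2 ∣ Y ω ∧ ¬ GoodG (A + W + 4) X (Y ω).toNat) then p ω else 0) := by
    intro g hg
    have hp := hlaw.nonneg g hg
    have hn : ∀ Q : Prop, ∀ _ : Decidable Q, 0 ≤ (if Q then p g else 0) := by
      intro Q _
      split_ifs
      · exact hp
      · exact le_rfl
    by_cases hB : E g
    swap
    · rw [if_neg hB]
      exact add_nonneg (hn _ _) (hn _ _)
    rw [if_pos hB]
    obtain ⟨c1, c2, c3⟩ := hE g hg hB
    have hgX := hYb g hg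
    by_cases hA : (1 ≤ Y g ∧ ((Y g : ℤ) : ℝ) < (X : ℝ) / L ^ W)
    · rw [if_pos hA]
      linarith [hn (0 < Y g ∧ 2 ∣ Y g ∧ ¬ GoodG (A + W + 4) X (Y g).toNat) inferInstance]
    · by_cases hC : (0 < Y g ∧ 2 ∣ Y g ∧ ¬ GoodG (A + W + 4) X (Y g).toNat)
      · rw [if_pos hC]
        linarith [hn (1 ≤ Y g ∧ ((Y g : ℤ) : ℝ) < (X : ℝ) / L ^ W) inferInstance]
      · exfalso
        apply c3
        obtain ⟨n, hn⟩ : ∃ n : ℕ, (n : ℤ) = Y g := ⟨(Y g).toNat, Int.toNat_of_nonneg c1.le⟩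
        rw [← hn, Int.toNat_natCast] at hC
        rw [← hn] at c1 c2 hA hgX ⊢
        rw [Int.toNat_natCast]
        have hm2 : 2 ∣ n := by exact_mod_cast c2.two_dvd
        have hGood : GoodG (A + W + 4) X n := by
          by_contra hcon
          exact hC ⟨c1, c2.two_dvd, hcon⟩
        have hmW : (X : ℝ) / L ^ W ≤ n := by
          by_contra hcon
          push Not at hcon
          apply hA
          refine ⟨by omega, ?_⟩
          push_cast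
          exact hcon
        have hmX : n ≤ X := by
          rw [abs_lt] at hgX
          exact_mod_cast hgX.2.le
        have hmsq : √(X : ℝ) ≤ n := by
          refine le_trans ?_ hmW
          rw [le_div_iff₀ (by positivity)]
          calc √(X : ℝ) * L ^ W ≤ √(X : ℝ) * √(X : ℝ) := mul_le_mul_of_nonneg_left a4 hs0.le
            _ = X := hss
        have hmm : m₀ ≤ n := by
          have h5 : ((m₀ : ℕ) : ℝ) ≤ √(X : ℝ) := by
            apply Real.le_sqrt_of_sq_le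
            exact_mod_cast (by omega : m₀ ^ 2 ≤ X)
          exact_mod_cast h5.trans hmsq
        apply hP n hmm hm2
        intro y₁ y₂ h12 hy2 hΔ
        exact h3 X (by omega) n hmX (by rw [← hL]; exact hmW) hGood y₁ y₂ h12 hy2 hΔ
  refine (sum_le_sum hpt).trans ?_
  rw [sum_add_distrib]
  have hk0 : (2 : ℝ) ≤ K := by exact_mod_cast (by omega : 2 ≤ K)
  have e1 : 1 / (K : ℝ) ^ (U + 1) + 1 / (K : ℝ) ^ (U + 1) ≤ 1 / (K : ℝ) ^ U := by
    rw [← two_mul, mul_one_div, div_le_div_iff₀ (by positivity) (by positivity), pow_succ]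
    have : 0 < (K : ℝ) ^ U := by positivity
    nlinarith
  exact (add_le_add g1 g2).trans e1

/-- the size of `c + κ v` -/
lemma size (b B : ℕ) (hb : 2 ≤ b) (κ : ℤ) (k : ℕ) (v : ℕ) (hv : v < b ^ k) (c : ℤ) (hc : |c| ≤ B * (b : ℤ) ^ k) :
    |c + κ * (v : ℕ)| < ((b ^ (k + (B + κ.natAbs)) : ℕ) : ℤ) := by
  have h0 : (v : ℤ) < (b : ℤ) ^ k := by exact_mod_cast hv
  have hbk : (0 : ℤ) < (b : ℤ) ^ k := by positivity
  have h1 : (B + κ.natAbs : ℤ) < (b : ℤ) ^ (B + κ.natAbs) := by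
    have : B + κ.natAbs < b ^ (B + κ.natAbs) := Nat.lt_pow_self (by omega)
    exact_mod_cast this
  have h2 : (κ.natAbs : ℤ) = |κ| := Int.natCast_natAbs κ
  calc |c + κ * (v : ℕ)| ≤ |c| + |κ * (v : ℕ)| := abs_add_le _ _
    _ = |c| + |κ| * (v : ℕ) := by rw [abs_mul, abs_of_nonneg (by positivity : (0 : ℤ) ≤ ((v : ℕ) : ℤ))]
    _ ≤ B * (b : ℤ) ^ k + |κ| * (b : ℤ) ^ k := by
        have := mul_le_mul_of_nonneg_left h0.le (abs_nonneg κ)
        linarith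
    _ = (B + κ.natAbs) * (b : ℤ) ^ k := by rw [h2]; ring
    _ < (b : ℤ) ^ (B + κ.natAbs) * (b : ℤ) ^ k := mul_lt_mul_of_pos_right h1 hbk
    _ = _ := by push_cast; rw [← pow_add, add_comm]

/-- the proportion of the permutations -/
lemma count_perm (k : ℕ) (E : Equiv.Perm (Fin k) → Prop) [DecidablePred E] (r : ℝ)
    (h : ∑ σ : Equiv.Perm (Fin k), (if E σ then 1 / (k.factorial : ℝ) else 0) ≤ r) :
    ((univ.filter E).card : ℝ) ≤ k.factorial * r := by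
  have h0 : (0 : ℝ) < (k.factorial : ℝ) := by exact_mod_cast k.factorial_pos
  have h1 : ∑ σ : Equiv.Perm (Fin k), (if E σ then 1 / (k.factorial : ℝ) else 0) = ((univ.filter E).card : ℝ) * (1 / (k.factorial : ℝ)) := by
    rw [← sum_filter, sum_const, nsmul_eq_mul]
  rw [h1, mul_one_div, div_le_iff₀ h0] at h
  linarith

/-- the numbers of Goldbach pairs in all windows, for random permutations of digits -/
theorem an_windows (b B U A m₀ : ℕ) (hb : 2 ≤ b) (κ : ℤ) (hκ : κ ≠ 0) (η : ℝ) (hη : 0 < η) (ε : ℝ) (hε : 0 < ε) (P : ℕ → Prop)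
    (hP : ∀ m : ℕ, m₀ ≤ m → 2 ∣ m → WinP ε A m → P m) : ∃ k₀ : ℕ, ∀ k : ℕ, k₀ ≤ k → ∀ d : Fin k → ℕ, Spread b k η d →
    ∀ c : ℤ, |c| ≤ B * (b : ℤ) ^ k → ∀ E : Equiv.Perm (Fin k) → Prop, [DecidablePred E] →
    (∀ σ, E σ → 0 < c + κ * V b d σ ∧ Even (c + κ * V b d σ) ∧ ¬ P (c + κ * V b d σ).toNat) →
    ((univ.filter E).card : ℝ) ≤ k.factorial / (k : ℝ) ^ U := by
  obtain ⟨e, he⟩ : ∃ e, e = B + κ.natAbs := ⟨_, rfl⟩
  obtain ⟨W0, K1, h1⟩ := an_small b hb η hη κ hκ e U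
  obtain ⟨V', hV⟩ := windows_any b (FA b κ) U A m₀ (W0 + 1) hb (FA_pos b hb κ hκ) ε hε P hP
  obtain ⟨D, K2, hD⟩ := an_law b hb η hη κ e V'
  obtain ⟨K3, h3⟩ := hV D
  refine ⟨K1 + K2 + K3 + 1, fun k hk d hd c hc E _ hE => ?_⟩
  obtain ⟨K, hK⟩ : ∃ K, K = k + e := ⟨_, rfl⟩
  have h := h3 K (by omega) _ univ (fun _ => 1 / (k.factorial : ℝ)) (fun σ => c + κ * (V b d σ : ℕ)) (hD k K hK (by omega) d hd c)
    (by
      intro σ _
      rw [hK, he]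
      exact size b B hb κ k _ (V_lt hd (by omega) σ) c hc)
    (by
      intro Sm _ hSm
      exact h1 K (by omega) k hK d hd c Sm (fun σ hσ => hSm σ (mem_univ σ) hσ))
    E (fun σ _ hσ => hE σ hσ)
  refine (count_perm k E _ h).trans ?_
  have hk1 : (0 : ℝ) < k := by exact_mod_cast (by omega : 0 < k)
  rw [mul_one_div]
  apply div_le_div_of_nonneg_left (Nat.cast_nonneg _) (by positivity)
  apply pow_le_pow_left₀ hk1.le
  exact_mod_cast (by omega : k ≤ K)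

end Pool.Agent.TH872.An
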