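import Mathlib

/-! Hilbert cubes with distinct differences, used for additive colourings. -/

set_option autoImplicit false

open Finset

namespace Pool.Agent.TH872.AddCube

variable {Γ : Type*} [AddCommGroup Γ] [DecidableEq Γ]

/-- `A ∩ (A - d)` -/
def sh (A : Finset Γ) (d : Γ) : Finset Γ := A.filter (fun a => a + d ∈ A)

lemma count_pairs (A P : Finset Γ) :
    ((A ×ˢ A).filter (fun p => p.2 - p.1 ∈ P)).card = ∑ d ∈ P, (sh A d).card := by
  rw [Finset.card_eq_sum_card_fiberwise (f := fun p : Γ × Γ => p.2 - p.1) (t := P)]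
  · apply Finset.sum_congr rfl
    intro d hd
    apply Finset.card_bij' (i := fun p _ => p.1) (j := fun a _ => (a, a + d))
    · intro p hp
      simp only [mem_filter, mem_product] at hp
      simp only [sh, mem_filter]
      refine ⟨hp.1.1.1, ?_⟩
      have : p.1 + d = p.2 := by rw [← hp.2]; abel
      rw [this]; exact hp.1.1.2
    · intro a ha
      simp only [sh, mem_filter] at ha
      simp only [mem_filter, mem_product]
      have : a + d - a = d := by abel
      exact ⟨⟨⟨ha.1, ha.2⟩, by rw [this]; exact hd⟩, this⟩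
    · intro p hp
      simp only [mem_filter, mem_product] at hp
      ext
      · rfl
      · show p.1 + d = p.2
        rw [← hp.2]; abel
    · intro a ha
      rfl
  · intro p hp
    simp only [coe_filter, Set.mem_ofPred_eq] at hp
    exact hp.2

lemma sh_card_le (A : Finset Γ) (d : Γ) : (sh A d).card ≤ A.card := card_filter_le _ _

/-- there is a popular allowed difference outside `E` -/
lemma popular (A P E : Finset Γ) (q : ℝ) (M : ℝ) (hM : (P.card : ℝ) ≤ M) (hM0 : 0 < M)
    (hq : q ≤ (((A ×ˢ A).filter (fun p => p.2 - p.1 ∈ P)).card : ℝ))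
    (hpos : 0 < q - E.card * A.card) :
    ∃ d ∈ P, d ∉ E ∧ (q - E.card * A.card) / M ≤ ((sh A d).card : ℝ) := by
  by_contra hcon
  push Not at hcon
  have h1 : (((A ×ˢ A).filter (fun p => p.2 - p.1 ∈ P)).card : ℝ) =
      ∑ d ∈ P, ((sh A d).card : ℝ) := by
    rw [count_pairs]; push_cast; rfl
  have h2 : ∑ d ∈ P, ((sh A d).card : ℝ) =
      ∑ d ∈ P.filter (fun d => d ∉ E), ((sh A d).card : ℝ) +
      ∑ d ∈ P.filter (fun d => ¬ d ∉ E), ((sh A d).card : ℝ) :=
    (Finset.sum_filter_add_sum_filter_not _ _ _).symm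
  have h3 : ∑ d ∈ P.filter (fun d => ¬ d ∉ E), ((sh A d).card : ℝ) ≤ E.card * A.card := by
    calc ∑ d ∈ P.filter (fun d => ¬ d ∉ E), ((sh A d).card : ℝ)
        ≤ ∑ d ∈ P.filter (fun d => ¬ d ∉ E), (A.card : ℝ) := by
          apply Finset.sum_le_sum
          intro d _
          exact_mod_cast sh_card_le A d
      _ = ((P.filter (fun d => ¬ d ∉ E)).card : ℝ) * A.card := by
          rw [Finset.sum_const, nsmul_eq_mul]
      _ ≤ E.card * A.card := by
          gcongr
          intro d hd
          simp only [mem_filter, not_not] at hd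
          exact hd.2
  have h4 : q - E.card * A.card ≤ ∑ d ∈ P.filter (fun d => d ∉ E), ((sh A d).card : ℝ) := by
    linarith
  have hne : (P.filter (fun d => d ∉ E)).Nonempty := by
    by_contra hemp
    rw [Finset.not_nonempty_iff_eq_empty] at hemp
    rw [hemp, Finset.sum_empty] at h4
    linarith
  have h5 : ∑ d ∈ P.filter (fun d => d ∉ E), ((sh A d).card : ℝ) <
      ∑ d ∈ P.filter (fun d => d ∉ E), ((q - E.card * A.card) / M) := by
    apply Finset.sum_lt_sum_of_nonempty hne
    intro d hd
    rw [mem_filter] at hd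
    exact hcon d hd.1 hd.2
  rw [Finset.sum_const, nsmul_eq_mul] at h5
  have h6 : ((P.filter (fun d => d ∉ E)).card : ℝ) * ((q - E.card * A.card) / M) ≤
      M * ((q - E.card * A.card) / M) := by
    have : ((P.filter (fun d => d ∉ E)).card : ℝ) ≤ M := by
      refine le_trans ?_ hM
      exact_mod_cast card_filter_le _ _
    gcongr
  have h7 : M * ((q - E.card * A.card) / M) = q - E.card * A.card := by
    field_simp
  linarith

/-- Cube lemma with differences in `P`, distinct and outside `E`. -/
theorem cube (B P : Finset Γ) (M : ℝ) (hM0 : 0 < M) (hM : (P.card : ℝ) ≤ M)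
    (hB : (B.card : ℝ) ≤ M)
    (hP : ∀ A ⊆ B, ((A.card : ℝ) * (A.card - 1)) / 2 ≤
      (((A ×ˢ A).filter (fun p => p.2 - p.1 ∈ P)).card : ℝ)) (n : ℕ) (hn : 1 ≤ n) :
    ∀ (j : ℕ) (E A : Finset Γ), E.card + j ≤ n → A ⊆ B →
      (n : ℝ) / M ≤ ((A.card : ℝ) / (4 * M)) ^ (2 ^ j) →
      ∃ D : Finset Γ, D.card = j ∧ D ⊆ P ∧ Disjoint D E ∧
        ∃ y, ∀ I ⊆ D, y + ∑ x ∈ I, x ∈ A := by
  have hn0 : (1 : ℝ) ≤ n := by exact_mod_cast hn
  intro j
  induction j with
  | zero =>
    intro E A _ _ hs
    have hpos : 0 < (A.card : ℝ) / (4 * M) := by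
      have : 0 < (n : ℝ) / M := by positivity
      simpa using lt_of_lt_of_le this hs
    have hne : A.Nonempty := by
      rw [Finset.nonempty_iff_ne_empty]
      rintro rfl
      simp at hpos
    obtain ⟨y, hy⟩ := hne
    refine ⟨∅, rfl, by simp, by simp, y, ?_⟩
    intro I hI
    rw [Finset.subset_empty] at hI
    subst hI
    simpa using hy
  | succ j ih =>
    intro E A hE hA hs
    set s : ℝ := (A.card : ℝ) with hsdef
    have hs0 : 0 ≤ s := Nat.cast_nonneg _
    have hsM : s ≤ M := by
      refine le_trans ?_ hB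
      rw [hsdef]
      exact_mod_cast card_le_card hA
    have hx0 : 0 ≤ s / (4 * M) := by positivity
    have hx1 : s / (4 * M) ≤ 1 := by
      rw [div_le_one (by positivity)]; linarith
    have h4n : 4 * n ≤ s := by
      have h1 : (n : ℝ) / M ≤ s / (4 * M) :=
        hs.trans (pow_le_of_le_one hx0 hx1 (by positivity))
      rw [div_le_div_iff₀ hM0 (by positivity)] at h1
      nlinarith
    have hEc : (E.card : ℝ) ≤ n - 1 := by
      have : E.card + 1 ≤ n := by omega
      have h2 : (E.card : ℝ) + 1 ≤ n := by exact_mod_cast this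
      linarith
    have hlow : s ^ 2 / 4 ≤ s * (s - 1) / 2 - E.card * s := by
      nlinarith [mul_nonneg hs0 (sub_nonneg.2 hEc)]
    have hspos : 0 < s := by linarith
    have hpos : 0 < s * (s - 1) / 2 - E.card * s := by
      have : 0 < s ^ 2 / 4 := by positivity
      linarith
    obtain ⟨d, hdP, hdE, hd⟩ := popular A P E _ M hM hM0 (hP A hA) hpos
    have hnext : s ^ 2 / (4 * M) ≤ ((sh A d).card : ℝ) := by
      refine le_trans ?_ hd
      rw [div_le_div_iff₀ (by positivity) hM0]
      nlinarith
    have hcond : (n : ℝ) / M ≤ (((sh A d).card : ℝ) / (4 * M)) ^ (2 ^ j) := by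
      have h1 : (s / (4 * M)) ^ 2 ≤ ((sh A d).card : ℝ) / (4 * M) := by
        have : (s / (4 * M)) ^ 2 = (s ^ 2 / (4 * M)) / (4 * M) := by
          field_simp
        rw [this]
        gcongr
      calc (n : ℝ) / M ≤ (s / (4 * M)) ^ (2 ^ (j + 1)) := hs
        _ = ((s / (4 * M)) ^ 2) ^ (2 ^ j) := by rw [← pow_mul]; congr 1; ring
        _ ≤ _ := by gcongr
    have hsub : sh A d ⊆ B := (filter_subset _ _).trans hA
    obtain ⟨D, hDc, hDP, hDE, y, hy⟩ := ih (insert d E) (sh A d) (by
      have := card_insert_le d E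
      omega) hsub hcond
    have hdD : d ∉ D := by
      intro h
      exact (Finset.disjoint_left.1 hDE h) (mem_insert_self _ _)
    refine ⟨insert d D, by rw [card_insert_of_notMem hdD, hDc], ?_, ?_, y, ?_⟩
    · intro x hx
      rcases mem_insert.1 hx with rfl | hx
      · exact hdP
      · exact hDP hx
    · rw [Finset.disjoint_left]
      intro x hx hxE
      rcases mem_insert.1 hx with rfl | hx
      · exact hdE hxE
      · exact (Finset.disjoint_left.1 hDE hx) (mem_insert_of_mem hxE)
    · intro I hI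
      by_cases hdI : d ∈ I
      · have h1 : I.erase d ⊆ D := by
          intro x hx
          rw [mem_erase] at hx
          rcases mem_insert.1 (hI hx.2) with h | h
          · exact absurd h hx.1
          · exact h
        have h2 := hy _ h1
        simp only [sh, mem_filter] at h2
        have h3 : y + ∑ x ∈ I, x = y + ∑ x ∈ I.erase d, x + d := by
          rw [← Finset.sum_erase_add I _ hdI]
          abel
        rw [h3]; exact h2.2
      · have h1 : I ⊆ D := by
          intro x hx
          rcases mem_insert.1 (hI hx) with h | h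
          · exact absurd (h ▸ hx) hdI
          · exact h
        have h2 := hy _ h1
        simp only [sh, mem_filter] at h2
        exact h2.1

omit [AddCommGroup Γ] [DecidableEq Γ] in
/-- pigeonhole: a colour class of proportion `1/k` -/
lemma big_class (k : ℕ) (B : Finset Γ) (hBne : B.Nonempty) (f : Γ → Fin k) :
    ∃ i, (B.card : ℝ) / k ≤ ((B.filter (fun a => f a = i)).card : ℝ) := by
  have hk : 0 < k := by
    obtain ⟨b, _⟩ := hBne
    exact lt_of_le_of_lt (Nat.zero_le _) (f b).2
  by_contra hcon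
  push Not at hcon
  have h1 : (B.card : ℝ) = ∑ i : Fin k, ((B.filter (fun a => f a = i)).card : ℝ) := by
    have := Finset.card_eq_sum_card_fiberwise (f := f) (s := B) (t := Finset.univ)
      (fun _ _ => by simp)
    rw [this]; push_cast; rfl
  have h2 : ∑ i : Fin k, ((B.filter (fun a => f a = i)).card : ℝ) <
      ∑ i : Fin k, (B.card : ℝ) / k := by
    have : Nonempty (Fin k) := ⟨⟨0, hk⟩⟩
    apply Finset.sum_lt_sum_of_nonempty Finset.univ_nonempty
    intro i _
    exact hcon i
  rw [Finset.sum_const, nsmul_eq_mul, Finset.card_univ, Fintype.card_fin] at h2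
  have h3 : (k : ℝ) * (B.card / k) = B.card := by
    have : (k : ℝ) ≠ 0 := by positivity
    field_simp
  linarith

/-- Monochromatic cube with distinct differences. -/
theorem mono_cube (B P : Finset Γ) (M : ℕ) (hBM : B.card = M) (hM : P.card ≤ M)
    (hP : ∀ A ⊆ B, ((A.card : ℝ) * (A.card - 1)) / 2 ≤
      (((A ×ˢ A).filter (fun p => p.2 - p.1 ∈ P)).card : ℝ)) (n k : ℕ) (hn : 1 ≤ n)
    (hNM : n * (4 * k) ^ (2 ^ n) ≤ M) (hk : 1 ≤ k) (f : Γ → Fin k) :
    ∃ (i : Fin k) (D : Finset Γ), D.card = n ∧ D ⊆ P ∧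
        ∃ y, ∀ I ⊆ D, y + ∑ x ∈ I, x ∈ B ∧ f (y + ∑ x ∈ I, x) = i := by
  have hM0 : 0 < M := by
    refine lt_of_lt_of_le ?_ hNM
    positivity
  have hBne : B.Nonempty := by
    rw [← Finset.card_pos, hBM]; exact hM0
  obtain ⟨i, hi⟩ := big_class k B hBne f
  have hM0' : (0 : ℝ) < M := by exact_mod_cast hM0
  have hk0 : (0 : ℝ) < k := by exact_mod_cast hk
  obtain ⟨D, hDc, hDP, -, y, hy⟩ := cube B P M hM0' (by exact_mod_cast hM)
    (by rw [hBM]) hP n hn n ∅ (B.filter (fun a => f a = i)) (by simp) (filter_subset _ _) (by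
      have h1 : (1 : ℝ) / (4 * k) ≤ ((B.filter (fun a => f a = i)).card : ℝ) / (4 * M) := by
        rw [hBM] at hi
        rw [div_le_div_iff₀ (by positivity) (by positivity)]
        rw [div_le_iff₀ hk0] at hi
        nlinarith
      calc (n : ℝ) / M ≤ (1 / (4 * k)) ^ (2 ^ n) := by
            rw [div_pow, one_pow, div_le_div_iff₀ hM0' (by positivity)]
            rw [one_mul]
            exact_mod_cast hNM
        _ ≤ _ := by gcongr)
  refine ⟨i, D, hDc, hDP, y, fun I hI => ?_⟩
  have := hy I hI
  rw [mem_filter] at this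
  exact this

end Pool.Agent.TH872.AddCube
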