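import Pool.Agent.TH872.AddTwo

/-! Additive colourings: integers, alternating sums, finite abelian groups. -/

set_option autoImplicit false

open Finset

namespace Pool.Agent.TH872.AddCube

/-- pairs `a < a'` in a finite set of integers below `M` -/
lemma pairs_int (M : ℕ) (A : Finset ℤ) (hA : A ⊆ Ico (0 : ℤ) M) :
    ((A.card : ℝ) * (A.card - 1)) / 2 ≤
      (((A ×ˢ A).filter (fun p => p.2 - p.1 ∈ Ico (1 : ℤ) M)).card : ℝ) := by
  set F := (A ×ˢ A).filter (fun p => p.2 - p.1 ∈ Ico (1 : ℤ) M) with hF
  have h1 : A.offDiag ⊆ F ∪ F.image Prod.swap := by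
    rintro ⟨a, b⟩ hab
    rw [mem_offDiag] at hab
    obtain ⟨ha, hb, hne⟩ := hab
    simp only at ha hb hne
    have ha' := mem_Ico.1 (hA ha)
    have hb' := mem_Ico.1 (hA hb)
    rw [mem_union, mem_image]
    rcases lt_or_gt_of_ne hne with h | h
    · left
      rw [hF, mem_filter, mem_product, mem_Ico]
      exact ⟨⟨ha, hb⟩, by show 1 ≤ b - a; omega, by show b - a < M; omega⟩
    · right
      refine ⟨(b, a), ?_, rfl⟩
      rw [hF, mem_filter, mem_product, mem_Ico]
      exact ⟨⟨hb, ha⟩, by show 1 ≤ a - b; omega, by show a - b < M; omega⟩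
  have h2 : A.offDiag.card ≤ 2 * F.card := by
    calc A.offDiag.card ≤ (F ∪ F.image Prod.swap).card := card_le_card h1
      _ ≤ F.card + (F.image Prod.swap).card := card_union_le _ _
      _ ≤ F.card + F.card := Nat.add_le_add_left card_image_le _
      _ = 2 * F.card := by ring
  rw [offDiag_card] at h2
  have h3 : (A.card : ℝ) * A.card - A.card ≤ 2 * F.card := by
    have h4 : A.card ≤ A.card * A.card := Nat.le_mul_self _
    have : ((A.card * A.card - A.card : ℕ) : ℝ) ≤ ((2 * F.card : ℕ) : ℝ) := by exact_mod_cast h2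
    rw [Nat.cast_sub h4] at this
    push_cast at this
    exact this
  linarith

lemma cube_int (n k M : ℕ) (hn : 1 ≤ n) (hk : 1 ≤ k) (hNM : n * (4 * k) ^ (2 ^ n) ≤ M)
    (f : ℤ → Fin k) :
    ∃ (i : Fin k) (D : Finset ℤ) (y : ℤ), D.card = n ∧ (∀ d ∈ D, 1 ≤ d) ∧
        ∀ I ⊆ D, (0 ≤ y + ∑ x ∈ I, x ∧ y + ∑ x ∈ I, x < M) ∧ f (y + ∑ x ∈ I, x) = i := by
  obtain ⟨i, D, h1, h2, y, h3⟩ := mono_cube (Ico (0 : ℤ) M) (Ico (1 : ℤ) M) M (by simp)
    (by simp) (pairs_int M) n k hn hNM hk f
  refine ⟨i, D, y, h1, fun d hd => (mem_Ico.1 (h2 hd)).1, fun I hI => ?_⟩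
  obtain ⟨h4, h5⟩ := h3 I hI
  exact ⟨mem_Ico.1 h4, h5⟩

/-- subsets of an injective image -/
lemma subset_image {α β : Type*} [DecidableEq β] (g : α → β) (hg : Function.Injective g)
    (D : Finset α) (S : Finset β) (hS : S ⊆ D.image g) :
    ∃ I ⊆ D, S = I.image g ∧ S.card = I.card := by
  classical
  refine ⟨D.filter (fun a => g a ∈ S), filter_subset _ _, ?_, ?_⟩
  · ext b
    rw [mem_image]
    constructor
    · intro hb
      obtain ⟨a, ha, rfl⟩ := mem_image.1 (hS hb)
      exact ⟨a, mem_filter.2 ⟨ha, hb⟩, rfl⟩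
    · rintro ⟨a, ha, rfl⟩
      exact (mem_filter.1 ha).2
  · have : S = (D.filter (fun a => g a ∈ S)).image g := by
      ext b
      rw [mem_image]
      constructor
      · intro hb
        obtain ⟨a, ha, rfl⟩ := mem_image.1 (hS hb)
        exact ⟨a, mem_filter.2 ⟨ha, hb⟩, rfl⟩
      · rintro ⟨a, ha, rfl⟩
        exact (mem_filter.1 ha).2
    conv_lhs => rw [this]
    exact card_image_of_injective _ hg

/-- **Sum colourings of the integers below `N`.** -/
theorem int_main (r n k N : ℕ) (hr : 1 ≤ r) (hn : 1 ≤ n) (hk : 1 ≤ k)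
    (hN : r * (n * (4 * k) ^ (2 ^ n)) ≤ N) (f : ℤ → Fin k) :
    ∃ X ⊆ Ico (0 : ℤ) N, X.card = n ∧ ∃ i, ∀ S ⊆ X, S.card = r → f (∑ x ∈ S, x) = i := by
  obtain ⟨i, D, y, hD, hpos, hy⟩ := cube_int n k _ hn hk le_rfl (fun t => f (r * t))
  set M := n * (4 * k) ^ (2 ^ n) with hM
  have hr0 : (1 : ℤ) ≤ r := by exact_mod_cast hr
  have hinj : Function.Injective (fun d : ℤ => y + r * d) := by
    intro a b hab
    have h1 : (r : ℤ) * a = r * b := by simpa using hab
    have h2 : (r : ℤ) ≠ 0 := by omega
    exact mul_left_cancel₀ h2 h1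
  refine ⟨D.image (fun d => y + r * d), ?_, ?_, i, ?_⟩
  · intro x hx
    obtain ⟨d, hd, rfl⟩ := mem_image.1 hx
    have h1 := (hy ∅ (by simp)).1
    have h2 := (hy {d} (by simpa using hd)).1
    rw [sum_empty] at h1
    rw [sum_singleton] at h2
    have h3 := hpos d hd
    rw [mem_Ico]
    have h4 : (r : ℤ) * M ≤ N := by exact_mod_cast hN
    have h5 : (r : ℤ) * (y + d) ≤ r * (M - 1) := by
      apply mul_le_mul_of_nonneg_left _ (by omega)
      omega
    constructor
    · nlinarith
    · nlinarith
  · rw [card_image_of_injective _ hinj, hD]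
  · intro S hS hSr
    obtain ⟨I, hI, hSI, hc⟩ := subset_image _ hinj D S hS
    have h1 := (hy I hI).2
    have h2 : ∑ x ∈ S, x = r * (y + ∑ x ∈ I, x) := by
      rw [hSI, sum_image (fun a _ b _ h => hinj h), sum_add_distrib, sum_const, ← mul_sum,
        ← hc, hSr, nsmul_eq_mul]
      ring
    rw [h2]
    exact h1

/-- **Sum colourings of finite abelian groups.** -/
theorem group_main {G : Type*} [AddCommGroup G] [Fintype G] (r n k : ℕ)
    (hr : Nat.Coprime r (Fintype.card G)) (hn : 1 ≤ n) (hk : 1 ≤ k)
    (hN : n * (4 * k) ^ (2 ^ n) ≤ Fintype.card G) (f : G → Fin k) :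
    ∃ X : Finset G, X.card = n ∧ ∃ i, ∀ S ⊆ X, S.card = r → f (∑ x ∈ S, x) = i := by
  classical
  obtain ⟨i, D, hD, -, y, hy⟩ := mono_cube (univ : Finset G) (univ.erase 0) (Fintype.card G)
    (by simp) (by simp) (by
      intro A _
      have h1 : (A ×ˢ A).filter (fun p => p.2 - p.1 ∈ (univ.erase (0 : G))) = A.offDiag := by
        ext ⟨a, b⟩
        simp only [mem_filter, mem_product, mem_erase, mem_univ, and_true, mem_offDiag, sub_ne_zero]
        constructor
        · rintro ⟨⟨h1, h2⟩, h3⟩
          exact ⟨h1, h2, fun h => h3 h.symm⟩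
        · rintro ⟨h1, h2, h3⟩
          exact ⟨⟨h1, h2⟩, fun h => h3 h.symm⟩
      rw [h1, offDiag_card]
      have h4 : A.card ≤ A.card * A.card := Nat.le_mul_self _
      rw [Nat.cast_sub h4]
      push_cast
      have h5 : (0 : ℝ) ≤ (A.card : ℝ) * (A.card - 1) := by
        have : ((A.card : ℕ) : ℝ) ≤ ((A.card * A.card : ℕ) : ℝ) := by exact_mod_cast h4
        push_cast at this
        nlinarith
      nlinarith) n k hn hN hk f
  have hsurj : ∃ y' : G, r • y' = y := by
    have hcop : Nat.Coprime (Nat.card G) r := by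
      rw [Nat.card_eq_fintype_card]; exact hr.symm
    exact ⟨(nsmulCoprime hcop).symm y, (nsmulCoprime hcop).apply_symm_apply y⟩
  obtain ⟨y', hy'⟩ := hsurj
  have hinj : Function.Injective (fun d : G => y' + d) := add_right_injective y'
  refine ⟨D.image (fun d => y' + d), ?_, i, ?_⟩
  · rw [card_image_of_injective _ hinj, hD]
  · intro S hS hSr
    obtain ⟨I, hI, hSI, hc⟩ := subset_image _ hinj D S hS
    have h1 := (hy I hI).2
    have h2 : ∑ x ∈ S, x = y + ∑ x ∈ I, x := by
      rw [hSI, sum_image (fun a _ b _ h => hinj h), sum_add_distrib, sum_const,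
        ← hc, hSr, hy']
    rw [h2]
    exact h1

/-- **Alternating sums of an odd number of terms.** -/
theorem alt_main (n k N : ℕ) (hn : 1 ≤ n) (hk : 1 ≤ k)
    (hN : n * (4 * k) ^ (2 ^ n) ≤ N) (f : ℤ → Fin k) :
    ∃ X ⊆ Ico (0 : ℤ) N, X.card = n ∧ ∃ i, ∀ (m : ℕ) (z : Fin (2 * m + 1) → ℤ), StrictMono z →
      (∀ j, z j ∈ X) → f (∑ j : Fin (2 * m + 1), (-1) ^ (j : ℕ) * z j) = i := by
  obtain ⟨i, D, y, hD, hpos, hy⟩ := cube_int n k N hn hk hN f
  let e : Fin n ≃ D := (D.equivFinOfCardEq hD).symm
  let d : Fin n → ℤ := fun l => (e l : ℤ)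
  have hdinj : Function.Injective d := fun a b h => e.injective (Subtype.ext h)
  have hdD : ∀ l, d l ∈ D := fun l => (e l).2
  have hd1 : ∀ l, 1 ≤ d l := fun l => hpos _ (hdD l)
  have hyJ : ∀ J : Finset (Fin n), (0 ≤ y + ∑ l ∈ J, d l ∧ y + ∑ l ∈ J, d l < N) ∧
      f (y + ∑ l ∈ J, d l) = i := by
    intro J
    have h1 := hy (J.image d) (by
      intro x hx
      obtain ⟨l, _, rfl⟩ := mem_image.1 hx
      exact hdD l)
    rw [sum_image (fun a _ b _ h => hdinj h)] at h1
    exact h1
  let x : Fin n → ℤ := fun i => y + ∑ l ∈ univ.filter (· ≤ i), d l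
  have hxmono : StrictMono x := by
    intro a b hab
    have h1 : (univ.filter (· ≤ a) : Finset (Fin n)) ⊂ univ.filter (· ≤ b) := by
      rw [Finset.ssubset_iff_of_subset]
      · refine ⟨b, by simp, by simpa using hab⟩
      · intro l hl
        simp only [mem_filter, mem_univ, true_and] at hl ⊢
        exact hl.trans hab.le
    have h2 : ∑ l ∈ univ.filter (· ≤ a), d l < ∑ l ∈ univ.filter (· ≤ b), d l := by
      obtain ⟨l, hl, hl'⟩ := Finset.exists_of_ssubset h1
      exact Finset.sum_lt_sum_of_subset h1.1 hl hl' (by have := hd1 l; omega)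
        (fun j _ _ => by have := hd1 j; omega)
    show y + _ < y + _
    linarith
  refine ⟨univ.image x, ?_, ?_, i, ?_⟩
  · intro t ht
    obtain ⟨a, _, rfl⟩ := mem_image.1 ht
    rw [mem_Ico]
    exact (hyJ _).1
  · rw [card_image_of_injective _ hxmono.injective, card_univ, Fintype.card_fin]
  · intro m z hz hzX
    have h1 : ∀ j, ∃ a, x a = z j := by
      intro j
      obtain ⟨a, _, ha⟩ := mem_image.1 (hzX j)
      exact ⟨a, ha⟩
    choose ι hι using h1
    have hιmono : StrictMono ι := by
      intro a b hab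
      have := hz hab
      rw [← hι a, ← hι b] at this
      exact hxmono.lt_iff_lt.1 this
    have key : ∀ l : Fin n, ∑ j : Fin (2 * m + 1),
        (if l ≤ ι j then ((-1 : ℤ)) ^ (j : ℕ) else 0) = 
        if Even (univ.filter (fun j => ι j < l)).card then 1 else 0 := by
      intro l
      set c := (univ.filter (fun j => ι j < l)).card with hc
      have hiff : ∀ j : Fin (2 * m + 1), l ≤ ι j ↔ c ≤ (j : ℕ) := by
        intro j
        constructor
        · intro h
          have h2 : univ.filter (fun j => ι j < l) ⊆ univ.filter (· < j) := by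
            intro j' hj'
            simp only [mem_filter, mem_univ, true_and] at hj' ⊢
            exact hιmono.lt_iff_lt.1 (lt_of_lt_of_le hj' h)
          have h3 := card_le_card h2
          have h4 : (univ.filter (· < j) : Finset (Fin (2 * m + 1))).card = j := by
            have : (univ.filter (· < j) : Finset (Fin (2 * m + 1))) = Finset.Iio j := by
              ext; simp
            rw [this, Fin.card_Iio]
          omega
        · intro h
          by_contra hlt
          push Not at hlt
          have h2 : univ.filter (· ≤ j) ⊆ univ.filter (fun j => ι j < l) := by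
            intro j' hj'
            simp only [mem_filter, mem_univ, true_and] at hj' ⊢
            exact lt_of_le_of_lt (hιmono.monotone hj') hlt
          have h3 := card_le_card h2
          have h4 : (univ.filter (· ≤ j) : Finset (Fin (2 * m + 1))).card = j + 1 := by
            have : (univ.filter (· ≤ j) : Finset (Fin (2 * m + 1))) = Finset.Iic j := by
              ext; simp
            rw [this, Fin.card_Iic]
          omega
      have hcle : c ≤ 2 * m + 1 := by
        have := card_le_univ (univ.filter (fun j => ι j < l))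
        simpa using this
      calc ∑ j : Fin (2 * m + 1), (if l ≤ ι j then ((-1 : ℤ)) ^ (j : ℕ) else 0)
          = ∑ j : Fin (2 * m + 1), (if c ≤ (j : ℕ) then ((-1 : ℤ)) ^ (j : ℕ) else 0) := by
            apply Finset.sum_congr rfl
            intro j _
            simp only [hiff j]
        _ = ∑ j ∈ range (2 * m + 1), (if c ≤ j then ((-1 : ℤ)) ^ j else 0) :=
            Fin.sum_univ_eq_sum_range (fun j => if c ≤ j then ((-1 : ℤ)) ^ j else 0) _
        _ = ∑ j ∈ range (2 * m + 1), ((-1 : ℤ)) ^ j - ∑ j ∈ range c, ((-1 : ℤ)) ^ j := by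
            rw [← Finset.sum_range_add_sum_Ico _ hcle, ← Finset.sum_range_add_sum_Ico _ hcle]
            have h5 : ∑ j ∈ range c, (if c ≤ j then ((-1 : ℤ)) ^ j else 0) = 0 := by
              apply Finset.sum_eq_zero
              intro j hj
              rw [mem_range] at hj
              rw [if_neg (by omega)]
            have h6 : ∑ j ∈ Ico c (2 * m + 1), (if c ≤ j then ((-1 : ℤ)) ^ j else 0) =
                ∑ j ∈ Ico c (2 * m + 1), ((-1 : ℤ)) ^ j := by
              apply Finset.sum_congr rfl
              intro j hj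
              rw [mem_Ico] at hj
              rw [if_pos hj.1]
            rw [h5, h6]; ring
        _ = if Even c then 1 else 0 := by
            rw [neg_one_geom_sum, neg_one_geom_sum]
            have : ¬ Even (2 * m + 1) := by
              rw [Nat.not_even_iff_odd]; exact ⟨m, rfl⟩
            rw [if_neg this]
            split_ifs <;> ring
    have hsum : ∑ j : Fin (2 * m + 1), (-1) ^ (j : ℕ) * z j =
        y + ∑ l ∈ univ.filter (fun l => Even (univ.filter (fun j => ι j < l)).card), d l := by
      calc ∑ j : Fin (2 * m + 1), (-1) ^ (j : ℕ) * z j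
          = ∑ j : Fin (2 * m + 1), ((-1) ^ (j : ℕ) * y +
              ∑ l : Fin n, (if l ≤ ι j then ((-1 : ℤ)) ^ (j : ℕ) else 0) * d l) := by
            apply Finset.sum_congr rfl
            intro j _
            rw [← hι j]
            show (-1) ^ (j : ℕ) * (y + ∑ l ∈ univ.filter (· ≤ ι j), d l) = _
            rw [mul_add, mul_sum, sum_filter]
            congr 1
            apply Finset.sum_congr rfl
            intro l _
            split_ifs <;> ring
        _ = y * ∑ j : Fin (2 * m + 1), ((-1 : ℤ)) ^ (j : ℕ) +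
              ∑ l : Fin n, (∑ j : Fin (2 * m + 1),
                (if l ≤ ι j then ((-1 : ℤ)) ^ (j : ℕ) else 0)) * d l := by
            rw [sum_add_distrib, mul_sum, sum_comm]
            congr 1
            · apply Finset.sum_congr rfl
              intro j _; ring
            · apply Finset.sum_congr rfl
              intro l _
              rw [sum_mul]
        _ = _ := by
            rw [Fin.sum_univ_eq_sum_range (fun j => ((-1 : ℤ)) ^ j), neg_one_geom_sum]
            have : ¬ Even (2 * m + 1) := by
              rw [Nat.not_even_iff_odd]; exact ⟨m, rfl⟩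
            rw [if_neg this, mul_one]
            congr 1
            rw [sum_filter]
            apply Finset.sum_congr rfl
            intro l _
            rw [key l]
            split_ifs <;> ring
    rw [hsum]
    exact (hyJ _).2

end Pool.Agent.TH872.AddCube
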