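import Pool.Agent.TH872.AddCube

/-! Affine subspaces of elementary abelian 2-groups in colour classes. -/

set_option autoImplicit false

open Finset

namespace Pool.Agent.TH872.AddCube

variable {Γ : Type*} [AddCommGroup Γ] [DecidableEq Γ]

/-- `H` is closed under addition and contains `0` -/
structure Sub (H : Finset Γ) : Prop where
  zero : (0 : Γ) ∈ H
  add : ∀ a ∈ H, ∀ b ∈ H, a + b ∈ H

lemma sub_step (h2 : ∀ x : Γ, x + x = 0) (H : Finset Γ) (hH : Sub H) (d : Γ) (hd : d ∉ H) :
    Sub (H ∪ H.image (· + d)) ∧ (H ∪ H.image (· + d)).card = 2 * H.card := by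
  constructor
  · constructor
    · exact mem_union_left _ hH.zero
    · intro a ha b hb
      rw [mem_union, mem_image] at ha hb
      rcases ha with ha | ⟨a', ha', rfl⟩ <;> rcases hb with hb | ⟨b', hb', rfl⟩
      · exact mem_union_left _ (hH.add a ha b hb)
      · exact mem_union_right _ (mem_image.2 ⟨a + b', hH.add a ha b' hb', by abel⟩)
      · exact mem_union_right _ (mem_image.2 ⟨a' + b, hH.add a' ha' b hb, by abel⟩)
      · refine mem_union_left _ ?_
        have : a' + d + (b' + d) = a' + b' + (d + d) := by abel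
        rw [this, h2, add_zero]
        exact hH.add a' ha' b' hb'
  · rw [card_union_of_disjoint, card_image_of_injective _ (add_left_injective d)]
    · ring
    · rw [Finset.disjoint_left]
      rintro a ha ha2
      rw [mem_image] at ha2
      obtain ⟨b, hb, rfl⟩ := ha2
      apply hd
      have : b + (b + d) = d := by
        rw [← add_assoc, h2, zero_add]
      rw [← this]
      exact hH.add b hb _ ha

/-- the induction: `A` is invariant under `H`, `|H| = 2 ^ i`. -/
theorem affine [Fintype Γ] (h2 : ∀ x : Γ, x + x = 0) (m : ℕ) :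
    ∀ (j i : ℕ) (H A : Finset Γ), i + j = m → Sub H → H.card = 2 ^ i →
      (∀ h ∈ H, ∀ a ∈ A, a + h ∈ A) →
      (2 : ℝ) ^ m / Fintype.card Γ ≤ ((A.card : ℝ) / (2 * Fintype.card Γ)) ^ (2 ^ j) →
      ∃ H' : Finset Γ, Sub H' ∧ H'.card = 2 ^ m ∧ ∃ y, ∀ h ∈ H', y + h ∈ A := by
  set V : ℝ := (Fintype.card Γ : ℝ) with hV
  have hV0 : 0 < V := by
    rw [hV]
    exact_mod_cast Fintype.card_pos_iff.2 ⟨0⟩
  intro j
  induction j with
  | zero =>
    intro i H A hi hH hc hinv hs
    have him : i = m := by omega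
    subst him
    have hpos : 0 < (A.card : ℝ) / (2 * V) := by
      have : 0 < (2 : ℝ) ^ i / V := by positivity
      simpa using lt_of_lt_of_le this hs
    have hne : A.Nonempty := by
      rw [Finset.nonempty_iff_ne_empty]
      rintro rfl
      simp at hpos
    obtain ⟨y, hy⟩ := hne
    exact ⟨H, hH, hc, y, fun h hh => hinv h hh y hy⟩
  | succ j ih =>
    intro i H A hi hH hc hinv hs
    set s : ℝ := (A.card : ℝ) with hsdef
    have hs0 : 0 ≤ s := Nat.cast_nonneg _
    have hsM : s ≤ V := by
      rw [hsdef, hV]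
      exact_mod_cast card_le_univ A
    have hx0 : 0 ≤ s / (2 * V) := by positivity
    have hx1 : s / (2 * V) ≤ 1 := by
      rw [div_le_one (by positivity)]; linarith
    have hbig : 2 * 2 ^ m ≤ s := by
      have h1 : (2 : ℝ) ^ m / V ≤ s / (2 * V) :=
        hs.trans (pow_le_of_le_one hx0 hx1 (by positivity))
      rw [div_le_div_iff₀ hV0 (by positivity)] at h1
      nlinarith
    have hHc : (H.card : ℝ) ≤ 2 ^ m / 2 := by
      rw [hc]
      have h3 : (2 : ℝ) ^ m = 2 ^ i * 2 ^ (j + 1) := by rw [← pow_add, hi]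
      have h4 : (1 : ℝ) ≤ 2 ^ j := one_le_pow₀ (by norm_num)
      rw [h3, pow_succ]
      push_cast
      nlinarith [pow_pos (show (0 : ℝ) < 2 by norm_num) i]
    have hlow : s ^ 2 / 2 ≤ s * s - H.card * s := by
      nlinarith [mul_nonneg hs0 (sub_nonneg.2 hHc), Nat.cast_nonneg (α := ℝ) H.card]
    have hspos : 0 < s := by
      have : (0 : ℝ) < 2 ^ m := by positivity
      linarith
    have hpos : 0 < s * s - H.card * s := by
      have : 0 < s ^ 2 / 2 := by positivity
      linarith
    obtain ⟨d, hdP, hdH, hd⟩ := popular A univ H (s * s) V (by rw [hV]; simp) hV0 (by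
      rw [Finset.filter_true_of_mem (by intro p _; exact mem_univ _), card_product]
      push_cast; exact le_rfl) hpos
    obtain ⟨hH', hcH'⟩ := sub_step h2 H hH d hdH
    have hnext : s ^ 2 / (2 * V) ≤ ((sh A d).card : ℝ) := by
      refine le_trans ?_ hd
      rw [div_le_div_iff₀ (by positivity) hV0]
      nlinarith
    have hcond : (2 : ℝ) ^ m / V ≤ (((sh A d).card : ℝ) / (2 * V)) ^ (2 ^ j) := by
      have h1 : (s / (2 * V)) ^ 2 ≤ ((sh A d).card : ℝ) / (2 * V) := by
        have : (s / (2 * V)) ^ 2 = (s ^ 2 / (2 * V)) / (2 * V) := by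
          field_simp
        rw [this]
        gcongr
      calc (2 : ℝ) ^ m / V ≤ (s / (2 * V)) ^ (2 ^ (j + 1)) := hs
        _ = ((s / (2 * V)) ^ 2) ^ (2 ^ j) := by rw [← pow_mul]; congr 1; ring
        _ ≤ _ := by gcongr
    obtain ⟨H'', h1, h2', y, hy⟩ := ih (i + 1) (H ∪ H.image (· + d)) (sh A d) (by omega) hH' (by
      rw [hcH', hc]; ring) (by
      intro h hh a ha
      simp only [sh, mem_filter] at ha ⊢
      rw [mem_union, mem_image] at hh
      rcases hh with hh | ⟨h', hh', rfl⟩
      · refine ⟨hinv h hh a ha.1, ?_⟩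
        have : a + h + d = a + d + h := by abel
        rw [this]
        exact hinv h hh _ ha.2
      · constructor
        · have : a + (h' + d) = a + d + h' := by abel
          rw [this]
          exact hinv h' hh' _ ha.2
        · have : a + (h' + d) + d = a + h' + (d + d) := by abel
          rw [this, h2, add_zero]
          exact hinv h' hh' _ ha.1) hcond
    refine ⟨H'', h1, h2', y, fun h hh => ?_⟩
    have := hy h hh
    simp only [sh, mem_filter] at this
    exact this.1

/-- sums of an odd number of elements of an affine subspace stay in it -/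
lemma odd_sum (h2 : ∀ x : Γ, x + x = 0) (H : Finset Γ) (hH : Sub H) (y : Γ) :
    ∀ S : Finset Γ, (∀ x ∈ S, ∃ h ∈ H, x = y + h) →
      (Odd S.card → ∃ h ∈ H, ∑ x ∈ S, x = y + h) ∧ (Even S.card → ∑ x ∈ S, x ∈ H) := by
  intro S
  induction S using Finset.induction_on with
  | empty =>
    intro _
    refine ⟨fun h => by simp at h, fun _ => ?_⟩
    simpa using hH.zero
  | insert a S ha ih =>
    intro hS
    obtain ⟨h, hh, rfl⟩ := hS a (mem_insert_self _ _)
    have ih' := ih (fun x hx => hS x (mem_insert_of_mem hx))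
    rw [card_insert_of_notMem ha, sum_insert ha]
    constructor
    · intro hodd
      have he : Even S.card := by
        rcases Nat.even_or_odd S.card with h | h
        · exact h
        · exact absurd hodd (by simpa using h.add_one)
      have := ih'.2 he
      exact ⟨h + ∑ x ∈ S, x, hH.add h hh _ this, by abel⟩
    · intro heven
      have ho : Odd S.card := by
        rcases Nat.even_or_odd S.card with h | h
        · exact absurd heven (by simpa using h.add_one)
        · exact h
      obtain ⟨h', hh', hs⟩ := ih'.1 ho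
      rw [hs]
      have : y + h + (y + h') = h + h' + (y + y) := by abel
      rw [this, h2, add_zero]
      exact hH.add h hh h' hh'

/-- **Elementary abelian 2-groups**: homogeneous for all odd sizes at once. -/
theorem two_main [Fintype Γ] (h2 : ∀ x : Γ, x + x = 0) (n k : ℕ) (hn : 1 ≤ n) (hk : 1 ≤ k)
    (hc : 2 * n * (2 * k) ^ (2 * n) ≤ Fintype.card Γ) (f : Γ → Fin k) :
    ∃ (X : Finset Γ) (i : Fin k), X.card = n ∧ ∀ S ⊆ X, Odd S.card → f (∑ x ∈ S, x) = i := by
  obtain ⟨m, hm1, hm2⟩ : ∃ m, n ≤ 2 ^ m ∧ 2 ^ m ≤ 2 * n := by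
    refine ⟨Nat.clog 2 n, Nat.le_pow_clog (by norm_num) n, ?_⟩
    rcases Nat.lt_or_ge 1 n with h | h
    · have := Nat.pow_pred_clog_lt_self (b := 2) (by norm_num) h
      have h3 : 0 < Nat.clog 2 n := Nat.clog_pos (by norm_num) h
      have h4 : 2 ^ Nat.clog 2 n = 2 * 2 ^ (Nat.clog 2 n).pred := by
        conv_lhs => rw [← Nat.succ_pred_eq_of_pos h3]
        rw [pow_succ]; ring
      rw [h4]; omega
    · have : n = 1 := by omega
      subst this
      simp
  have hV0 : 0 < Fintype.card Γ := Fintype.card_pos_iff.2 ⟨0⟩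
  have hV0' : (0 : ℝ) < Fintype.card Γ := by exact_mod_cast hV0
  have hk0 : (0 : ℝ) < k := by exact_mod_cast hk
  have hk1 : (1 : ℝ) ≤ k := by exact_mod_cast hk
  obtain ⟨i, hi⟩ := big_class k (univ : Finset Γ) ⟨0, mem_univ _⟩ f
  obtain ⟨H, hH, hHc, y, hy⟩ := affine h2 m m 0 {0} (univ.filter (fun a => f a = i)) (by omega)
    ⟨by simp, by simp⟩ (by simp) (by
      intro h hh a ha
      rw [mem_singleton] at hh
      subst hh
      simpa using ha) (by
      have h1 : (1 : ℝ) / (2 * k) ≤
          ((univ.filter (fun a => f a = i)).card : ℝ) / (2 * Fintype.card Γ) := by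
        rw [card_univ] at hi
        rw [div_le_div_iff₀ (by positivity) (by positivity)]
        rw [div_le_iff₀ hk0] at hi
        nlinarith
      have h5 : ((2 : ℝ) ^ m) * (2 * k) ^ (2 ^ m) ≤ Fintype.card Γ := by
        have h6 : (2 ^ m) * (2 * k) ^ (2 ^ m) ≤ Fintype.card Γ := by
          refine le_trans ?_ hc
          exact Nat.mul_le_mul hm2 (Nat.pow_le_pow_right (by omega) hm2)
        exact_mod_cast h6
      calc (2 : ℝ) ^ m / Fintype.card Γ ≤ (1 / (2 * k)) ^ (2 ^ m) := by
            rw [div_pow, one_pow, div_le_div_iff₀ hV0' (by positivity)]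
            rw [one_mul]
            exact h5
        _ ≤ _ := by gcongr)
  obtain ⟨X, hXs, hXc⟩ := Finset.exists_subset_card_eq
    (s := H.image (fun h => y + h)) (n := n) (by
      rw [card_image_of_injective _ (add_right_injective y), hHc]
      exact hm1)
  refine ⟨X, i, hXc, fun S hS hodd => ?_⟩
  obtain ⟨h, hh, hs⟩ := (odd_sum h2 H hH y S (by
    intro x hx
    have := hXs (hS hx)
    rw [mem_image] at this
    obtain ⟨h, hh, rfl⟩ := this
    exact ⟨h, hh, rfl⟩)).1 hodd
  rw [hs]
  have := hy h hh
  rw [mem_filter] at this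
  exact this.2

end Pool.Agent.TH872.AddCube
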