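import Pool.Agent.TH872.Mir2

set_option autoImplicit false

/-! Random permutations of the digits of an arbitrary integer: the characteristic function. -/

namespace Pool.Agent.TH872.An
open Finset
open Pool.Agent.H807R2.Dav
open Pool.Agent.W93.DG
open Pool.Agent.W93.RD
open Pool.Agent.TH872.Mir (Far farCount)

/-- the value of the permuted digits -/
def V (b : ℕ) {k : ℕ} (d : Fin k → ℕ) (σ : Equiv.Perm (Fin k)) : ℕ := ∑ i : Fin k, d (σ i) * b ^ (i : ℕ)

/-- digits below `b`, none of which is taken at more than `(1 - η) k` places -/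
structure Spread (b k : ℕ) (η : ℝ) (d : Fin k → ℕ) : Prop where
  lt : ∀ i, d i < b
  few : ∀ a, ((univ.filter fun i => d i = a).card : ℝ) ≤ (1 - η) * k

/-- averaging over the transpositions of `y` with the places outside `P` -/
lemma swap_avg {k : ℕ} (P : Finset (Fin k)) (y : Fin k) (hy : y ∉ P) (F : Equiv.Perm (Fin k) → ℝ) (hF0 : ∀ σ, 0 ≤ F σ)
    (hF : ∀ σ, ∀ z, z ∉ P → F (σ * Equiv.swap y z) = F σ) (φ : Equiv.Perm (Fin k) → Fin k → ℝ)
    (hφ : ∀ σ u, ∀ z, z ∉ P → φ (σ * Equiv.swap y z) u = φ σ u) (q : ℝ)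
    (hq : ∀ σ, ∑ z ∈ Pᶜ, φ σ (σ z) ≤ q * (Pᶜ.card : ℝ)) :
    ∑ σ, F σ * φ σ (σ y) ≤ q * ∑ σ, F σ := by
  have hyc : y ∈ Pᶜ := mem_compl.2 hy
  have hpos : (0 : ℝ) < (Pᶜ.card : ℝ) := by exact_mod_cast card_pos.2 ⟨y, hyc⟩
  have h1 : ∀ z ∈ Pᶜ, ∑ σ, F σ * φ σ (σ y) = ∑ σ, F σ * φ σ (σ z) := by
    intro z hz
    rw [mem_compl] at hz
    rw [← Equiv.sum_comp (Equiv.mulRight (Equiv.swap y z)) (fun σ => F σ * φ σ (σ y))]
    apply sum_congr rfl
    intro σ _
    rw [Equiv.coe_mulRight, hF σ z hz, hφ σ _ z hz, Equiv.Perm.mul_apply, Equiv.swap_apply_left]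
  have h2 : (Pᶜ.card : ℝ) * ∑ σ, F σ * φ σ (σ y) = ∑ σ, F σ * ∑ z ∈ Pᶜ, φ σ (σ z) := by
    rw [← nsmul_eq_mul, ← sum_const]
    rw [sum_congr rfl h1, sum_comm]
    apply sum_congr rfl
    intro σ _
    rw [mul_sum]
  have h3 : ∑ σ, F σ * ∑ z ∈ Pᶜ, φ σ (σ z) ≤ ∑ σ, F σ * (q * (Pᶜ.card : ℝ)) :=
    sum_le_sum fun σ _ => mul_le_mul_of_nonneg_left (hq σ) (hF0 σ)
  rw [← h2, ← sum_mul] at h3
  have h4 : (Pᶜ.card : ℝ) * ∑ σ, F σ * φ σ (σ y) ≤ (Pᶜ.card : ℝ) * (q * ∑ σ, F σ) := by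
    refine h3.trans (le_of_eq ?_)
    ring
  exact le_of_mul_le_mul_left h4 hpos

/-- the number of the places outside `P` with a digit different from `a` -/
lemma many_ne {b k : ℕ} {η : ℝ} {d : Fin k → ℕ} (hd : Spread b k η d) (σ : Equiv.Perm (Fin k)) (P : Finset (Fin k)) (a : ℕ) :
    η * k - P.card ≤ ((Pᶜ.filter fun z => d (σ z) ≠ a).card : ℝ) := by
  classical
  have h1 : ((univ.filter fun z => d (σ z) = a).card : ℝ) ≤ (1 - η) * k := by
    have : (univ.filter fun z => d (σ z) = a).card = (univ.filter fun i => d i = a).card := by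
      apply card_bij (fun z _ => σ z)
      · intro z hz
        rw [mem_filter] at hz ⊢
        exact ⟨mem_univ _, hz.2⟩
      · intro z _ z' _ h
        exact σ.injective h
      · intro i hi
        rw [mem_filter] at hi
        exact ⟨σ.symm i, by rw [mem_filter, Equiv.apply_symm_apply]; exact ⟨mem_univ _, hi.2⟩, Equiv.apply_symm_apply _ _⟩
    rw [this]
    exact hd.few a
  have h2 : (univ : Finset (Fin k)) ⊆ (univ.filter fun z => d (σ z) = a) ∪ (P ∪ (Pᶜ.filter fun z => d (σ z) ≠ a)) := by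
    intro z _
    rw [mem_union, mem_union, mem_filter, mem_filter, mem_compl]
    by_cases c1 : d (σ z) = a
    · left; exact ⟨mem_univ _, c1⟩
    · by_cases c2 : z ∈ P
      · right; left; exact c2
      · right; right; exact ⟨c2, c1⟩
  have h3 := card_le_card h2
  rw [card_univ, Fintype.card_fin] at h3
  have h4 := (card_union_le (univ.filter fun z => d (σ z) = a) (P ∪ (Pᶜ.filter fun z => d (σ z) ≠ a)))
  have h5 := card_union_le P (Pᶜ.filter fun z => d (σ z) ≠ a)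
  have h6 : (k : ℝ) ≤ ((univ.filter fun z => d (σ z) = a).card : ℝ) + (P.card + ((Pᶜ.filter fun z => d (σ z) ≠ a).card : ℝ)) := by
    exact_mod_cast h3.trans (h4.trans (Nat.add_le_add_left h5 _))
  linarith

/-- the factor of a pair of digits -/
noncomputable def hh (ρ : ℝ) (a a' : ℕ) : ℝ := if a = a' then 1 else ρ

lemma hh_nonneg (ρ : ℝ) (hρ : 0 ≤ ρ) (a a' : ℕ) : 0 ≤ hh ρ a a' := by
  unfold hh; split_ifs <;> [norm_num; exact hρ]

/-- few equal pairs -/
lemma pairs_bound {b k : ℕ} {η : ℝ} {d : Fin k → ℕ} (hd : Spread b k η d) (hη : 0 ≤ η) (ρ : ℝ) (hρ0 : 0 ≤ ρ) (hρ1 : ρ ≤ 1)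
    (x y : ℕ → Fin k) (J : Finset ℕ) (hxy : ∀ i ∈ J, ∀ j ∈ J, x i ≠ y j) (hx : ∀ i ∈ J, ∀ j ∈ J, x i = x j → i = j)
    (hyy : ∀ i ∈ J, ∀ j ∈ J, y i = y j → i = j) (hJ : 2 * (J.card : ℝ) ≤ η / 2 * k) :
    ∑ σ : Equiv.Perm (Fin k), ∏ j ∈ J, hh ρ (d (σ (x j))) (d (σ (y j))) ≤ (1 - (1 - ρ) * (η / 2)) ^ J.card * k.factorial := by
  classical
  induction J using Finset.induction_on with
  | empty =>
    simp only [prod_empty, card_empty, pow_zero, one_mul, sum_const, nsmul_eq_mul, mul_one]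
    rw [card_univ, Fintype.card_perm, Fintype.card_fin]
  | insert r J hr ih =>
    rw [card_insert_of_notMem hr] at hJ ⊢
    have hk0 : (0 : ℝ) ≤ k := Nat.cast_nonneg k
    have hJ' : 2 * (J.card : ℝ) + 2 ≤ η / 2 * k := by
      push_cast at hJ
      linarith
    have ih' := ih (fun i hi j hj => hxy i (mem_insert_of_mem hi) j (mem_insert_of_mem hj))
      (fun i hi j hj => hx i (mem_insert_of_mem hi) j (mem_insert_of_mem hj))
      (fun i hi j hj => hyy i (mem_insert_of_mem hi) j (mem_insert_of_mem hj)) (by linarith)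
    obtain ⟨P, hP⟩ : ∃ P : Finset (Fin k), P = insert (x r) (J.image x ∪ J.image y) := ⟨_, rfl⟩
    have hrm := mem_insert_self r J
    have hyP : y r ∉ P := by
      rw [hP, mem_insert, mem_union, mem_image, mem_image]
      rintro (h | ⟨j, hj, h⟩ | ⟨j, hj, h⟩)
      · exact hxy r hrm r hrm h.symm
      · exact hxy j (mem_insert_of_mem hj) r hrm h
      · have := hyy j (mem_insert_of_mem hj) r hrm h
        rw [this] at hj
        exact hr hj
    have hPc : (P.card : ℝ) ≤ 2 * J.card + 1 := by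
      have h1 : P.card ≤ (J.card + J.card) + 1 := by
        rw [hP]
        refine (card_insert_le _ _).trans ?_
        apply Nat.add_le_add_right
        exact (card_union_le _ _).trans (Nat.add_le_add card_image_le card_image_le)
      have h2 : (P.card : ℝ) ≤ ((J.card + J.card) + 1 : ℕ) := by exact_mod_cast h1
      push_cast at h2
      linarith
    have hfix : ∀ (σ : Equiv.Perm (Fin k)) (z w : Fin k), z ∉ P → w ∈ P → (σ * Equiv.swap (y r) z) w = σ w := by
      intro σ z w hz hw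
      rw [Equiv.Perm.mul_apply, Equiv.swap_apply_of_ne_of_ne]
      · rintro rfl; exact hyP hw
      · rintro rfl; exact hz hw
    have hxj : ∀ j ∈ J, x j ∈ P := fun j hj => by
      rw [hP]; exact mem_insert_of_mem (mem_union_left _ (mem_image_of_mem x hj))
    have hyj : ∀ j ∈ J, y j ∈ P := fun j hj => by
      rw [hP]; exact mem_insert_of_mem (mem_union_right _ (mem_image_of_mem y hj))
    have hxr : x r ∈ P := by rw [hP]; exact mem_insert_self _ _
    have key := swap_avg P (y r) hyP (fun σ => ∏ j ∈ J, hh ρ (d (σ (x j))) (d (σ (y j))))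
      (fun σ => prod_nonneg fun j _ => hh_nonneg ρ hρ0 _ _)
      (by
        intro σ z hz
        apply prod_congr rfl
        intro j hj
        rw [hfix σ z _ hz (hxj j hj), hfix σ z _ hz (hyj j hj)])
      (fun σ u => hh ρ (d (σ (x r))) (d u))
      (by
        intro σ u z hz
        rw [hfix σ z _ hz hxr])
      (1 - (1 - ρ) * (η / 2)) (by
        intro σ
        obtain ⟨a, ha⟩ : ∃ a, a = d (σ (x r)) := ⟨_, rfl⟩
        rw [← ha]
        have h1 : ∀ z ∈ Pᶜ, hh ρ a (d (σ z)) = 1 - (1 - ρ) * (if d (σ z) ≠ a then 1 else 0) := by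
          intro z _
          unfold hh
          by_cases c : d (σ z) = a
          · rw [if_pos c.symm, if_neg (by simpa using c)]; ring
          · rw [if_neg (fun h => c h.symm), if_pos c]; ring
        rw [sum_congr rfl h1, sum_sub_distrib, ← mul_sum, sum_const, nsmul_eq_mul, mul_one, sum_boole]
        have h2 := many_ne hd σ P a
        have h3 : (Pᶜ.card : ℝ) ≤ k := by
          have : Pᶜ.card ≤ k := by
            have := card_le_univ (Pᶜ)
            rwa [Fintype.card_fin] at this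
          exact_mod_cast this
        have h4 : η / 2 * (Pᶜ.card : ℝ) ≤ ((Pᶜ.filter fun z => d (σ z) ≠ a).card : ℝ) := by
          have h5 : η / 2 * (Pᶜ.card : ℝ) ≤ η / 2 * k := mul_le_mul_of_nonneg_left h3 (by linarith)
          linarith
        have h6 := mul_le_mul_of_nonneg_left h4 (by linarith : 0 ≤ 1 - ρ)
        have h7 : (1 - (1 - ρ) * (η / 2)) * (Pᶜ.card : ℝ) = (Pᶜ.card : ℝ) - (1 - ρ) * (η / 2 * (Pᶜ.card : ℝ)) := by ring
        rw [h7]
        linarith)
    have hone : 0 ≤ 1 - (1 - ρ) * (η / 2) := by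
      by_contra hcon
      push Not at hcon
      have hη2 : η ≤ 2 ∨ ¬ η ≤ 2 := em _
      rcases hη2 with h | h
      · nlinarith
      · push Not at h
        -- then the digit 0 would be taken a negative number of times
        have h1 := hd.few 0
        have h2 : (0 : ℝ) ≤ ((univ.filter fun i => d i = 0).card : ℝ) := Nat.cast_nonneg _
        have hk : (0 : ℝ) < k := by
          by_contra hk
          push Not at hk
          have : (k : ℝ) = 0 := le_antisymm hk hk0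
          rw [this] at hJ'
          have : (0 : ℝ) ≤ J.card := Nat.cast_nonneg _
          linarith
        nlinarith
    calc ∑ σ : Equiv.Perm (Fin k), ∏ j ∈ insert r J, hh ρ (d (σ (x j))) (d (σ (y j)))
        = ∑ σ : Equiv.Perm (Fin k), (∏ j ∈ J, hh ρ (d (σ (x j))) (d (σ (y j)))) * hh ρ (d (σ (x r))) (d (σ (y r))) := by
          apply sum_congr rfl
          intro σ _
          rw [prod_insert hr, mul_comm]
      _ ≤ (1 - (1 - ρ) * (η / 2)) * ∑ σ : Equiv.Perm (Fin k), ∏ j ∈ J, hh ρ (d (σ (x j))) (d (σ (y j))) := key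
      _ ≤ (1 - (1 - ρ) * (η / 2)) * ((1 - (1 - ρ) * (η / 2)) ^ J.card * k.factorial) := mul_le_mul_of_nonneg_left ih' hone
      _ = _ := by rw [pow_succ]; ring

/-- prescribed digits are rare -/
lemma prescribed {b k : ℕ} {η : ℝ} {d : Fin k → ℕ} (hd : Spread b k η d) (hη : 0 ≤ η) (hη2 : η ≤ 1)
    (y : ℕ → Fin k) (a : ℕ → ℕ) (J : Finset ℕ) (hyy : ∀ i ∈ J, ∀ j ∈ J, y i = y j → i = j) (hJ : (J.card : ℝ) ≤ η / 2 * k) :
    ∑ σ : Equiv.Perm (Fin k), ∏ j ∈ J, (if d (σ (y j)) = a j then (1 : ℝ) else 0) ≤ (1 - η / 2) ^ J.card * k.factorial := by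
  classical
  induction J using Finset.induction_on with
  | empty =>
    simp only [prod_empty, card_empty, pow_zero, one_mul, sum_const, nsmul_eq_mul, mul_one]
    rw [card_univ, Fintype.card_perm, Fintype.card_fin]
  | insert r J hr ih =>
    rw [card_insert_of_notMem hr] at hJ ⊢
    have hk0 : (0 : ℝ) ≤ k := Nat.cast_nonneg k
    have hJ' : (J.card : ℝ) + 1 ≤ η / 2 * k := by
      push_cast at hJ
      linarith
    have ih' := ih (fun i hi j hj => hyy i (mem_insert_of_mem hi) j (mem_insert_of_mem hj)) (by linarith)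
    obtain ⟨P, hP⟩ : ∃ P : Finset (Fin k), P = J.image y := ⟨_, rfl⟩
    have hrm := mem_insert_self r J
    have hyP : y r ∉ P := by
      rw [hP, mem_image]
      rintro ⟨j, hj, h⟩
      have := hyy j (mem_insert_of_mem hj) r hrm h
      rw [this] at hj
      exact hr hj
    have hPc : (P.card : ℝ) ≤ J.card := by
      rw [hP]
      exact_mod_cast card_image_le
    have hfix : ∀ (σ : Equiv.Perm (Fin k)) (z w : Fin k), z ∉ P → w ∈ P → (σ * Equiv.swap (y r) z) w = σ w := by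
      intro σ z w hz hw
      rw [Equiv.Perm.mul_apply, Equiv.swap_apply_of_ne_of_ne]
      · rintro rfl; exact hyP hw
      · rintro rfl; exact hz hw
    have hyj : ∀ j ∈ J, y j ∈ P := fun j hj => by rw [hP]; exact mem_image_of_mem y hj
    have key := swap_avg P (y r) hyP (fun σ => ∏ j ∈ J, (if d (σ (y j)) = a j then (1 : ℝ) else 0))
      (fun σ => prod_nonneg fun j _ => by split_ifs <;> norm_num)
      (by
        intro σ z hz
        apply prod_congr rfl
        intro j hj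
        rw [hfix σ z _ hz (hyj j hj)])
      (fun _ u => if d u = a r then (1 : ℝ) else 0)
      (by
        intro σ u z hz
        rfl)
      (1 - η / 2) (by
        intro σ
        rw [sum_boole]
        have h1 : ((Pᶜ.filter fun z => d (σ z) = a r).card : ℝ) + ((Pᶜ.filter fun z => d (σ z) ≠ a r).card : ℝ) = Pᶜ.card := by
          have := card_filter_add_card_filter_not (s := Pᶜ) (fun z => d (σ z) = a r)
          exact_mod_cast this
        have h2 := many_ne hd σ P (a r)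
        have h3 : (Pᶜ.card : ℝ) ≤ k := by
          have : Pᶜ.card ≤ k := by
            have := card_le_univ (Pᶜ)
            rwa [Fintype.card_fin] at this
          exact_mod_cast this
        have h5 : η / 2 * (Pᶜ.card : ℝ) ≤ η / 2 * k := mul_le_mul_of_nonneg_left h3 (by linarith)
        have h7 : (1 - η / 2) * (Pᶜ.card : ℝ) = (Pᶜ.card : ℝ) - η / 2 * (Pᶜ.card : ℝ) := by ring
        rw [h7]
        linarith)
    calc ∑ σ : Equiv.Perm (Fin k), ∏ j ∈ insert r J, (if d (σ (y j)) = a j then (1 : ℝ) else 0)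
        = ∑ σ : Equiv.Perm (Fin k), (∏ j ∈ J, (if d (σ (y j)) = a j then (1 : ℝ) else 0)) * (if d (σ (y r)) = a r then (1 : ℝ) else 0) := by
          apply sum_congr rfl
          intro σ _
          rw [prod_insert hr, mul_comm]
      _ ≤ (1 - η / 2) * ∑ σ : Equiv.Perm (Fin k), ∏ j ∈ J, (if d (σ (y j)) = a j then (1 : ℝ) else 0) := key
      _ ≤ (1 - η / 2) * ((1 - η / 2) ^ J.card * k.factorial) := mul_le_mul_of_nonneg_left ih' (by linarith)
      _ = _ := by rw [pow_succ]; ring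

/-- the change of the value by a transposition -/
lemma V_swap (b : ℕ) {k : ℕ} (d : Fin k → ℕ) (σ : Equiv.Perm (Fin k)) (x y : Fin k) (hxy : x ≠ y) :
    (V b d (σ * Equiv.swap x y) : ℝ) = V b d σ + ((d (σ y) : ℝ) - d (σ x)) * ((b : ℝ) ^ (x : ℕ) - (b : ℝ) ^ (y : ℕ)) := by
  classical
  unfold V
  simp only [Nat.cast_sum, Nat.cast_mul, Nat.cast_pow]
  have hs : ∀ f : Fin k → ℝ, ∑ i, f i = f x + (f y + ∑ i ∈ (univ.erase x).erase y, f i) := by
    intro f
    rw [add_sum_erase _ f (mem_erase.2 ⟨hxy.symm, mem_univ y⟩), add_sum_erase _ f (mem_univ x)]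
  rw [hs (fun i => (d ((σ * Equiv.swap x y) i) : ℝ) * (b : ℝ) ^ (i : ℕ)), hs (fun i => (d (σ i) : ℝ) * (b : ℝ) ^ (i : ℕ))]
  have h1 : ∑ i ∈ (univ.erase x).erase y, (d ((σ * Equiv.swap x y) i) : ℝ) * (b : ℝ) ^ (i : ℕ) =
      ∑ i ∈ (univ.erase x).erase y, (d (σ i) : ℝ) * (b : ℝ) ^ (i : ℕ) := by
    apply sum_congr rfl
    intro i hi
    rw [mem_erase, mem_erase] at hi
    rw [Equiv.Perm.mul_apply, Equiv.swap_apply_of_ne_of_ne hi.2.1 hi.1]
  rw [h1]
  simp only [Equiv.Perm.mul_apply, Equiv.swap_apply_left, Equiv.swap_apply_right]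
  ring

/-- the characteristic function and the transpositions -/
lemma char_swap (b : ℕ) {k : ℕ} (d : Fin k → ℕ) (θ : ℝ) (x y : ℕ → Fin k) (J : Finset ℕ)
    (hxy : ∀ i ∈ J, ∀ j ∈ J, x i ≠ y j) (hx : ∀ i ∈ J, ∀ j ∈ J, x i = x j → i = j)
    (hyy : ∀ i ∈ J, ∀ j ∈ J, y i = y j → i = j) :
    ∑ σ : Equiv.Perm (Fin k), ee ((V b d σ : ℝ) * θ) = ∑ σ : Equiv.Perm (Fin k), ee ((V b d σ : ℝ) * θ) *
      ∏ j ∈ J, ((1 + ee (((d (σ (y j)) : ℝ) - d (σ (x j))) * ((b : ℝ) ^ (x j : ℕ) - (b : ℝ) ^ (y j : ℕ)) * θ)) / 2) := by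
  classical
  induction J using Finset.induction_on with
  | empty =>
    simp only [prod_empty, mul_one]
  | insert r J hr ih =>
    have ih' := ih (fun i hi j hj => hxy i (mem_insert_of_mem hi) j (mem_insert_of_mem hj))
      (fun i hi j hj => hx i (mem_insert_of_mem hi) j (mem_insert_of_mem hj))
      (fun i hi j hj => hyy i (mem_insert_of_mem hi) j (mem_insert_of_mem hj))
    have hrm := mem_insert_self r J
    have hxyr : x r ≠ y r := hxy r hrm r hrm
    have hfx : ∀ (σ : Equiv.Perm (Fin k)), ∀ j ∈ J, (σ * Equiv.swap (x r) (y r)) (x j) = σ (x j) := by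
      intro σ j hj
      rw [Equiv.Perm.mul_apply, Equiv.swap_apply_of_ne_of_ne]
      · intro h
        have := hx j (mem_insert_of_mem hj) r hrm h
        rw [this] at hj
        exact hr hj
      · exact hxy j (mem_insert_of_mem hj) r hrm
    have hfy : ∀ (σ : Equiv.Perm (Fin k)), ∀ j ∈ J, (σ * Equiv.swap (x r) (y r)) (y j) = σ (y j) := by
      intro σ j hj
      rw [Equiv.Perm.mul_apply, Equiv.swap_apply_of_ne_of_ne]
      · exact (hxy r hrm j (mem_insert_of_mem hj)).symm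
      · intro h
        have := hyy j (mem_insert_of_mem hj) r hrm h
        rw [this] at hj
        exact hr hj
    obtain ⟨T, hT⟩ : ∃ T : Equiv.Perm (Fin k) → ℂ, T = fun σ => ee ((V b d σ : ℝ) * θ) *
      ∏ j ∈ J, ((1 + ee (((d (σ (y j)) : ℝ) - d (σ (x j))) * ((b : ℝ) ^ (x j : ℕ) - (b : ℝ) ^ (y j : ℕ)) * θ)) / 2) := ⟨_, rfl⟩
    have hTs : ∀ σ, T (σ * Equiv.swap (x r) (y r)) = T σ *
        ee (((d (σ (y r)) : ℝ) - d (σ (x r))) * ((b : ℝ) ^ (x r : ℕ) - (b : ℝ) ^ (y r : ℕ)) * θ) := by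
      intro σ
      rw [hT]
      simp only
      rw [V_swap b d σ _ _ hxyr, add_mul, ee_add]
      have h1 : ∏ j ∈ J, ((1 + ee (((d ((σ * Equiv.swap (x r) (y r)) (y j)) : ℝ) - d ((σ * Equiv.swap (x r) (y r)) (x j))) *
          ((b : ℝ) ^ (x j : ℕ) - (b : ℝ) ^ (y j : ℕ)) * θ)) / 2) =
          ∏ j ∈ J, ((1 + ee (((d (σ (y j)) : ℝ) - d (σ (x j))) * ((b : ℝ) ^ (x j : ℕ) - (b : ℝ) ^ (y j : ℕ)) * θ)) / 2) := by
        apply prod_congr rfl
        intro j hj
        rw [hfx σ j hj, hfy σ j hj]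
      rw [h1]
      ring
    have hsum : ∑ σ, T σ = ∑ σ, T (σ * Equiv.swap (x r) (y r)) := by
      rw [← Equiv.sum_comp (Equiv.mulRight (Equiv.swap (x r) (y r))) T]
      rfl
    have h2 : ∑ σ, T σ = ∑ σ, T σ * ((1 + ee (((d (σ (y r)) : ℝ) - d (σ (x r))) * ((b : ℝ) ^ (x r : ℕ) - (b : ℝ) ^ (y r : ℕ)) * θ)) / 2) := by
      have h3 : (∑ σ, T σ) + ∑ σ, T σ = 2 * ∑ σ, T σ * ((1 + ee (((d (σ (y r)) : ℝ) - d (σ (x r))) *
          ((b : ℝ) ^ (x r : ℕ) - (b : ℝ) ^ (y r : ℕ)) * θ)) / 2) := by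
        nth_rewrite 2 [hsum]
        rw [← sum_add_distrib, mul_sum]
        apply sum_congr rfl
        intro σ _
        rw [hTs σ]
        ring
      have h4 : 2 * ∑ σ, T σ = 2 * ∑ σ, T σ * ((1 + ee (((d (σ (y r)) : ℝ) - d (σ (x r))) *
          ((b : ℝ) ^ (x r : ℕ) - (b : ℝ) ^ (y r : ℕ)) * θ)) / 2) := by rw [← h3]; ring
      exact mul_left_cancel₀ (by norm_num) h4
    rw [ih']
    have h5 : ∑ σ : Equiv.Perm (Fin k), ee ((V b d σ : ℝ) * θ) *
      ∏ j ∈ J, ((1 + ee (((d (σ (y j)) : ℝ) - d (σ (x j))) * ((b : ℝ) ^ (x j : ℕ) - (b : ℝ) ^ (y j : ℕ)) * θ)) / 2) = ∑ σ, T σ := by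
      rw [hT]
    rw [h5, h2, hT]
    apply sum_congr rfl
    intro σ _
    rw [prod_insert hr]
    ring

/-- the characteristic function is small if there are many pairs -/
lemma char_small (b : ℕ) {k : ℕ} {η : ℝ} {d : Fin k → ℕ} (hd : Spread b k η d) (hη : 0 ≤ η) (θ δ : ℝ) (hδ0 : 0 ≤ δ) (hδ1 : δ ≤ 1 / 2)
    (x y : ℕ → Fin k) (J : Finset ℕ)
    (hxy : ∀ i ∈ J, ∀ j ∈ J, x i ≠ y j) (hx : ∀ i ∈ J, ∀ j ∈ J, x i = x j → i = j)
    (hyy : ∀ i ∈ J, ∀ j ∈ J, y i = y j → i = j) (hJ : 2 * (J.card : ℝ) ≤ η / 2 * k)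
    (hfar : ∀ j ∈ J, ∀ D : ℤ, D ≠ 0 → |D| < b → Far δ ((D : ℝ) * ((b : ℝ) ^ (x j : ℕ) - (b : ℝ) ^ (y j : ℕ)) * θ)) :
    ‖∑ σ : Equiv.Perm (Fin k), (((1 : ℝ) / k.factorial : ℝ) : ℂ) * ee ((V b d σ : ℝ) * θ)‖ ≤ (1 - 2 * δ ^ 2 * (η / 2)) ^ J.card := by
  classical
  have hfac : (0 : ℝ) < (k.factorial : ℝ) := by exact_mod_cast k.factorial_pos
  rw [← mul_sum, char_swap b d θ x y J hxy hx hyy, norm_mul, Complex.norm_real, Real.norm_of_nonneg (by positivity)]
  have h1 : ‖∑ σ : Equiv.Perm (Fin k), ee ((V b d σ : ℝ) * θ) *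
      ∏ j ∈ J, ((1 + ee (((d (σ (y j)) : ℝ) - d (σ (x j))) * ((b : ℝ) ^ (x j : ℕ) - (b : ℝ) ^ (y j : ℕ)) * θ)) / 2)‖ ≤
      ∑ σ : Equiv.Perm (Fin k), ∏ j ∈ J, hh (1 - 2 * δ ^ 2) (d (σ (x j))) (d (σ (y j))) := by
    refine (norm_sum_le _ _).trans (sum_le_sum fun σ _ => ?_)
    rw [norm_mul, norm_ee, one_mul, norm_prod]
    apply prod_le_prod (fun _ _ => norm_nonneg _)
    intro j hj
    rw [norm_div, Complex.norm_ofNat]
    unfold hh
    split_ifs with c
    · rw [← c, sub_self, zero_mul, zero_mul, ee_zero]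
      norm_num
    · have h2 := cos_dist (((d (σ (y j)) : ℝ) - d (σ (x j))) * ((b : ℝ) ^ (x j : ℕ) - (b : ℝ) ^ (y j : ℕ)) * θ) δ hδ0 (by
        have h3 := hfar j hj ((d (σ (y j)) : ℤ) - d (σ (x j))) (by
          intro h
          apply c
          have : (d (σ (x j)) : ℤ) = d (σ (y j)) := by linarith
          exact_mod_cast this) (by
          have a1 := hd.lt (σ (y j))
          have a2 := hd.lt (σ (x j))
          rw [abs_lt]
          constructor <;> omega)
        push_cast at h3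
        exact h3)
      rw [div_le_iff₀ (by norm_num)]
      linarith
  have h3 := pairs_bound hd hη (1 - 2 * δ ^ 2) (by nlinarith) (by nlinarith [sq_nonneg δ]) x y J hxy hx hyy hJ
  have h4 : 1 - (1 - (1 - 2 * δ ^ 2)) * (η / 2) = 1 - 2 * δ ^ 2 * (η / 2) := by ring
  rw [h4] at h3
  calc 1 / (k.factorial : ℝ) * _ ≤ 1 / (k.factorial : ℝ) * ((1 - 2 * δ ^ 2 * (η / 2)) ^ J.card * k.factorial) :=
        mul_le_mul_of_nonneg_left (h1.trans h3) (by positivity)
    _ = _ := by field_simp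

end Pool.Agent.TH872.An
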