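import Pool.Agent.TH872.Mir3

set_option autoImplicit false

/-! Palindromes. -/

namespace Pool.Agent.TH872.Mir
open Finset

/-- `v` has exactly `k` digits in base `b`, and the digit number `j` is equal to the digit number `k - 1 - j`. -/
def IsPal (b k v : ℕ) : Prop :=
  b ^ (k - 1) ≤ v ∧ v < b ^ k ∧ ∀ j < k, v / b ^ j % b = v / b ^ (k - 1 - j) % b

lemma digit_sum (b : ℕ) (hb : 0 < b) (f : ℕ → ℕ) (k : ℕ) (hf : ∀ i < k, f i < b) (j : ℕ) (hj : j < k) :
    (∑ i ∈ range k, f i * b ^ i) / b ^ j % b = f j := by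
  obtain ⟨r, hr⟩ : ∃ r, k = j + 1 + r := ⟨k - (j + 1), by omega⟩
  subst hr
  have h1 : ∑ i ∈ range (j + 1 + r), f i * b ^ i = ∑ i ∈ range j, f i * b ^ i + b ^ j * (b * ∑ i ∈ range r, f (j + 1 + i) * b ^ i + f j) := by
    rw [sum_range_add, sum_range_succ, mul_add, mul_sum, mul_sum]
    have : ∑ x ∈ range r, f (j + 1 + x) * b ^ (j + 1 + x) = ∑ x ∈ range r, b ^ j * (b * (f (j + 1 + x) * b ^ x)) := by
      apply sum_congr rfl
      intro x _
      rw [pow_add, pow_succ]
      ring
    rw [this]
    ring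
  have h2 := sum_lt_pow b f j (fun i hi => hf i (by omega))
  have hp : 0 < b ^ j := by positivity
  rw [h1, Nat.add_mul_div_left _ _ hp, Nat.div_eq_of_lt h2, zero_add, Nat.mul_add_mod, Nat.mod_eq_of_lt (hf j (by omega))]

lemma sum_digits (b : ℕ) (hb : 0 < b) (k : ℕ) : ∀ v, v < b ^ k → ∑ j ∈ range k, (v / b ^ j % b) * b ^ j = v := by
  induction k with
  | zero => intro v hv; simp at hv; simp [hv]
  | succ k ih =>
    intro v hv
    rw [sum_range_succ']
    have h1 : ∑ j ∈ range k, (v / b ^ (j + 1) % b) * b ^ (j + 1) = b * ∑ j ∈ range k, ((v / b) / b ^ j % b) * b ^ j := by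
      rw [mul_sum]
      apply sum_congr rfl
      intro j _
      rw [Nat.div_div_eq_div_mul, pow_succ, mul_comm b (b ^ j)]
      ring
    rw [h1, ih (v / b) (by rw [Nat.div_lt_iff_lt_mul hb, ← pow_succ]; exact hv)]
    simp only [pow_zero, Nat.div_one, mul_one]
    exact Nat.div_add_mod v b

lemma split_sum (m s : ℕ) (F : ℕ → ℕ) : ∑ j ∈ range (2 * m + s), F j =
    ∑ i ∈ range m, (F i + F (2 * m + s - 1 - i)) + ∑ j ∈ range s, F (m + j) := by
  have h1 : 2 * m + s = m + (s + m) := by ring
  rw [sum_add_distrib]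
  have h2 : ∑ j ∈ range (2 * m + s), F j = ∑ j ∈ range m, F j + (∑ j ∈ range s, F (m + j) + ∑ i ∈ range m, F (m + (s + i))) := by
    rw [h1, sum_range_add, sum_range_add]
  have h3 : ∑ i ∈ range m, F (m + (s + i)) = ∑ i ∈ range m, F (2 * m + s - 1 - i) := by
    rw [← sum_range_reflect]
    apply sum_congr rfl
    intro i hi
    rw [mem_range] at hi
    congr 1
    omega
  rw [h2, h3]
  ring

/-- the first half of the digits -/
def Hs (b m : ℕ) : Finset (Fin m → ℕ) := Fintype.piFinset fun i => if (i : ℕ) = 0 then Ico 1 b else range b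

/-- the palindrome with given first half and middle digit -/
def pval (b m s : ℕ) (x : Fin m → ℕ) (z : ℕ) : ℕ := val b (2 * m + s) (fun i => (x i, x i)) + s * z * b ^ m

/-- the digits of the palindrome -/
def pdig (m s : ℕ) (x : Fin m → ℕ) (z : ℕ) (j : ℕ) : ℕ :=
  if h : j < m then x ⟨j, h⟩ else if j < m + s then z else if h' : 2 * m + s - 1 - j < m then x ⟨2 * m + s - 1 - j, h'⟩ else 0

lemma pdig_symm (m s : ℕ) (hs : s ≤ 1) (x : Fin m → ℕ) (z j : ℕ) (hj : j < 2 * m + s) :
    pdig m s x z j = pdig m s x z (2 * m + s - 1 - j) := by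
  unfold pdig
  by_cases h1 : j < m
  · rw [dif_pos h1, dif_neg (by omega), if_neg (by omega), dif_pos (by omega)]
    congr 2
    omega
  · by_cases h2 : j < m + s
    · rw [dif_neg h1, if_pos h2, dif_neg (by omega), if_pos (by omega)]
    · rw [dif_neg h1, if_neg h2, dif_pos (by omega), dif_pos (by omega)]

lemma pval_eq (b m s : ℕ) (hs : s ≤ 1) (x : Fin m → ℕ) (z : ℕ) :
    pval b m s x z = ∑ j ∈ range (2 * m + s), pdig m s x z j * b ^ j := by
  rw [split_sum m s (fun j => pdig m s x z j * b ^ j)]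
  unfold pval
  congr 1
  · unfold val
    rw [← Fin.sum_univ_eq_sum_range (fun i => pdig m s x z i * b ^ i + pdig m s x z (2 * m + s - 1 - i) * b ^ (2 * m + s - 1 - i)) m]
    apply sum_congr rfl
    intro i _
    have hi := i.2
    rw [← pdig_symm m s hs x z i (by omega)]
    have : pdig m s x z i = x i := by
      unfold pdig
      rw [dif_pos hi]
    rw [this]
  · have h0 : s = 0 ∨ s = 1 := by omega
    rcases h0 with rfl | rfl
    · simp
    · simp only [one_mul, sum_range_one, add_zero]
      have : pdig m 1 x z m = z := by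
        unfold pdig
        rw [dif_neg (by omega), if_pos (by omega)]
      rw [this]

lemma mem_Hs (b m : ℕ) (x : Fin m → ℕ) : x ∈ Hs b m ↔ ∀ i : Fin m, x i < b ∧ ((i : ℕ) = 0 → 1 ≤ x i) := by
  unfold Hs
  rw [Fintype.mem_piFinset]
  apply forall_congr'
  intro i
  split_ifs with h
  · rw [mem_Ico]; exact ⟨fun h1 => ⟨h1.2, fun _ => h1.1⟩, fun h1 => ⟨h1.2 h, h1.1⟩⟩
  · rw [mem_range]; exact ⟨fun h1 => ⟨h1, fun h2 => absurd h2 h⟩, fun h1 => h1.1⟩

lemma pdig_lt (b m s : ℕ) (hb : 0 < b) (x : Fin m → ℕ) (hx : x ∈ Hs b m) (z : ℕ) (hz : z < b) (j : ℕ) : pdig m s x z j < b := by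
  rw [mem_Hs] at hx
  unfold pdig
  split_ifs
  · exact (hx _).1
  · exact hz
  · exact (hx _).1
  · exact hb

lemma pval_digit (b m s : ℕ) (hb : 0 < b) (hs : s ≤ 1) (x : Fin m → ℕ) (hx : x ∈ Hs b m) (z : ℕ) (hz : z < b) (j : ℕ)
    (hj : j < 2 * m + s) : pval b m s x z / b ^ j % b = pdig m s x z j := by
  rw [pval_eq b m s hs]
  exact digit_sum b hb _ _ (fun i _ => pdig_lt b m s hb x hx z hz i) j hj

lemma pval_isPal (b m s : ℕ) (hb : 0 < b) (hm : 1 ≤ m) (hs : s ≤ 1) (x : Fin m → ℕ) (hx : x ∈ Hs b m) (z : ℕ) (hz : z < b) :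
    IsPal b (2 * m + s) (pval b m s x z) := by
  refine ⟨?_, ?_, ?_⟩
  · have h1 : pdig m s x z (2 * m + s - 1) * b ^ (2 * m + s - 1) ≤ ∑ j ∈ range (2 * m + s), pdig m s x z j * b ^ j :=
      single_le_sum (f := fun j => pdig m s x z j * b ^ j) (fun _ _ => Nat.zero_le _) (mem_range.2 (by omega))
    rw [← pval_eq b m s hs] at h1
    have h2 : 1 ≤ pdig m s x z (2 * m + s - 1) := by
      have h3 := pdig_symm m s hs x z 0 (by omega)
      rw [Nat.sub_zero] at h3
      rw [← h3]
      unfold pdig
      rw [dif_pos (by omega : 0 < m)]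
      rw [mem_Hs] at hx
      exact (hx ⟨0, by omega⟩).2 rfl
    exact le_trans (Nat.le_mul_of_pos_left _ h2) h1
  · rw [pval_eq b m s hs]
    exact sum_lt_pow b _ _ (fun i _ => pdig_lt b m s hb x hx z hz i)
  · intro j hj
    rw [pval_digit b m s hb hs x hx z hz j hj, pval_digit b m s hb hs x hx z hz _ (by omega), pdig_symm m s hs x z j hj]

/-- the middle digits -/
def Zs (b s : ℕ) : Finset ℕ := if s = 0 then {0} else range b

lemma mem_Zs (b s z : ℕ) (hb : 0 < b) (hz : z ∈ Zs b s) : z < b := by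
  unfold Zs at hz
  split_ifs at hz
  · rw [mem_singleton] at hz; omega
  · exact mem_range.1 hz

open Classical in
/-- the palindromes -/
noncomputable def Pals (b k : ℕ) : Finset ℕ := (range (b ^ k)).filter (IsPal b k)

lemma card_pals_ge (b m s : ℕ) (hb : 0 < b) (hm : 1 ≤ m) (hs : s ≤ 1) : (Hs b m).card * (Zs b s).card ≤ (Pals b (2 * m + s)).card := by
  rw [← card_product]
  apply card_le_card_of_injOn (fun p => pval b m s p.1 p.2)
  · intro p hp
    rw [mem_coe, mem_product] at hp
    have hz := mem_Zs b s p.2 hb hp.2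
    have h1 := pval_isPal b m s hb hm hs p.1 hp.1 p.2 hz
    rw [mem_coe]
    unfold Pals
    classical
    rw [mem_filter, mem_range]
    exact ⟨h1.2.1, h1⟩
  · intro p hp q hq hpq
    rw [mem_coe, mem_product] at hp hq
    have hz := mem_Zs b s p.2 hb hp.2
    have hz' := mem_Zs b s q.2 hb hq.2
    simp only at hpq
    have hd : ∀ j < 2 * m + s, pdig m s p.1 p.2 j = pdig m s q.1 q.2 j := by
      intro j hj
      rw [← pval_digit b m s hb hs p.1 hp.1 p.2 hz j hj, ← pval_digit b m s hb hs q.1 hq.1 q.2 hz' j hj, hpq]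
    apply Prod.ext
    · funext i
      have hi := i.2
      have := hd i (by omega)
      unfold pdig at this
      rw [dif_pos hi, dif_pos hi] at this
      exact this
    · have h0 : s = 0 ∨ s = 1 := by omega
      rcases h0 with rfl | rfl
      · have e1 := hp.2
        have e2 := hq.2
        unfold Zs at e1 e2
        rw [if_pos rfl, mem_singleton] at e1 e2
        rw [e1, e2]
      · have := hd m (by omega)
        unfold pdig at this
        rw [dif_neg (by omega), if_pos (by omega), dif_neg (by omega), if_pos (by omega)] at this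
        exact this

open Classical in
lemma card_pals_filter_le (b m s : ℕ) (hb : 2 ≤ b) (hm : 1 ≤ m) (hs : s ≤ 1) (P : ℕ → Prop) :
    ((Pals b (2 * m + s)).filter P).card ≤ ∑ z ∈ Zs b s, ((Hs b m).filter (fun x => P (pval b m s x z))).card := by
  have hb0 : 0 < b := by omega
  have hsub : (Pals b (2 * m + s)).filter P ⊆
      (Zs b s).biUnion (fun z => ((Hs b m).filter (fun x => P (pval b m s x z))).image (fun x => pval b m s x z)) := by
    intro v hv
    unfold Pals at hv
    rw [mem_filter, mem_filter, mem_range] at hv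
    obtain ⟨⟨hvlt, hpal⟩, hP⟩ := hv
    obtain ⟨x, hx⟩ : ∃ x : Fin m → ℕ, ∀ i : Fin m, x i = v / b ^ (i : ℕ) % b := ⟨_, fun i => rfl⟩
    obtain ⟨z, hz⟩ : ∃ z, z = if s = 0 then 0 else v / b ^ m % b := ⟨_, rfl⟩
    have hdig : ∀ j < 2 * m + s, pdig m s x z j = v / b ^ j % b := by
      intro j hj
      unfold pdig
      by_cases h1 : j < m
      · rw [dif_pos h1, hx]
      · by_cases h2 : j < m + s
        · rw [dif_neg h1, if_pos h2, hz, if_neg (by omega)]
          have : j = m := by omega
          rw [this]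
        · rw [dif_neg h1, if_neg h2, dif_pos (by omega), hx]
          exact (hpal.2.2 j hj).symm
    have hpv : pval b m s x z = v := by
      rw [pval_eq b m s hs, sum_congr rfl (fun j hj => by rw [hdig j (mem_range.1 hj)])]
      exact sum_digits b hb0 _ v hvlt
    rw [mem_biUnion]
    refine ⟨z, ?_, ?_⟩
    · unfold Zs
      rw [hz]
      split_ifs
      · exact mem_singleton_self _
      · exact mem_range.2 (Nat.mod_lt _ hb0)
    · rw [mem_image]
      refine ⟨x, ?_, hpv⟩
      rw [mem_filter, hpv]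
      refine ⟨?_, hP⟩
      rw [mem_Hs]
      intro i
      rw [hx]
      refine ⟨Nat.mod_lt _ hb0, fun hi => ?_⟩
      have h1 := hpal.2.2 i (by have := i.2; omega)
      rw [h1, hi, Nat.sub_zero]
      have h2 : v / b ^ (2 * m + s - 1) < b := by
        rw [Nat.div_lt_iff_lt_mul (by positivity), ← pow_succ']
        have : 2 * m + s - 1 + 1 = 2 * m + s := by omega
        rw [this]; exact hvlt
      rw [Nat.mod_eq_of_lt h2, Nat.one_le_div_iff (by positivity)]
      exact hpal.1
  refine (card_le_card hsub).trans (card_biUnion_le.trans (sum_le_sum fun z _ => card_image_le))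

/-- the uniform law -/
noncomputable def w0 (b : ℕ) (i : ℕ) (a : ℕ × ℕ) : ℝ :=
  if a.1 = a.2 ∧ a.1 ∈ (if i = 0 then Ico 1 b else range b) then 1 / ((if i = 0 then Ico 1 b else range b : Finset ℕ).card : ℝ) else 0

lemma w0_mirr (b m : ℕ) (hb : 2 ≤ b) : Mirr b m (1 / (b : ℝ) ^ 2) (w0 b) := by
  have hX : ∀ i : ℕ, (if i = 0 then Ico 1 b else range b : Finset ℕ).Nonempty := by
    intro i
    split_ifs
    · exact ⟨1, by rw [mem_Ico]; omega⟩
    · exact ⟨0, by rw [mem_range]; omega⟩
  have hXs : ∀ i : ℕ, (if i = 0 then Ico 1 b else range b : Finset ℕ) ⊆ range b := by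
    intro i x hx
    split_ifs at hx
    · rw [mem_Ico] at hx; exact mem_range.2 hx.2
    · exact hx
  refine ⟨?_, ?_, ?_⟩
  · intro i _ a
    unfold w0
    split_ifs <;> positivity
  · intro i _
    unfold Q
    rw [sum_product]
    have h1 : ∀ x ∈ range b, ∑ y ∈ range b, w0 b i (x, y) =
        if x ∈ (if i = 0 then Ico 1 b else range b : Finset ℕ) then 1 / ((if i = 0 then Ico 1 b else range b : Finset ℕ).card : ℝ) else 0 := by
      intro x hx
      rw [sum_eq_single x]
      · unfold w0
        simp only [true_and]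
      · intro y _ hy
        unfold w0
        rw [if_neg]
        intro h
        exact hy h.1.symm
      · intro h; exact absurd hx h
    rw [sum_congr rfl h1, ← sum_filter]
    have h2 : (range b).filter (fun x => x ∈ (if i = 0 then Ico 1 b else range b : Finset ℕ)) = (if i = 0 then Ico 1 b else range b : Finset ℕ) := by
      ext x
      rw [mem_filter]
      exact ⟨fun h => h.2, fun h => ⟨hXs i h, h⟩⟩
    rw [h2, sum_const, nsmul_eq_mul, mul_one_div, div_self]
    exact_mod_cast (hX i).card_pos.ne'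
  · intro i _ hi
    have hi0 : i ≠ 0 := by omega
    have hw : ∀ x < b, w0 b i (x, x) = 1 / b := by
      intro x hx
      unfold w0
      rw [if_neg hi0, if_pos ⟨rfl, mem_range.2 hx⟩, card_range]
    have hnn : ∀ a a' : ℕ × ℕ, 0 ≤ (if a.1 ≠ a'.1 ∧ a.2 ≠ a'.2 then w0 b i a * w0 b i a' else 0) := by
      intro a a'
      have : ∀ a, 0 ≤ w0 b i a := by
        intro a
        unfold w0
        split_ifs <;> positivity
      have := mul_nonneg (this a) (this a')
      split_ifs
      · exact this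
      · exact le_rfl
    have m0 : ((0, 0) : ℕ × ℕ) ∈ Q b := by
      unfold Q
      rw [mem_product, mem_range]
      simp only [mem_range]
      omega
    have m1 : ((1, 1) : ℕ × ℕ) ∈ Q b := by
      unfold Q
      rw [mem_product, mem_range]
      simp only [mem_range]
      omega
    calc 1 / (b : ℝ) ^ 2 = if ((0, 0) : ℕ × ℕ).1 ≠ ((1, 1) : ℕ × ℕ).1 ∧ ((0, 0) : ℕ × ℕ).2 ≠ ((1, 1) : ℕ × ℕ).2 then w0 b i (0, 0) * w0 b i (1, 1) else 0 := by
          rw [if_pos (by simp), hw 0 (by omega), hw 1 (by omega)]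
          ring
      _ ≤ ∑ a' ∈ Q b, (if ((0, 0) : ℕ × ℕ).1 ≠ a'.1 ∧ ((0, 0) : ℕ × ℕ).2 ≠ a'.2 then w0 b i (0, 0) * w0 b i a' else 0) :=
          single_le_sum (f := fun a' : ℕ × ℕ => if ((0, 0) : ℕ × ℕ).1 ≠ a'.1 ∧ ((0, 0) : ℕ × ℕ).2 ≠ a'.2 then w0 b i (0, 0) * w0 b i a' else 0)
            (fun a' _ => hnn (0, 0) a') m1
      _ ≤ _ := single_le_sum (f := fun a : ℕ × ℕ => ∑ a' ∈ Q b, if a.1 ≠ a'.1 ∧ a.2 ≠ a'.2 then w0 b i a * w0 b i a' else 0)
            (fun a _ => sum_nonneg fun a' _ => hnn a a') m0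

open Classical in
/-- counting by the uniform law -/
lemma card_le_prob (b m : ℕ) (P : (Fin m → ℕ × ℕ) → Prop) :
    (((Hs b m).filter (fun x => P (fun i => (x i, x i)))).card : ℝ) ≤ (Hs b m).card * ∑ g ∈ Gs b m, (if P g then pw (w0 b) g else 0) := by
  rcases (Hs b m).eq_empty_or_nonempty with he | hne
  · rw [he]; simp
  have hc : (0 : ℝ) < (Hs b m).card := by exact_mod_cast hne.card_pos
  have h1 : ∀ x ∈ Hs b m, pw (w0 b) (fun i => (x i, x i)) = 1 / ((Hs b m).card : ℝ) := by
    intro x hx
    unfold pw Hs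
    unfold Hs at hx
    rw [Fintype.mem_piFinset] at hx
    rw [Fintype.card_piFinset]
    push_cast
    rw [one_div, ← prod_inv_distrib]
    apply prod_congr rfl
    intro i _
    unfold w0
    have := hx i
    rw [if_pos ⟨rfl, this⟩, one_div]
  have h2 : ∑ x ∈ (Hs b m).filter (fun x => P (fun i => (x i, x i))), (1 / ((Hs b m).card : ℝ)) ≤
      ∑ g ∈ Gs b m, (if P g then pw (w0 b) g else 0) := by
    rw [← sum_filter]
    have hinj : Set.InjOn (fun (x : Fin m → ℕ) (i : Fin m) => (x i, x i)) (((Hs b m).filter (fun x => P (fun i => (x i, x i)))) : Set (Fin m → ℕ)) := by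
      intro x _ y _ hxy
      funext i
      have := congrFun hxy i
      simp only [Prod.mk.injEq] at this
      exact this.1
    calc ∑ x ∈ (Hs b m).filter (fun x => P (fun i => (x i, x i))), (1 / ((Hs b m).card : ℝ)) =
          ∑ x ∈ (Hs b m).filter (fun x => P (fun i => (x i, x i))), pw (w0 b) (fun i => (x i, x i)) := by
          apply sum_congr rfl
          intro x hx
          rw [h1 x (mem_filter.1 hx).1]
      _ = ∑ g ∈ ((Hs b m).filter (fun x => P (fun i => (x i, x i)))).image (fun (x : Fin m → ℕ) (i : Fin m) => (x i, x i)), pw (w0 b) g := by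
          rw [sum_image hinj]
      _ ≤ _ := by
          apply sum_le_sum_of_subset_of_nonneg
          · intro g hg
            rw [mem_image] at hg
            obtain ⟨x, hx, rfl⟩ := hg
            rw [mem_filter] at hx
            rw [mem_filter]
            refine ⟨?_, hx.2⟩
            unfold Gs Q
            rw [Fintype.mem_piFinset]
            intro i
            have := (mem_Hs b m x).1 hx.1 i
            rw [mem_product, mem_range]
            exact ⟨this.1, this.1⟩
          · intro g _ _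
            unfold pw
            apply prod_nonneg
            intro i _
            unfold w0
            split_ifs <;> positivity
  rw [sum_const, nsmul_eq_mul, mul_one_div, div_le_iff₀ hc, mul_comm] at h2
  exact h2

end Pool.Agent.TH872.Mir
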