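import Pool.Agent.TH872.An1
import Pool.Agent.TH872.Mir4
import Pool.Agent.TH872.Pal

set_option autoImplicit false

/-! Random permutations of the digits of an arbitrary integer: the law. -/

namespace Pool.Agent.TH872.An
open Finset
open Pool.Agent.H807R2.Dav
open Pool.Agent.W93.DG
open Pool.Agent.W93.RD
open Pool.Agent.W93.AU
open Pool.Agent.TH872.Mir (Far farCount ne_far pow_log' room)

def GG (b : ℕ) : ℕ := (b - 1) * b.factorial

def FA (b : ℕ) (κ : ℤ) : ℕ := GG b * κ.natAbs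

lemma GG_pos (b : ℕ) (hb : 2 ≤ b) : 1 ≤ GG b := Nat.mul_pos (by omega) b.factorial_pos

lemma FA_pos (b : ℕ) (hb : 2 ≤ b) (κ : ℤ) (hκ : κ ≠ 0) : 1 ≤ FA b κ := Nat.mul_pos (GG_pos b hb) (Int.natAbs_pos.2 hκ)

lemma far_pair (b : ℕ) (hb : 2 ≤ b) (i : ℕ) (θ : ℝ) (h : Far (1 / (b : ℝ) ^ 2) ((GG b : ℝ) * ((b : ℝ) ^ i * θ))) (D : ℤ) (hD0 : D ≠ 0)
    (hD : |D| < b) : Far (1 / ((b : ℝ) ^ 2 * GG b)) ((D : ℝ) * ((b : ℝ) ^ (i + 1) - (b : ℝ) ^ i) * θ) := by
  intro n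
  have hb0 : (0 : ℝ) < b := by exact_mod_cast (by omega : 0 < b)
  have hG0 : (0 : ℝ) < GG b := by exact_mod_cast GG_pos b hb
  obtain ⟨m', hm'⟩ : D.natAbs ∣ b.factorial := by
    apply Nat.dvd_factorial (Int.natAbs_pos.2 hD0)
    have : (D.natAbs : ℤ) < b := by rwa [Int.natCast_natAbs]
    omega
  obtain ⟨m, hm⟩ : ∃ m : ℤ, D * m = b.factorial ∧ |m| = m' := by
    rcases le_or_gt 0 D with h0 | h0
    · refine ⟨m', ?_, abs_of_nonneg (by positivity)⟩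
      rw [hm']
      push_cast
      rw [abs_of_nonneg h0]
    · refine ⟨-m', ?_, by rw [abs_neg, abs_of_nonneg (by positivity)]⟩
      rw [hm']
      push_cast
      rw [abs_of_neg h0]
      ring
  obtain ⟨hm1, hm2⟩ := hm
  have h1 := h (m * n)
  have e1 : (GG b : ℝ) * ((b : ℝ) ^ i * θ) - ((m * n : ℤ) : ℝ) = m * ((D : ℝ) * ((b : ℝ) ^ (i + 1) - (b : ℝ) ^ i) * θ - n) := by
    have e2 : (GG b : ℝ) = ((b : ℝ) - 1) * (D * m) := by
      have e3 : ((D * m : ℤ) : ℝ) = (b.factorial : ℝ) := by rw [hm1]; push_cast; rfl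
      push_cast at e3
      rw [e3]
      unfold GG
      rw [Nat.cast_mul, Nat.cast_sub (by omega)]
      push_cast
      ring
    rw [e2]
    push_cast
    ring
  rw [e1, abs_mul] at h1
  have h2 : |(m : ℝ)| ≤ GG b := by
    have : |m| ≤ (GG b : ℤ) := by
      rw [hm2]
      have h3 : m' ≤ b.factorial := by
        rw [hm']
        exact Nat.le_mul_of_pos_left _ (Int.natAbs_pos.2 hD0)
      have h4 : b.factorial ≤ GG b := Nat.le_mul_of_pos_left _ (by omega)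
      exact_mod_cast h3.trans h4
    exact_mod_cast this
  have h5 : 1 / (b : ℝ) ^ 2 ≤ GG b * |(D : ℝ) * ((b : ℝ) ^ (i + 1) - (b : ℝ) ^ i) * θ - n| :=
    h1.trans (mul_le_mul_of_nonneg_right h2 (abs_nonneg _))
  rw [div_le_iff₀ (by positivity)] at h5
  rw [div_le_iff₀ (by positivity)]
  linarith

lemma eta_le {b k : ℕ} {η : ℝ} {d : Fin k → ℕ} (hd : Spread b k η d) (hk : 0 < k) : η ≤ 1 := by
  have h1 := hd.few 0
  have h2 : (0 : ℝ) ≤ ((univ.filter fun i => d i = 0).card : ℝ) := Nat.cast_nonneg _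
  have h3 : (0 : ℝ) < k := by exact_mod_cast hk
  by_contra hcon
  push Not at hcon
  nlinarith

/-- the law of the permuted digits -/
theorem an_law (b : ℕ) (hb : 2 ≤ b) (η : ℝ) (hη : 0 < η) (κ : ℤ) (e V' : ℕ) : ∃ D K₀ : ℕ, ∀ k K : ℕ, K = k + e → K₀ ≤ K →
    ∀ d : Fin k → ℕ, Spread b k η d → ∀ cc : ℤ,
    Law b (FA b κ) D V' K (univ : Finset (Equiv.Perm (Fin k))) (fun _ => 1 / (k.factorial : ℝ)) (fun σ => cc + κ * (V b d σ : ℕ)) := by
  classical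
  have hbr : (2 : ℝ) ≤ b := by exact_mod_cast hb
  have hb0 : (0 : ℝ) < b := by linarith
  have hG0 : (0 : ℝ) < GG b := by exact_mod_cast GG_pos b hb
  have hG1 : (1 : ℝ) ≤ GG b := by exact_mod_cast GG_pos b hb
  obtain ⟨δ, hδ⟩ : ∃ δ, δ = 1 / ((b : ℝ) ^ 2 * GG b) := ⟨_, rfl⟩
  have hδ0 : 0 < δ := by rw [hδ]; positivity
  have hδ1 : δ ≤ 1 / 2 := by
    rw [hδ]
    apply div_le_div_of_nonneg_left (by norm_num) (by norm_num)
    nlinarith
  obtain ⟨γ, hγ⟩ : ∃ γ, γ = 1 - 2 * δ ^ 2 * (η / 2) := ⟨_, rfl⟩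
  have hγ1 : γ < 1 := by
    rw [hγ]
    have : 0 < 2 * δ ^ 2 * (η / 2) := by positivity
    linarith
  obtain ⟨v, hv⟩ : ∃ v : ℕ, (max γ 0) ^ v < 1 / b :=
    exists_pow_lt_of_lt_one (show (0 : ℝ) < 1 / b by positivity) (max_lt hγ1 one_pos)
  obtain ⟨τ, hτ⟩ := exists_nat_ge (4 * (v * V' : ℕ) / η : ℝ)
  obtain ⟨k3, hk3⟩ := room b hb τ (e + 2)
  refine ⟨2 * (v * V') + (e + 3), k3 + e + 2, fun k K hK hK0 d hd cc => ⟨fun _ _ => by positivity, ?_, ?_⟩⟩
  · rw [sum_const, card_univ, Fintype.card_perm, Fintype.card_fin, nsmul_eq_mul, mul_one_div, div_self]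
    exact_mod_cast k.factorial_ne_zero
  intro t ht
  have hk0 : 0 < k := by omega
  have hη1 := eta_le hd hk0
  have hγ0 : 0 ≤ γ := by
    rw [hγ]
    have h1 : δ ^ 2 ≤ (1 / 2) ^ 2 := pow_le_pow_left₀ hδ0.le hδ1 2
    nlinarith [sq_nonneg δ]
  have hroom := hk3 K (by omega)
  obtain ⟨Lg, hLg⟩ : ∃ Lg, Lg = Nat.log b K + 1 := ⟨_, rfl⟩
  rw [← hLg] at hroom ht
  have hKe : b ^ (K + 1) = b ^ (k + e + 1) := by rw [hK]
  obtain ⟨θ, hθ⟩ : ∃ θ : ℝ, θ = κ * ((t : ℝ) / ((b ^ (k + e + 1) : ℕ) : ℝ)) := ⟨_, rfl⟩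
  have h1 : ne b 0 K (FA b κ * t % b ^ (K + 1)) ≤ e + farCount b (GG b) k θ := by
    have := ne_far b (GG b) k e t κ.natAbs κ rfl hb
    rw [hK, hθ]
    exact this
  obtain ⟨R, hR⟩ : ∃ R, R = v * V' * Lg := ⟨_, rfl⟩
  have hfc : 2 * R + 2 ≤ farCount b (GG b) k θ := by
    have h2 := ht.trans h1
    have h3 : 2 * R + (e + 3) ≤ (2 * (v * V') + (e + 3)) * Lg := by
      have : e + 3 ≤ (e + 3) * Lg := Nat.le_mul_of_pos_right _ (by omega)
      calc 2 * R + (e + 3) ≤ 2 * (v * V' * Lg) + (e + 3) * Lg := by rw [hR]; omega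
        _ = _ := by ring
    omega
  obtain ⟨T, hT⟩ : ∃ T : Finset ℕ, T = (range (k - 1)).filter (fun j => Far (1 / (b : ℝ) ^ 2) ((GG b : ℝ) * ((b : ℝ) ^ j * θ))) := ⟨_, rfl⟩
  have hTc : 2 * R + 1 ≤ T.card := by
    have h2 : (range k).filter (fun j => Far (1 / (b : ℝ) ^ 2) ((GG b : ℝ) * ((b : ℝ) ^ j * θ))) ⊆ insert (k - 1) T := by
      intro j hj
      rw [mem_filter, mem_range] at hj
      rw [mem_insert, hT, mem_filter, mem_range]
      by_cases c : j = k - 1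
      · left; exact c
      · right; exact ⟨by omega, hj.2⟩
    have h3 := (card_le_card h2).trans (card_insert_le _ _)
    unfold farCount at hfc
    omega
  have hpar : ∃ r : ℕ, R ≤ (T.filter (fun j => j % 2 = r)).card := by
    have h2 := card_filter_add_card_filter_not (s := T) (fun j => j % 2 = 0)
    by_cases c : R ≤ (T.filter (fun j => j % 2 = 0)).card
    · exact ⟨0, c⟩
    · refine ⟨1, ?_⟩
      have h3 : (T.filter (fun j => j % 2 = 1)).card = (T.filter (fun j => ¬ j % 2 = 0)).card := by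
        congr 1
        apply filter_congr
        intro j _
        omega
      omega
  obtain ⟨r, hr⟩ := hpar
  obtain ⟨J, hJs, hJc⟩ := exists_subset_card_eq hr
  have hJT : ∀ j ∈ J, j + 1 < k ∧ j % 2 = r ∧ Far (1 / (b : ℝ) ^ 2) ((GG b : ℝ) * ((b : ℝ) ^ j * θ)) := by
    intro j hj
    have h2 := hJs hj
    rw [mem_filter, hT, mem_filter, mem_range] at h2
    exact ⟨by omega, h2.2, h2.1.2⟩
  obtain ⟨x, hx⟩ : ∃ x : ℕ → Fin k, ∀ j, j + 1 < k → ((x j : Fin k) : ℕ) = j + 1 := by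
    refine ⟨fun j => if h : j + 1 < k then ⟨j + 1, h⟩ else ⟨0, hk0⟩, fun j hj => ?_⟩
    simp only [hj, dif_pos]
  obtain ⟨y, hy⟩ : ∃ y : ℕ → Fin k, ∀ j, j + 1 < k → ((y j : Fin k) : ℕ) = j := by
    refine ⟨fun j => if h : j + 1 < k then ⟨j, by omega⟩ else ⟨0, hk0⟩, fun j hj => ?_⟩
    simp only [hj, dif_pos]
  have hdec := char_small b hd hη.le θ δ hδ0.le hδ1 x y J (by
      intro i hi j hj hcon
      have a1 := hJT i hi
      have a2 := hJT j hj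
      have a3 := congrArg Fin.val hcon
      rw [hx i a1.1, hy j a2.1] at a3
      omega) (by
      intro i hi j hj hcon
      have a1 := hJT i hi
      have a2 := hJT j hj
      have a3 := congrArg Fin.val hcon
      rw [hx i a1.1, hx j a2.1] at a3
      omega) (by
      intro i hi j hj hcon
      have a1 := hJT i hi
      have a2 := hJT j hj
      have a3 := congrArg Fin.val hcon
      rw [hy i a1.1, hy j a2.1] at a3
      omega) (by
      rw [hJc, hR]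
      have e1 : ((τ * Lg : ℕ) : ℝ) ≤ k := by exact_mod_cast (by omega : τ * Lg ≤ k)
      have e2 : 4 * ((v * V' : ℕ) : ℝ) ≤ τ * η := by rwa [div_le_iff₀ hη] at hτ
      have e3 : (0 : ℝ) ≤ Lg := Nat.cast_nonneg _
      have e4 := mul_le_mul_of_nonneg_right e2 e3
      have e5 := mul_le_mul_of_nonneg_left e1 (by linarith : 0 ≤ η / 2)
      push_cast at e4 e5 ⊢
      nlinarith) (by
      intro j hj D hD0 hD
      have a1 := hJT j hj
      rw [hx j a1.1, hy j a1.1, hδ]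
      exact far_pair b hb j θ a1.2.2 D hD0 hD)
  have hshift : ∑ σ : Equiv.Perm (Fin k), (((1 / (k.factorial : ℝ) : ℝ)) : ℂ) *
      ee (((cc + κ * (V b d σ : ℕ) : ℤ) : ℝ) * ((t : ℝ) / ((b ^ (K + 1) : ℕ) : ℝ))) =
      ee ((cc : ℝ) * ((t : ℝ) / ((b ^ (K + 1) : ℕ) : ℝ))) *
        ∑ σ : Equiv.Perm (Fin k), (((1 / (k.factorial : ℝ) : ℝ)) : ℂ) * ee ((V b d σ : ℝ) * θ) := by
    rw [mul_sum]
    apply sum_congr rfl
    intro σ _
    have : ee (((cc + κ * (V b d σ : ℕ) : ℤ) : ℝ) * ((t : ℝ) / ((b ^ (K + 1) : ℕ) : ℝ))) =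
        ee ((cc : ℝ) * ((t : ℝ) / ((b ^ (K + 1) : ℕ) : ℝ))) * ee ((V b d σ : ℝ) * θ) := by
      rw [← ee_add, hKe, hθ]
      congr 1
      push_cast
      ring
    rw [this]
    ring
  rw [hshift, norm_mul, norm_ee, one_mul]
  refine hdec.trans ?_
  rw [← hγ, hJc, hR, hLg]
  have h5 : γ ^ (v * V' * (Nat.log b K + 1)) ≤ (1 / (b : ℝ)) ^ (V' * (Nat.log b K + 1)) := by
    rw [mul_assoc, pow_mul]
    apply pow_le_pow_left₀ (by positivity)
    refine (pow_le_pow_left₀ hγ0 (le_max_left γ 0) v).trans hv.le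
  refine h5.trans ?_
  have hK1 : 0 < K := by omega
  rw [one_div_pow]
  apply div_le_div_of_nonneg_left (by norm_num) (by
    have : (0 : ℝ) < K := by exact_mod_cast hK1
    positivity)
  have h6 : (K : ℝ) ≤ (b : ℝ) ^ (Nat.log b K + 1) := by
    have := Nat.lt_pow_succ_log_self (b := b) (by omega) K
    exact_mod_cast this.le
  calc (K : ℝ) ^ V' ≤ ((b : ℝ) ^ (Nat.log b K + 1)) ^ V' := pow_le_pow_left₀ (Nat.cast_nonneg _) h6 _
    _ = _ := by rw [← pow_mul]; congr 1; ring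

/-! ### short intervals -/

/-- the digit at the place `j`, as a function on the integers -/
def dg {k : ℕ} (d : Fin k → ℕ) (σ : Equiv.Perm (Fin k)) (i : ℕ) : ℕ := if h : i < k then d (σ ⟨i, h⟩) else 0

lemma V_eq (b : ℕ) {k : ℕ} (d : Fin k → ℕ) (σ : Equiv.Perm (Fin k)) : V b d σ = ∑ i ∈ range k, dg d σ i * b ^ i := by
  unfold V
  rw [← Fin.sum_univ_eq_sum_range (fun i => dg d σ i * b ^ i) k]
  apply sum_congr rfl
  intro i _
  unfold dg
  rw [dif_pos i.2]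

lemma dg_lt {b k : ℕ} {η : ℝ} {d : Fin k → ℕ} (hd : Spread b k η d) (hb : 0 < b) (σ : Equiv.Perm (Fin k)) (i : ℕ) : dg d σ i < b := by
  unfold dg
  split_ifs
  · exact hd.lt _
  · exact hb

lemma V_lt {b k : ℕ} {η : ℝ} {d : Fin k → ℕ} (hd : Spread b k η d) (hb : 0 < b) (σ : Equiv.Perm (Fin k)) : V b d σ < b ^ k := by
  rw [V_eq]
  exact Pool.Agent.TH872.Mir.sum_lt_pow b _ k fun i _ => dg_lt hd hb σ i

/-- a prescribed top part is rare -/
lemma top_rare {b k : ℕ} {η : ℝ} {d : Fin k → ℕ} (hd : Spread b k η d) (hb : 0 < b) (hη : 0 ≤ η) (hk : 0 < k) (T : ℕ) (hT : T ≤ k)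
    (hT2 : (T : ℝ) ≤ η / 2 * k) (A : ℕ) :
    ∑ σ : Equiv.Perm (Fin k), (if V b d σ / b ^ (k - T) = A then (1 : ℝ) else 0) ≤ (1 - η / 2) ^ T * k.factorial := by
  classical
  obtain ⟨y, hy⟩ : ∃ y : ℕ → Fin k, ∀ j, j < T → ((y j : Fin k) : ℕ) = k - 1 - j := by
    refine ⟨fun j => if h : k - 1 - j < k then ⟨k - 1 - j, h⟩ else ⟨0, hk⟩, fun j hj => ?_⟩
    simp only [(by omega : k - 1 - j < k), dif_pos]
  have h1 := prescribed hd hη (eta_le hd hk) y (fun j => A / b ^ (T - 1 - j) % b) (range T) (by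
    intro i hi j hj h
    rw [mem_range] at hi hj
    have a3 := congrArg Fin.val h
    rw [hy i hi, hy j hj] at a3
    omega) (by rw [card_range]; exact hT2)
  rw [card_range] at h1
  refine le_trans (sum_le_sum fun σ _ => ?_) h1
  split_ifs with hA
  · rw [prod_eq_one]
    intro j hj
    rw [mem_range] at hj
    rw [if_pos]
    have e1 := Pool.Agent.TH872.Mir.digit_sum b hb (dg d σ) k (fun i _ => dg_lt hd hb σ i) (k - 1 - j) (by omega)
    rw [← V_eq] at e1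
    have e2 : dg d σ (k - 1 - j) = d (σ (y j)) := by
      unfold dg
      rw [dif_pos (by omega : k - 1 - j < k)]
      congr 2
      apply Fin.ext
      rw [hy j hj]
    rw [← e2, ← e1, ← hA, Nat.div_div_eq_div_mul, ← pow_add]
    congr 3
    omega
  · exact prod_nonneg fun j _ => by split_ifs <;> norm_num

lemma an_interval {b k : ℕ} {η : ℝ} {d : Fin k → ℕ} (hd : Spread b k η d) (hb : 0 < b) (hη : 0 ≤ η) (hk : 0 < k) (T : ℕ) (hT : T ≤ k)
    (hT2 : (T : ℝ) ≤ η / 2 * k) (Sm : Equiv.Perm (Fin k) → Prop) [DecidablePred Sm]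
    (hSm : ∀ σ σ', Sm σ → Sm σ' → V b d σ' < V b d σ + b ^ (k - T)) :
    ∑ σ : Equiv.Perm (Fin k), (if Sm σ then 1 / (k.factorial : ℝ) else 0) ≤ 2 * (1 - η / 2) ^ T := by
  classical
  have hη1 := eta_le hd hk
  have hfac : (0 : ℝ) < (k.factorial : ℝ) := by exact_mod_cast k.factorial_pos
  by_cases hne : ∃ σ, Sm σ
  swap
  · push Not at hne
    have : ∑ σ : Equiv.Perm (Fin k), (if Sm σ then 1 / (k.factorial : ℝ) else 0) = 0 := by
      apply sum_eq_zero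
      intro σ _
      rw [if_neg (hne σ)]
    rw [this]
    have : 0 ≤ 1 - η / 2 := by linarith
    positivity
  obtain ⟨σ₀, h₀, hmin⟩ : ∃ σ₀, Sm σ₀ ∧ ∀ σ, Sm σ → V b d σ₀ ≤ V b d σ := by
    obtain ⟨σ₁, h₁⟩ := hne
    have hn : (univ.filter Sm).Nonempty := ⟨σ₁, mem_filter.2 ⟨mem_univ _, h₁⟩⟩
    obtain ⟨σ₀, h2, h3⟩ := exists_min_image (univ.filter Sm) (fun σ => V b d σ) hn
    rw [mem_filter] at h2
    exact ⟨σ₀, h2.2, fun σ hσ => h3 σ (mem_filter.2 ⟨mem_univ _, hσ⟩)⟩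
  obtain ⟨A, hA⟩ : ∃ A, A = V b d σ₀ / b ^ (k - T) := ⟨_, rfl⟩
  have hpos : 0 < b ^ (k - T) := Nat.pow_pos hb
  have hcov : ∀ σ, Sm σ → V b d σ / b ^ (k - T) = A ∨ V b d σ / b ^ (k - T) = A + 1 := by
    intro σ hσ
    have h1 := hmin σ hσ
    have h2 := hSm σ₀ σ h₀ hσ
    have h3 : A ≤ V b d σ / b ^ (k - T) := by rw [hA]; exact Nat.div_le_div_right h1
    have h4 : V b d σ / b ^ (k - T) ≤ A + 1 := by
      have : V b d σ / b ^ (k - T) ≤ (V b d σ₀ + b ^ (k - T)) / b ^ (k - T) := Nat.div_le_div_right h2.le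
      rwa [Nat.add_div_right _ hpos, ← hA] at this
    omega
  have h5 : ∑ σ : Equiv.Perm (Fin k), (if Sm σ then 1 / (k.factorial : ℝ) else 0) ≤
      1 / (k.factorial : ℝ) * (∑ σ : Equiv.Perm (Fin k), (if V b d σ / b ^ (k - T) = A then (1 : ℝ) else 0) +
        ∑ σ : Equiv.Perm (Fin k), (if V b d σ / b ^ (k - T) = A + 1 then (1 : ℝ) else 0)) := by
    rw [← sum_add_distrib, mul_sum]
    apply sum_le_sum
    intro σ _
    by_cases c : Sm σ
    · rw [if_pos c]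
      rcases hcov σ c with h | h
      · rw [if_pos h]
        have : (0 : ℝ) ≤ (if V b d σ / b ^ (k - T) = A + 1 then (1 : ℝ) else 0) := by split_ifs <;> norm_num
        have h6 : (0 : ℝ) < 1 / (k.factorial : ℝ) := by positivity
        nlinarith
      · rw [if_pos h]
        have : (0 : ℝ) ≤ (if V b d σ / b ^ (k - T) = A then (1 : ℝ) else 0) := by split_ifs <;> norm_num
        have h6 : (0 : ℝ) < 1 / (k.factorial : ℝ) := by positivity
        nlinarith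
    · rw [if_neg c]
      have h1 : (0 : ℝ) ≤ (if V b d σ / b ^ (k - T) = A then (1 : ℝ) else 0) := by split_ifs <;> norm_num
      have h2 : (0 : ℝ) ≤ (if V b d σ / b ^ (k - T) = A + 1 then (1 : ℝ) else 0) := by split_ifs <;> norm_num
      positivity
  refine h5.trans ?_
  have a1 := top_rare hd hb hη hk T hT hT2 A
  have a2 := top_rare hd hb hη hk T hT hT2 (A + 1)
  calc _ ≤ 1 / (k.factorial : ℝ) * ((1 - η / 2) ^ T * k.factorial + (1 - η / 2) ^ T * k.factorial) :=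
        mul_le_mul_of_nonneg_left (add_le_add a1 a2) (by positivity)
    _ = _ := by field_simp; ring

/-- small values are rare -/
lemma an_small (b : ℕ) (hb : 2 ≤ b) (η : ℝ) (hη : 0 < η) (κ : ℤ) (hκ : κ ≠ 0) (e U : ℕ) : ∃ W K₀ : ℕ, ∀ K : ℕ, K₀ ≤ K →
    ∀ k, K = k + e → ∀ d : Fin k → ℕ, Spread b k η d → ∀ cc : ℤ, ∀ Sm : Equiv.Perm (Fin k) → Prop, [DecidablePred Sm] →
    (∀ σ, Sm σ → 1 ≤ cc + κ * (V b d σ : ℕ) ∧
      ((cc + κ * (V b d σ : ℕ) : ℤ) : ℝ) < ((b ^ K : ℕ) : ℝ) / Real.log ((b ^ K : ℕ) : ℝ) ^ (W + 1)) →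
    ∑ σ : Equiv.Perm (Fin k), (if Sm σ then 1 / (k.factorial : ℝ) else 0) ≤ 1 / (K : ℝ) ^ (U + 1) := by
  have hbr : (2 : ℝ) ≤ b := by exact_mod_cast hb
  have hb0 : (0 : ℝ) < b := by linarith
  have hlogB : 0 < Real.log b := Real.log_pos (by linarith)
  obtain ⟨τ, hτ⟩ : ∃ τ : ℕ, (max (1 - η / 2) 0) ^ τ < (1 / (b : ℝ)) ^ (U + 2) :=
    exists_pow_lt_of_lt_one (show (0 : ℝ) < (1 / b) ^ (U + 2) by positivity) (max_lt (by linarith) one_pos)
  obtain ⟨τ', hτ'⟩ := exists_nat_ge (2 * (τ : ℝ) / η)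
  obtain ⟨k2, hk2⟩ := exists_nat_ge ((b : ℝ) ^ (e + τ + 1) / Real.log b ^ (τ + 1))
  obtain ⟨k3, hk3⟩ := room b hb (τ + τ') (2 + e + 4)
  refine ⟨τ, k2 + k3 + 4, fun K hK k hk d hd cc Sm _ hSm => ?_⟩
  have hK1 : 1 ≤ K := by omega
  have hKr : (1 : ℝ) ≤ K := by exact_mod_cast hK1
  have hK4 : (4 : ℝ) ≤ K := by exact_mod_cast (by omega : 4 ≤ K)
  have hroom := hk3 K (by omega)
  obtain ⟨Lg, hLg⟩ : ∃ Lg, Lg = Nat.log b K := ⟨_, rfl⟩
  rw [← hLg] at hroom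
  obtain ⟨T, hT⟩ : ∃ T, T = τ * (Lg + 1) := ⟨_, rfl⟩
  have hsplit : (τ + τ') * (Lg + 1) = τ * (Lg + 1) + τ' * (Lg + 1) := by ring
  have hTk : T ≤ k := by omega
  have hk0 : 0 < k := by omega
  have hη1 := eta_le hd hk0
  have hT2 : (T : ℝ) ≤ η / 2 * k := by
    have e1 : ((τ' * (Lg + 1) : ℕ) : ℝ) ≤ k := by exact_mod_cast (by omega : τ' * (Lg + 1) ≤ k)
    have e2 : 2 * (τ : ℝ) ≤ τ' * η := by rwa [div_le_iff₀ hη] at hτ'
    have e4 := mul_le_mul_of_nonneg_right e2 (by positivity : (0 : ℝ) ≤ (Lg : ℝ) + 1)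
    have e5 := mul_le_mul_of_nonneg_left e1 (by linarith : 0 ≤ η / 2)
    rw [hT]
    push_cast at e4 e5 ⊢
    nlinarith
  obtain ⟨l, hl⟩ : ∃ l, l = k - T := ⟨_, rfl⟩
  have hR : ((b ^ K : ℕ) : ℝ) / Real.log ((b ^ K : ℕ) : ℝ) ^ (τ + 1) ≤ (b : ℝ) ^ l := by
    have e0 : Real.log ((b ^ K : ℕ) : ℝ) = K * Real.log b := by
      push_cast
      rw [Real.log_pow]
    have e1 : (b : ℝ) ^ Lg ≤ K := by
      rw [hLg]
      exact_mod_cast Nat.pow_log_le_self b (by omega)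
    have e2 : ((b ^ K : ℕ) : ℝ) = (b : ℝ) ^ l * ((b : ℝ) ^ (e + τ) * ((b : ℝ) ^ Lg) ^ τ) := by
      push_cast
      rw [← pow_mul, ← pow_add, ← pow_add]
      congr 1
      rw [hk, hl, mul_comm Lg τ]
      have : τ * (Lg + 1) = τ * Lg + τ := by ring
      omega
    have hlog0 : 0 < (K : ℝ) * Real.log b := by positivity
    rw [e0, div_le_iff₀ (by positivity), e2]
    apply mul_le_mul_of_nonneg_left _ (by positivity)
    rw [mul_pow, pow_succ (K : ℝ)]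
    have e3 : (b : ℝ) ^ (e + τ) ≤ K * Real.log b ^ (τ + 1) := by
      rw [div_le_iff₀ (by positivity)] at hk2
      have e5 : (b : ℝ) ^ (e + τ) ≤ (b : ℝ) ^ (e + τ + 1) := pow_le_pow_right₀ (by linarith) (by omega)
      refine e5.trans (hk2.trans (mul_le_mul_of_nonneg_right ?_ (by positivity)))
      exact_mod_cast (by omega : k2 ≤ K)
    calc (b : ℝ) ^ (e + τ) * ((b : ℝ) ^ Lg) ^ τ ≤ (K * Real.log b ^ (τ + 1)) * (K : ℝ) ^ τ :=
          mul_le_mul e3 (pow_le_pow_left₀ (by positivity) e1 τ) (by positivity) (by positivity)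
      _ = _ := by ring
  have hint := an_interval hd (by omega) hη.le hk0 T hTk hT2 Sm (by
    intro σ σ' hg hg'
    obtain ⟨a5, a1⟩ := hSm σ hg
    obtain ⟨a6, a2⟩ := hSm σ' hg'
    rw [← hl]
    obtain ⟨v, hv⟩ : ∃ v, v = V b d σ := ⟨_, rfl⟩
    obtain ⟨v', hv'⟩ : ∃ v', v' = V b d σ' := ⟨_, rfl⟩
    rw [← hv] at a1 a5 ⊢
    rw [← hv'] at a2 a6 ⊢
    have a3 : cc + κ * v < (b : ℤ) ^ l := by exact_mod_cast lt_of_lt_of_le a1 hR
    have a4 : cc + κ * v' < (b : ℤ) ^ l := by exact_mod_cast lt_of_lt_of_le a2 hR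
    by_contra hcon
    push Not at hcon
    have a7 : (v : ℤ) + (b : ℤ) ^ l ≤ v' := by exact_mod_cast hcon
    have hbl : (0 : ℤ) < (b : ℤ) ^ l := by positivity
    rcases lt_or_gt_of_ne hκ with h | h
    · have : κ * ((v' : ℤ) - v) ≤ -1 * ((v' : ℤ) - v) := by
        apply mul_le_mul_of_nonneg_right (by omega)
        linarith
      linarith
    · have : 1 * ((v' : ℤ) - v) ≤ κ * ((v' : ℤ) - v) := by
        apply mul_le_mul_of_nonneg_right (by omega)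
        linarith
      linarith)
  refine hint.trans ?_
  have h1 : (1 - η / 2) ^ T ≤ 1 / (K : ℝ) ^ (U + 2) := by
    rw [hT, hLg]
    apply pow_log' b hb _ (by linarith) _ _ _ K hK1
    have : max (1 - η / 2) 0 = 1 - η / 2 := max_eq_left (by linarith)
    rw [this] at hτ
    exact hτ.le
  have hKp : (0 : ℝ) < (K : ℝ) ^ (U + 1) := by positivity
  calc 2 * (1 - η / 2) ^ T ≤ 2 * (1 / (K : ℝ) ^ (U + 2)) := mul_le_mul_of_nonneg_left h1 (by norm_num)
    _ = 2 / K * (1 / (K : ℝ) ^ (U + 1)) := by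
        rw [pow_succ (K : ℝ) (U + 1)]
        field_simp
    _ ≤ 1 * (1 / (K : ℝ) ^ (U + 1)) := by
        apply mul_le_mul_of_nonneg_right _ (by positivity)
        rw [div_le_one (by linarith)]
        linarith
    _ = _ := one_mul _

end Pool.Agent.TH872.An
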