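import Pool.Agent.TH872.An3
import Pool.Agent.TH872.Mir6

set_option autoImplicit false

/-! The level of distribution on average, with absolute values over all moduli, for an arbitrary law. -/

namespace Pool.Agent.TH872.An
open Finset
open Pool.Agent.H807R2.Dav
open Pool.Agent.H373R2.T7
open Pool.Agent.W93.DG
open Pool.Agent.W93.AU
open Pool.Agent.W93.LV

lemma ap_card (q a x y : ℕ) (hq : 1 ≤ q) (hxy : x ≤ y) :
    (((Ioc x y).filter (fun n => n ≡ a [MOD q])).card : ℝ) ≤ ((y : ℝ) - x) / q + 1 := by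
  have h1 := Nat.Ioc_filter_modEq_card x y (by omega : 0 < q) a
  have hq0 : (0 : ℚ) < q := by exact_mod_cast (by omega : 0 < q)
  have h3 : (((Ioc x y).filter (fun n => n ≡ a [MOD q])).card : ℚ) ≤ ((y : ℚ) - x) / q + 1 := by
    have h4 : (((Ioc x y).filter (fun n => n ≡ a [MOD q])).card : ℚ) =
        ((max (⌊((y : ℚ) - a) / q⌋ - ⌊((x : ℚ) - a) / q⌋) 0 : ℤ) : ℚ) := by
      rw [← h1]
      push_cast
      rfl
    rw [h4]
    have h5 : (0 : ℚ) ≤ ((y : ℚ) - x) / q := div_nonneg (by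
      have : (x : ℚ) ≤ y := by exact_mod_cast hxy
      linarith) hq0.le
    rw [Int.cast_max]
    apply max_le
    · push_cast
      have h6 := Int.floor_le (((y : ℚ) - a) / q)
      have h7 := Int.lt_floor_add_one (((x : ℚ) - a) / q)
      have h8 : ((y : ℚ) - a) / q - ((x : ℚ) - a) / q = ((y : ℚ) - x) / q := by ring
      linarith
    · push_cast
      linarith
  have h9 : ((((Ioc x y).filter (fun n => n ≡ a [MOD q])).card : ℚ) : ℝ) ≤ ((((y : ℚ) - x) / q + 1 : ℚ) : ℝ) := by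
    exact_mod_cast h3
  push_cast at h9
  exact h9

/-- the error term -/
noncomputable def Er (x q a : ℕ) : ℝ := Fu (fun n => ArithmeticFunction.vonMangoldt n) x q a - (x : ℝ) / Nat.totient q

lemma Er_diff (x y q a X : ℕ) (hq : 1 ≤ q) (hxy : x ≤ y) (hyX : y ≤ X) :
    |Er y q a - Er x q a| ≤ Real.log X * (((y : ℝ) - x) / q + 1) + ((y : ℝ) - x) * (1 / Nat.totient q) := by
  have hφ : (0 : ℝ) < Nat.totient q := by exact_mod_cast Nat.totient_pos.2 hq
  have hd : (0 : ℝ) ≤ (y : ℝ) - x := by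
    have : (x : ℝ) ≤ y := by exact_mod_cast hxy
    linarith
  have h1 : Fu (fun n => ArithmeticFunction.vonMangoldt n) y q a = Fu (fun n => ArithmeticFunction.vonMangoldt n) x q a +
      ∑ n ∈ (Ioc x y).filter (fun n => n ≡ a [MOD q]), ArithmeticFunction.vonMangoldt n := by
    unfold Fu
    rw [← sum_union]
    · congr 1
      ext n
      simp only [mem_union, mem_filter, mem_Icc, mem_Ioc]
      constructor
      · rintro ⟨h, h'⟩
        by_cases hn : n ≤ x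
        · exact Or.inl ⟨⟨h.1, hn⟩, h'⟩
        · exact Or.inr ⟨⟨by omega, h.2⟩, h'⟩
      · rintro (⟨h, h'⟩ | ⟨h, h'⟩)
        · exact ⟨⟨h.1, by omega⟩, h'⟩
        · exact ⟨⟨by omega, h.2⟩, h'⟩
    · rw [disjoint_left]
      intro n h1 h2
      simp only [mem_filter, mem_Icc, mem_Ioc] at h1 h2
      omega
  have h2 : ∑ n ∈ (Ioc x y).filter (fun n => n ≡ a [MOD q]), ArithmeticFunction.vonMangoldt n ≤ Real.log X * (((y : ℝ) - x) / q + 1) := by
    calc ∑ n ∈ (Ioc x y).filter (fun n => n ≡ a [MOD q]), ArithmeticFunction.vonMangoldt n ≤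
        ∑ n ∈ (Ioc x y).filter (fun n => n ≡ a [MOD q]), Real.log X := by
          apply sum_le_sum
          intro n hn
          rw [mem_filter, mem_Ioc] at hn
          refine ArithmeticFunction.vonMangoldt_le_log.trans ?_
          exact Real.log_le_log (by exact_mod_cast (by omega : 0 < n)) (by exact_mod_cast hn.1.2.trans hyX)
      _ = Real.log X * ((Ioc x y).filter (fun n => n ≡ a [MOD q])).card := by
          rw [sum_const, nsmul_eq_mul]; ring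
      _ ≤ _ := mul_le_mul_of_nonneg_left (ap_card q a x y hq hxy) (Real.log_natCast_nonneg X)
  have h3 : 0 ≤ ∑ n ∈ (Ioc x y).filter (fun n => n ≡ a [MOD q]), ArithmeticFunction.vonMangoldt n :=
    sum_nonneg (fun _ _ => ArithmeticFunction.vonMangoldt_nonneg)
  have h4 : Er y q a - Er x q a = ∑ n ∈ (Ioc x y).filter (fun n => n ≡ a [MOD q]), ArithmeticFunction.vonMangoldt n -
      ((y : ℝ) - x) * (1 / Nat.totient q) := by
    unfold Er
    rw [h1]
    ring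
  have h5 : 0 ≤ ((y : ℝ) - x) * (1 / Nat.totient q) := by positivity
  rw [h4, abs_le]
  constructor <;> linarith

lemma Er_zero (q a : ℕ) : Er 0 q a = 0 := by
  unfold Er Fu
  simp

lemma sum_bound (Q X : ℕ) (hQX : Q ≤ X) (w : ℝ) (hw : 0 ≤ w) :
    ∑ q ∈ Icc 1 Q, (Real.log X * (w / q + 1) + w * (1 / (Nat.totient q : ℝ))) ≤
      Real.log X * (w * (1 + Real.log X) + Q) + w * (1 + Real.log X) ^ 2 := by
  have hl := Real.log_natCast_nonneg X
  have k1 := harm_le Q X hQX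
  have k2 := inv_phi_sum Q X hQX
  have e1 : ∑ q ∈ Icc 1 Q, (Real.log X * (w / q + 1) + w * (1 / (Nat.totient q : ℝ))) =
      Real.log X * (w * ∑ q ∈ Icc 1 Q, 1 / (q : ℝ) + Q) + w * ∑ q ∈ Icc 1 Q, 1 / (Nat.totient q : ℝ) := by
    rw [sum_add_distrib, mul_sum, mul_add, mul_sum, mul_sum]
    congr 1
    have : ∀ q ∈ Icc 1 Q, Real.log X * (w / q + 1) = Real.log X * (w * (1 / (q : ℝ))) + Real.log X := by
      intro q _
      ring
    rw [sum_congr rfl this, sum_add_distrib, sum_const, nsmul_eq_mul, Nat.card_Icc, Nat.add_sub_cancel]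
    ring
  rw [e1]
  gcongr

/-- absolute values over all moduli, an average over the law -/
theorem av_law (b F : ℕ) (hb : 2 ≤ b) (hF : 1 ≤ F) (ε : ℝ) (hε : 0 < ε) (T₀ U₀ : ℕ) :
    ∃ V : ℕ, ∀ D : ℕ, ∃ K₀ : ℕ, ∀ K : ℕ, K₀ ≤ K → ∀ (ι : Type) (Ω : Finset ι) (p : ι → ℝ) (Y : ι → ℤ),
    Law b F D V K Ω p Y → (∀ ω ∈ Ω, -((b ^ K : ℕ) : ℤ) < Y ω ∧ Y ω ≤ ((b ^ (K - 1) : ℕ) : ℤ)) →
    ∀ c : ι → ℝ, (∀ ω, |c ω| ≤ (K : ℝ) ^ T₀) → ∀ x : ℕ → ℕ, (∀ q, x q ≤ b ^ (K - 1)) →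
    ∀ Q : ℕ, (Q : ℝ) ≤ ((b ^ K : ℕ) : ℝ) ^ (1 - ε) →
    ∑ q ∈ Icc 1 Q, |∑ ω ∈ Ω.filter (fun ω => 0 < Y ω ∧ (Y ω).toNat.Coprime q), p ω * (c ω * Er (x q) q (Y ω).toNat)| ≤
      ((b ^ K : ℕ) : ℝ) / (K : ℝ) ^ U₀ := by
  classical
  obtain ⟨m, hm⟩ : ∃ m, m = T₀ + U₀ + 10 := ⟨_, rfl⟩
  obtain ⟨U₁, hU₁⟩ : ∃ U₁, U₁ = m + T₀ + U₀ + 12 := ⟨_, rfl⟩
  obtain ⟨V, hV⟩ := Pool.Agent.TH872.Mir.lv_law b F hb hF ε hε 0 U₁
  refine ⟨V, fun D => ?_⟩
  obtain ⟨k₀, H2⟩ := hV D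
  obtain ⟨k₁, H3⟩ := pow_small ε (2 ^ (T₀ + U₀ + 10)) hε (T₀ + U₀ + 10)
  refine ⟨k₀ + k₁ + b + 8, fun K hK ι Ω p Y hlaw hY c hc x hx Q hQ => ?_⟩
  obtain ⟨X, hX⟩ : ∃ X, X = b ^ K := ⟨_, rfl⟩
  have hbX : b ^ (K - 1) ≤ X := by rw [hX]; exact Nat.pow_le_pow_right (by omega) (by omega)
  obtain ⟨X', hX'⟩ : ∃ X', X' = b ^ (K - 1) := ⟨_, rfl⟩
  rw [← hX'] at hbX hx
  have hX'1 : 1 ≤ X' := by rw [hX']; exact Nat.one_le_pow _ _ (by omega)
  obtain ⟨ch, hch⟩ : ∃ ch : ι → ℕ, ch = fun ω => (Y ω).toNat := ⟨_, rfl⟩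
  have hchT : ∀ ω, (Y ω).toNat = ch ω := fun T => by rw [hch]
  have hKr : (8 : ℝ) ≤ K := by exact_mod_cast (by omega : 8 ≤ K)
  have hK0 : (0 : ℝ) < K := by linarith
  have hK1 : (1 : ℝ) ≤ K := by linarith
  have hX1 : 1 ≤ X := by rw [hX]; exact Nat.one_le_pow _ _ (by omega)
  have hX0 : (0 : ℝ) < X := by exact_mod_cast hX1
  have hKX : K ≤ X := by rw [hX]; exact (Nat.lt_pow_self (by omega)).le
  have hLX : Real.log X ≤ (K : ℝ) ^ 2 := by
    rw [hX]; push_cast; rw [Real.log_pow, pow_two]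
    apply mul_le_mul_of_nonneg_left _ hK0.le
    have h1 : Real.log b ≤ b := (Real.log_le_sub_one_of_pos (by exact_mod_cast (by omega : 0 < b))).trans (by linarith)
    exact h1.trans (by exact_mod_cast (by omega : b ≤ K))
  have hLX0 : 0 ≤ Real.log X := Real.log_natCast_nonneg X
  have hLX1 : 1 + Real.log X ≤ (K : ℝ) ^ 3 := by
    have : (K : ℝ) ^ 3 = K * (K : ℝ) ^ 2 := by ring
    nlinarith [sq_nonneg ((K : ℝ) - 1)]
  have hKlog : (K : ℝ) ≤ 2 * Real.log X := by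
    rw [hX]; push_cast; rw [Real.log_pow]
    have h1 : Real.log 2 ≤ Real.log b := Real.log_le_log (by norm_num) (by exact_mod_cast hb)
    have h2 := Real.log_two_gt_d9
    nlinarith
  rw [← hX] at hQ ⊢
  -- the size of Q
  have hQK : (Q : ℝ) * (K : ℝ) ^ (T₀ + U₀ + 10) ≤ X := by
    have h3 := H3 X (by omega)
    have h4 : (K : ℝ) ^ (T₀ + U₀ + 10) ≤ (X : ℝ) ^ ε := by
      refine le_trans ?_ h3
      rw [← mul_pow]
      exact pow_le_pow_left₀ hK0.le hKlog _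
    calc (Q : ℝ) * (K : ℝ) ^ (T₀ + U₀ + 10) ≤ (X : ℝ) ^ (1 - ε) * (X : ℝ) ^ ε := mul_le_mul hQ h4 (by positivity) (by positivity)
      _ = X := by rw [← Real.rpow_add hX0, show 1 - ε + ε = 1 by ring, Real.rpow_one]
  have hQX : Q ≤ X := by
    have : (Q : ℝ) ≤ X := by
      refine le_trans ?_ hQK
      exact le_mul_of_one_le_right (Nat.cast_nonneg _) (one_le_pow₀ hK1)
    exact_mod_cast this
  -- the grid
  obtain ⟨M, hM⟩ : ∃ M : ℕ, M = K ^ m := ⟨_, rfl⟩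
  have hM1 : 1 ≤ M := by rw [hM]; exact Nat.one_le_pow _ _ (by omega)
  have hM0 : (0 : ℝ) < M := by exact_mod_cast hM1
  have hMr : (M : ℝ) = (K : ℝ) ^ m := by rw [hM]; push_cast; rfl
  obtain ⟨yg, hyg⟩ : ∃ yg : ℕ → ℕ, yg = fun j => j * X' / M := ⟨_, rfl⟩
  obtain ⟨jg, hjg⟩ : ∃ jg : ℕ → ℕ, jg = fun q => (x q * M + X' - 1) / X' := ⟨_, rfl⟩
  have hj1 : ∀ q, jg q ≤ M := by
    intro q
    rw [hjg]
    show (x q * M + X' - 1) / X' ≤ M
    rw [← Nat.lt_succ_iff, Nat.div_lt_iff_lt_mul (by omega)]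
    have := Nat.mul_le_mul_right M (hx q)
    have e : M.succ * X' = X' * M + X' := by rw [Nat.succ_mul]; ring
    omega
  have hj2 : ∀ q, x q ≤ yg (jg q) := by
    intro q
    rw [hyg]
    show x q ≤ jg q * X' / M
    rw [Nat.le_div_iff_mul_le (by omega)]
    have h1 : x q * M + X' - 1 < (jg q + 1) * X' := by
      rw [hjg]
      show x q * M + X' - 1 < ((x q * M + X' - 1) / X' + 1) * X'
      have := Nat.lt_div_mul_add (a := x q * M + X' - 1) (b := X') (by omega)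
      calc x q * M + X' - 1 < (x q * M + X' - 1) / X' * X' + X' := this
        _ = _ := by ring
    have e : (jg q + 1) * X' = jg q * X' + X' := by ring
    omega
  have hj3 : ∀ q, (yg (jg q) : ℝ) - x q ≤ X / M := by
    intro q
    have h1 : jg q * X' ≤ x q * M + X' - 1 := by
      rw [hjg]
      exact Nat.div_mul_le_self _ _
    have h2 : yg (jg q) * M ≤ jg q * X' := by
      rw [hyg]
      exact Nat.div_mul_le_self _ _
    have h3 : yg (jg q) * M ≤ x q * M + X := by omega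
    have h4 : (yg (jg q) : ℝ) * M ≤ x q * M + X := by exact_mod_cast h3
    rw [le_div_iff₀ hM0]
    linarith
  have hj4 : ∀ j, j ≤ M → yg j ≤ X' := by
    intro j hj
    rw [hyg]
    show j * X' / M ≤ X'
    apply Nat.div_le_of_le_mul
    exact Nat.mul_le_mul_right _ hj
  -- the signs
  obtain ⟨F, hF⟩ : ∃ F : ℕ → ℝ, F = fun q => ∑ ω ∈ Ω.filter (fun ω => 0 < Y ω ∧ (Y ω).toNat.Coprime q),
      p ω * (c ω * Er (x q) q (Y ω).toNat) := ⟨_, rfl⟩
  obtain ⟨sg, hsg⟩ : ∃ sg : ℕ → ℝ, sg = fun q => if 0 ≤ F q then 1 else -1 := ⟨_, rfl⟩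
  have hsg1 : ∀ q, |sg q| = 1 := by
    intro q
    rw [hsg]
    show |if 0 ≤ F q then (1 : ℝ) else -1| = 1
    split_ifs <;> simp
  have hsgF : ∀ q, |F q| = sg q * F q := by
    intro q
    rw [hsg]
    show |F q| = (if 0 ≤ F q then (1 : ℝ) else -1) * F q
    split_ifs with h
    · rw [abs_of_nonneg h, one_mul]
    · rw [abs_of_neg (not_le.1 h)]; ring
  -- the sums over q
  obtain ⟨Hh, hHh⟩ : ∃ Hh : ι → ℝ, Hh = fun ω => ∑ q ∈ (Icc 1 Q).filter (fun q => (ch ω).Coprime q), sg q * Er (x q) q (ch ω) := ⟨_, rfl⟩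
  have hswap : ∑ q ∈ Icc 1 Q, |F q| = ∑ ω ∈ Ω.filter (fun ω => 0 < Y ω), p ω * (c ω * Hh ω) := by
    have e1 : ∑ q ∈ Icc 1 Q, |F q| = ∑ q ∈ Icc 1 Q, ∑ ω ∈ Ω.filter (fun ω => 0 < Y ω),
        if (ch ω).Coprime q then p ω * (c ω * (sg q * Er (x q) q (ch ω))) else 0 := by
      apply sum_congr rfl
      intro q _
      rw [hsgF, hF, mul_sum]
      simp only [hchT]
      rw [← filter_filter, sum_filter]
      apply sum_congr rfl
      intro T _
      split_ifs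
      · ring
      · rfl
    rw [e1, sum_comm]
    apply sum_congr rfl
    intro T _
    rw [hHh]
    show _ = p T * (c T * ∑ q ∈ (Icc 1 Q).filter (fun q => (ch T).Coprime q), sg q * Er (x q) q (ch T))
    rw [mul_sum, mul_sum, sum_filter]
  -- the grid approximation
  obtain ⟨lam, hlam⟩ : ∃ lam : ℕ → ℕ → ℝ, lam = fun j q => if jg q = j then sg q else 0 := ⟨_, rfl⟩
  have hlam1 : ∀ j q, |lam j q| ≤ (K : ℝ) ^ 0 := by
    intro j q
    rw [hlam, pow_zero]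
    show |if jg q = j then sg q else 0| ≤ 1
    split_ifs
    · exact (hsg1 q).le
    · simp
  obtain ⟨G, hG⟩ : ∃ G : ℕ → ι → ℝ, G = fun j ω => ∑ q ∈ (Icc 1 Q).filter (fun q => (ch ω).Coprime q), lam j q * Er (yg j) q (ch ω) := ⟨_, rfl⟩
  have hgrid : ∀ T, |Hh T| ≤ ∑ j ∈ range (M + 1), |G j T| + (Real.log X * (X / M * (1 + Real.log X) + Q) + X / M * (1 + Real.log X) ^ 2) := by
    intro T
    have e1 : ∑ j ∈ range (M + 1), G j T = ∑ q ∈ (Icc 1 Q).filter (fun q => (ch T).Coprime q), sg q * Er (yg (jg q)) q (ch T) := by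
      rw [hG]
      show ∑ j ∈ range (M + 1), ∑ q ∈ (Icc 1 Q).filter (fun q => (ch T).Coprime q), lam j q * Er (yg j) q (ch T) = _
      rw [sum_comm]
      apply sum_congr rfl
      intro q _
      rw [hlam]
      show ∑ j ∈ range (M + 1), (if jg q = j then sg q else 0) * Er (yg j) q (ch T) = _
      rw [sum_eq_single (jg q)]
      · rw [if_pos rfl]
      · intro j _ hj
        rw [if_neg (Ne.symm hj), zero_mul]
      · intro h
        exact absurd (mem_range.2 (Nat.lt_succ_of_le (hj1 q))) h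
    have e2 : Hh T = ∑ j ∈ range (M + 1), G j T - ∑ q ∈ (Icc 1 Q).filter (fun q => (ch T).Coprime q), sg q * (Er (yg (jg q)) q (ch T) - Er (x q) q (ch T)) := by
      rw [e1, hHh, ← sum_sub_distrib]
      apply sum_congr rfl
      intro q _
      ring
    rw [e2]
    refine (abs_sub _ _).trans (add_le_add (abs_sum_le_sum_abs _ _) ?_)
    refine (abs_sum_le_sum_abs _ _).trans ?_
    refine le_trans ?_ (sum_bound Q X hQX (X / M) (by positivity))
    calc ∑ q ∈ (Icc 1 Q).filter (fun q => (ch T).Coprime q), |sg q * (Er (yg (jg q)) q (ch T) - Er (x q) q (ch T))| ≤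
        ∑ q ∈ (Icc 1 Q).filter (fun q => (ch T).Coprime q), (Real.log X * ((X / M) / q + 1) + X / M * (1 / (Nat.totient q : ℝ))) := by
          apply sum_le_sum
          intro q hq
          rw [mem_filter, mem_Icc] at hq
          rw [abs_mul, hsg1, one_mul]
          refine (Er_diff (x q) (yg (jg q)) q (ch T) X hq.1.1 (hj2 q) ((hj4 _ (hj1 q)).trans hbX)).trans ?_
          have := hj3 q
          gcongr
      _ ≤ ∑ q ∈ Icc 1 Q, (Real.log X * ((X / M) / q + 1) + X / M * (1 / (Nat.totient q : ℝ))) := by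
          apply sum_le_sum_of_subset_of_nonneg (filter_subset _ _)
          intro q _ _
          positivity
  -- trivial bound
  have htriv : ∀ T, |Hh T| ≤ Real.log X * (X * (1 + Real.log X) + Q) + X * (1 + Real.log X) ^ 2 := by
    intro T
    refine le_trans ?_ (sum_bound Q X hQX X (Nat.cast_nonneg _))
    rw [hHh]
    refine (abs_sum_le_sum_abs _ _).trans ?_
    calc ∑ q ∈ (Icc 1 Q).filter (fun q => (ch T).Coprime q), |sg q * Er (x q) q (ch T)| ≤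
        ∑ q ∈ (Icc 1 Q).filter (fun q => (ch T).Coprime q), (Real.log X * ((X : ℝ) / q + 1) + X * (1 / (Nat.totient q : ℝ))) := by
          apply sum_le_sum
          intro q hq
          rw [mem_filter, mem_Icc] at hq
          rw [abs_mul, hsg1, one_mul]
          have h1 := Er_diff 0 (x q) q (ch T) X hq.1.1 (Nat.zero_le _) ((hx q).trans hbX)
          rw [Er_zero, sub_zero] at h1
          refine h1.trans ?_
          have h2 : (x q : ℝ) ≤ X := by exact_mod_cast (hx q).trans hbX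
          push_cast
          rw [sub_zero]
          gcongr
      _ ≤ ∑ q ∈ Icc 1 Q, (Real.log X * ((X : ℝ) / q + 1) + X * (1 / (Nat.totient q : ℝ))) := by
          apply sum_le_sum_of_subset_of_nonneg (filter_subset _ _)
          intro q _ _
          positivity
  -- the bad choices
  obtain ⟨Bd, hBd⟩ : ∃ Bd : ℕ → ι → Prop, Bd = fun j ω => 0 < Y ω ∧ (X : ℝ) / (K : ℝ) ^ U₁ < |G j ω| := ⟨_, rfl⟩
  have hbad : ∀ j ∈ range (M + 1), ∑ ω ∈ Ω, (if Bd j ω then p ω else 0) ≤ 1 / (K : ℝ) ^ U₁ := by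
    intro j hj
    rw [mem_range] at hj
    apply H2 K (by omega) ι Ω p Y hlaw hY (lam j) (hlam1 j) Q (by rw [← hX]; exact hQ) (Bd j)
    intro ω _ hω
    rw [hBd] at hω
    refine ⟨hω.1, yg j, ?_, ?_⟩
    · rw [← hX']; exact hj4 j (by omega)
    · have h3 := hω.2
      rw [hG] at h3
      rw [hchT, ← hX]
      exact h3
  have hpw : ∀ ω ∈ Ω, 0 ≤ p ω := hlaw.nonneg
  have hptot : ∑ ω ∈ Ω.filter (fun ω => 0 < Y ω), p ω ≤ 1 := by
    refine le_trans ?_ hlaw.le_one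
    exact sum_le_sum_of_subset_of_nonneg (filter_subset _ _) (fun ω hω _ => hpw ω hω)
  obtain ⟨Ctr, hCtr⟩ : ∃ Ctr : ℝ, Ctr = Real.log X * (X * (1 + Real.log X) + Q) + X * (1 + Real.log X) ^ 2 := ⟨_, rfl⟩
  obtain ⟨Cg, hCg⟩ : ∃ Cg : ℝ, Cg = Real.log X * (X / M * (1 + Real.log X) + Q) + X / M * (1 + Real.log X) ^ 2 := ⟨_, rfl⟩
  rw [← hCtr] at htriv
  rw [← hCg] at hgrid
  have hCtr0 : 0 ≤ Ctr := by rw [hCtr]; positivity
  have hCg0 : 0 ≤ Cg := by rw [hCg]; positivity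
  have hpt : ∀ ω ∈ Ω.filter (fun ω => 0 < Y ω), p ω * |Hh ω| ≤ p ω * ((M + 1) * (X / (K : ℝ) ^ U₁) + Cg) +
      (∑ j ∈ range (M + 1), if Bd j ω then p ω else 0) * Ctr := by
    intro ω hω
    rw [mem_filter] at hω
    have hp := hpw ω hω.1
    have hnn : ∀ j ∈ range (M + 1), (0 : ℝ) ≤ (if Bd j ω then p ω else 0) := by
      intro j _
      split_ifs
      · exact hp
      · exact le_rfl
    by_cases h : ∃ j ∈ range (M + 1), Bd j ω
    · obtain ⟨j, hj, hbj⟩ := h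
      have h1 : p ω ≤ ∑ j ∈ range (M + 1), (if Bd j ω then p ω else 0) := by
        have := single_le_sum hnn hj
        rwa [if_pos hbj] at this
      have h2 : 0 ≤ (M + 1) * ((X : ℝ) / (K : ℝ) ^ U₁) + Cg := by positivity
      calc p ω * |Hh ω| ≤ p ω * Ctr := mul_le_mul_of_nonneg_left (htriv ω) hp
        _ ≤ (∑ j ∈ range (M + 1), if Bd j ω then p ω else 0) * Ctr := mul_le_mul_of_nonneg_right h1 hCtr0
        _ ≤ _ := by
          have := mul_nonneg hp h2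
          linarith
    · push Not at h
      have h1 : ∑ j ∈ range (M + 1), |G j ω| ≤ (M + 1) * (X / (K : ℝ) ^ U₁) := by
        calc ∑ j ∈ range (M + 1), |G j ω| ≤ ∑ j ∈ range (M + 1), (X : ℝ) / (K : ℝ) ^ U₁ := by
              apply sum_le_sum
              intro j hj
              by_contra hcon
              push Not at hcon
              apply h j hj
              rw [hBd]
              exact ⟨hω.2, hcon⟩
          _ = _ := by rw [sum_const, nsmul_eq_mul, card_range]; push_cast; ring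
      have h2 := sum_nonneg hnn
      calc p ω * |Hh ω| ≤ p ω * ((M + 1) * (X / (K : ℝ) ^ U₁) + Cg) :=
            mul_le_mul_of_nonneg_left ((hgrid ω).trans (by linarith)) hp
        _ ≤ _ := by
          have := mul_nonneg h2 hCtr0
          linarith
  have hsumH : ∑ ω ∈ Ω.filter (fun ω => 0 < Y ω), p ω * |Hh ω| ≤
      ((M + 1) * (X / (K : ℝ) ^ U₁) + Cg) + (M + 1) * (1 / (K : ℝ) ^ U₁) * Ctr := by
    refine (sum_le_sum hpt).trans ?_
    rw [sum_add_distrib, ← sum_mul, ← sum_mul]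
    apply add_le_add
    · apply mul_le_of_le_one_left (by positivity) hptot
    · apply mul_le_mul_of_nonneg_right _ hCtr0
      rw [sum_comm]
      calc ∑ j ∈ range (M + 1), ∑ ω ∈ Ω.filter (fun ω => 0 < Y ω), (if Bd j ω then p ω else 0) ≤
          ∑ j ∈ range (M + 1), 1 / (K : ℝ) ^ U₁ := by
            apply sum_le_sum
            intro j hj
            refine le_trans ?_ (hbad j hj)
            apply sum_le_sum_of_subset_of_nonneg (filter_subset _ _)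
            intro ω hω _
            split_ifs
            · exact hpw ω hω
            · exact le_rfl
        _ = _ := by rw [sum_const, nsmul_eq_mul, card_range]; push_cast; ring
  -- numbers
  have n1 : Ctr ≤ X * (K : ℝ) ^ 7 := by
    have hQX' : (Q : ℝ) ≤ X := by exact_mod_cast hQX
    have g1 : Real.log X ≤ (K : ℝ) ^ 3 := by linarith
    have g2 : (1 : ℝ) ≤ (K : ℝ) ^ 3 := one_le_pow₀ hK1
    calc Ctr ≤ (K : ℝ) ^ 3 * (X * (K : ℝ) ^ 3 + X * (K : ℝ) ^ 3) + X * ((K : ℝ) ^ 3) ^ 2 := by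
          rw [hCtr]
          have g4 : (Q : ℝ) ≤ X * (K : ℝ) ^ 3 := hQX'.trans (le_mul_of_one_le_right hX0.le g2)
          gcongr
      _ = 3 * (X * ((K : ℝ) ^ 3 * (K : ℝ) ^ 3)) := by ring
      _ ≤ K * (X * ((K : ℝ) ^ 3 * (K : ℝ) ^ 3)) := mul_le_mul_of_nonneg_right (by linarith) (by positivity)
      _ = X * (K : ℝ) ^ 7 := by ring
  have n2 : Cg ≤ X / (K : ℝ) ^ m * (K : ℝ) ^ 7 + (K : ℝ) ^ 3 * Q := by
    have g1 : Real.log X ≤ (K : ℝ) ^ 3 := by linarith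
    calc Cg ≤ (K : ℝ) ^ 3 * (X / M * (K : ℝ) ^ 3 + Q) + X / M * ((K : ℝ) ^ 3) ^ 2 := by
          rw [hCg]
          gcongr
      _ = 2 * (X / M * ((K : ℝ) ^ 3 * (K : ℝ) ^ 3)) + (K : ℝ) ^ 3 * Q := by ring
      _ ≤ K * (X / M * ((K : ℝ) ^ 3 * (K : ℝ) ^ 3)) + (K : ℝ) ^ 3 * Q := by
          have : (0 : ℝ) ≤ X / M * ((K : ℝ) ^ 3 * (K : ℝ) ^ 3) := by positivity
          nlinarith
      _ = _ := by rw [hMr]; ring
  have hpos : (0 : ℝ) < (K : ℝ) ^ (T₀ + U₀ + 3) := by positivity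
  have n3 : (X : ℝ) / (K : ℝ) ^ m * (K : ℝ) ^ 7 = X / (K : ℝ) ^ (T₀ + U₀ + 3) := by
    rw [hm, show T₀ + U₀ + 10 = (T₀ + U₀ + 3) + 7 by ring, pow_add (K : ℝ) (T₀ + U₀ + 3) 7]
    have := pow_pos hK0 7
    field_simp
  have n4 : (K : ℝ) ^ 3 * Q ≤ X / (K : ℝ) ^ (T₀ + U₀ + 3) := by
    rw [le_div_iff₀ hpos]
    calc (K : ℝ) ^ 3 * Q * (K : ℝ) ^ (T₀ + U₀ + 3) = Q * (K : ℝ) ^ (T₀ + U₀ + 6) := by
          rw [show T₀ + U₀ + 6 = (T₀ + U₀ + 3) + 3 by ring, pow_add (K : ℝ) (T₀ + U₀ + 3) 3]; ring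
      _ ≤ Q * (K : ℝ) ^ (T₀ + U₀ + 10) := mul_le_mul_of_nonneg_left (pow_le_pow_right₀ hK1 (by omega)) (Nat.cast_nonneg _)
      _ ≤ X := hQK
  have n5 : ((M : ℝ) + 1) / (K : ℝ) ^ U₁ ≤ 1 / (K : ℝ) ^ (T₀ + U₀ + 11) := by
    have g1 : (M : ℝ) + 1 ≤ (K : ℝ) ^ (m + 1) := by
      rw [hMr, pow_succ]
      have : (1 : ℝ) ≤ (K : ℝ) ^ m := one_le_pow₀ hK1
      nlinarith
    rw [div_le_div_iff₀ (by positivity) (by positivity), one_mul]
    calc ((M : ℝ) + 1) * (K : ℝ) ^ (T₀ + U₀ + 11) ≤ (K : ℝ) ^ (m + 1) * (K : ℝ) ^ (T₀ + U₀ + 11) := mul_le_mul_of_nonneg_right g1 (by positivity)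
      _ = (K : ℝ) ^ U₁ := by rw [← pow_add, hU₁]; congr 1; ring
  have n6 : (K : ℝ) ^ (T₀ + U₀ + 11) = (K : ℝ) ^ 7 * (K : ℝ) ^ (T₀ + U₀ + 4) := by rw [← pow_add]; congr 1; ring
  have n7 : ((M : ℝ) + 1) * (X / (K : ℝ) ^ U₁) ≤ X / (K : ℝ) ^ (T₀ + U₀ + 3) := by
    calc ((M : ℝ) + 1) * (X / (K : ℝ) ^ U₁) = X * (((M : ℝ) + 1) / (K : ℝ) ^ U₁) := by ring
      _ ≤ X * (1 / (K : ℝ) ^ (T₀ + U₀ + 11)) := mul_le_mul_of_nonneg_left n5 hX0.le
      _ ≤ X * (1 / (K : ℝ) ^ (T₀ + U₀ + 3)) := by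
          apply mul_le_mul_of_nonneg_left _ hX0.le
          exact one_div_le_one_div_of_le hpos (pow_le_pow_right₀ hK1 (by omega))
      _ = _ := by ring
  have n8 : ((M : ℝ) + 1) * (1 / (K : ℝ) ^ U₁) * Ctr ≤ X / (K : ℝ) ^ (T₀ + U₀ + 3) := by
    calc ((M : ℝ) + 1) * (1 / (K : ℝ) ^ U₁) * Ctr = (((M : ℝ) + 1) / (K : ℝ) ^ U₁) * Ctr := by ring
      _ ≤ (1 / (K : ℝ) ^ (T₀ + U₀ + 11)) * (X * (K : ℝ) ^ 7) := mul_le_mul n5 n1 hCtr0 (by positivity)
      _ = X / (K : ℝ) ^ (T₀ + U₀ + 4) := by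
          rw [n6]
          have := pow_pos hK0 7
          field_simp
      _ ≤ _ := by
          apply div_le_div_of_nonneg_left hX0.le hpos
          exact pow_le_pow_right₀ hK1 (by omega)
  have hfin : ∑ ω ∈ Ω.filter (fun ω => 0 < Y ω), p ω * |Hh ω| ≤ 4 * (X / (K : ℝ) ^ (T₀ + U₀ + 3)) := by
    refine hsumH.trans ?_
    rw [n3] at n2
    linarith
  have hgoal : ∑ q ∈ Icc 1 Q, |F q| ≤ (X : ℝ) / (K : ℝ) ^ U₀ := by
    rw [hswap]
    calc ∑ ω ∈ Ω.filter (fun ω => 0 < Y ω), p ω * (c ω * Hh ω) ≤ ∑ ω ∈ Ω.filter (fun ω => 0 < Y ω), (K : ℝ) ^ T₀ * (p ω * |Hh ω|) := by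
          apply sum_le_sum
          intro ω hω
          rw [mem_filter] at hω
          have hp := hpw ω hω.1
          have h1 : c ω * Hh ω ≤ (K : ℝ) ^ T₀ * |Hh ω| := by
            refine (le_abs_self _).trans ?_
            rw [abs_mul]
            exact mul_le_mul_of_nonneg_right (hc ω) (abs_nonneg _)
          calc p ω * (c ω * Hh ω) ≤ p ω * ((K : ℝ) ^ T₀ * |Hh ω|) := mul_le_mul_of_nonneg_left h1 hp
            _ = _ := by ring
      _ = (K : ℝ) ^ T₀ * ∑ ω ∈ Ω.filter (fun ω => 0 < Y ω), p ω * |Hh ω| := by rw [mul_sum]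
      _ ≤ (K : ℝ) ^ T₀ * (4 * (X / (K : ℝ) ^ (T₀ + U₀ + 3))) := mul_le_mul_of_nonneg_left hfin (by positivity)
      _ = (X : ℝ) / (K : ℝ) ^ U₀ * (4 / (K : ℝ) ^ 3) := by
          rw [show T₀ + U₀ + 3 = T₀ + (U₀ + 3) by ring, pow_add (K : ℝ) T₀, pow_add (K : ℝ) U₀ 3]
          have h1 := pow_pos hK0 T₀
          have h2 := pow_pos hK0 U₀
          have h3 := pow_pos hK0 3
          field_simp
      _ ≤ (X : ℝ) / (K : ℝ) ^ U₀ := by
          apply mul_le_of_le_one_right (by positivity)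
          rw [div_le_one (by positivity)]
          have : (K : ℝ) ^ 1 ≤ (K : ℝ) ^ 3 := pow_le_pow_right₀ hK1 (by norm_num)
          rw [pow_one] at this
          linarith
  rw [hF] at hgoal
  exact hgoal

end Pool.Agent.TH872.An
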