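import Pool.Agent.W93.AU1

set_option autoImplicit false

/-! Random integers with mirror-dependent digits: the characteristic function. The pairs of digits
at the positions `i` and `k - 1 - i` are independent of each other for different `i < m`. -/

namespace Pool.Agent.TH872.Mir
open Finset
open Pool.Agent.H807R2.Dav
open Pool.Agent.W93.DG
open Pool.Agent.W93.RD

/-- the pairs of digits -/
def Q (b : ℕ) : Finset (ℕ × ℕ) := range b ×ˢ range b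

/-- the strings of `m` pairs of digits -/
def Gs (b m : ℕ) : Finset (Fin m → ℕ × ℕ) := Fintype.piFinset fun _ => Q b

/-- the probability of a string of pairs -/
noncomputable def pw {m : ℕ} (w : ℕ → ℕ × ℕ → ℝ) (g : Fin m → ℕ × ℕ) : ℝ := ∏ i : Fin m, w i (g i)

/-- the value of a string of pairs -/
def val (b k : ℕ) {m : ℕ} (g : Fin m → ℕ × ℕ) : ℕ :=
  ∑ i : Fin m, ((g i).1 * b ^ (i : ℕ) + (g i).2 * b ^ (k - 1 - (i : ℕ)))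

/-- the pairs of digits have distributions `w i`, and for `i ≥ 1` both digits differ in two independent
copies with a probability of at least `η` -/
structure Mirr (b m : ℕ) (η : ℝ) (w : ℕ → ℕ × ℕ → ℝ) : Prop where
  nonneg : ∀ i < m, ∀ a, 0 ≤ w i a
  sum : ∀ i < m, ∑ a ∈ Q b, w i a = 1
  mir : ∀ i < m, 1 ≤ i → η ≤ ∑ a ∈ Q b, ∑ a' ∈ Q b, if a.1 ≠ a'.1 ∧ a.2 ≠ a'.2 then w i a * w i a' else 0

/-- two values of a pair -/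
lemma pair_bound (b : ℕ) (v : ℕ × ℕ → ℝ) (hv0 : ∀ a, 0 ≤ v a) (hsum : ∑ a ∈ Q b, v a = 1) (a₁ a₂ : ℕ × ℕ)
    (h₁ : a₁ ∈ Q b) (h₂ : a₂ ∈ Q b) (hne : a₂ ≠ a₁) (ρ : ℝ) (hρ0 : 0 ≤ ρ) (hρ₁ : ρ ≤ v a₁) (hρ₂ : ρ ≤ v a₂)
    (α β δ : ℝ) (hδ : 0 ≤ δ)
    (hfar : ∀ n : ℤ, δ ≤ |(((a₂.1 : ℤ) - a₁.1 : ℤ) : ℝ) * α + (((a₂.2 : ℤ) - a₁.2 : ℤ) : ℝ) * β - n|) :
    ‖∑ a ∈ Q b, ((v a : ℝ) : ℂ) * ee (a.1 * α + a.2 * β)‖ ≤ 1 - 4 * ρ * δ ^ 2 := by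
  have h₂' : a₂ ∈ (Q b).erase a₁ := mem_erase.2 ⟨hne, h₂⟩
  have hsplit : ∀ f : ℕ × ℕ → ℂ, ∑ a ∈ Q b, f a = f a₁ + (f a₂ + ∑ a ∈ ((Q b).erase a₁).erase a₂, f a) := by
    intro f
    rw [add_sum_erase _ f h₂', add_sum_erase _ f h₁]
  have hsplitr : ∑ a ∈ Q b, v a = v a₁ + (v a₂ + ∑ a ∈ ((Q b).erase a₁).erase a₂, v a) := by
    rw [add_sum_erase _ v h₂', add_sum_erase _ v h₁]
  have hrest : ‖∑ a ∈ ((Q b).erase a₁).erase a₂, ((v a : ℝ) : ℂ) * ee (a.1 * α + a.2 * β)‖ ≤ 1 - v a₁ - v a₂ := by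
    refine (norm_sum_le _ _).trans ?_
    have : ∀ a ∈ ((Q b).erase a₁).erase a₂, ‖((v a : ℝ) : ℂ) * ee (a.1 * α + a.2 * β)‖ = v a := by
      intro a _
      rw [norm_mul, norm_ee, mul_one, Complex.norm_real, Real.norm_of_nonneg (hv0 a)]
    rw [sum_congr rfl this]
    linarith
  have hpair : ‖ee (a₁.1 * α + a₁.2 * β) + ee (a₂.1 * α + a₂.2 * β)‖ ≤ 2 - 4 * δ ^ 2 := by
    have e1 : ee (a₁.1 * α + a₁.2 * β) + ee (a₂.1 * α + a₂.2 * β) = ee (a₁.1 * α + a₁.2 * β) *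
        (1 + ee ((((a₂.1 : ℤ) - a₁.1 : ℤ) : ℝ) * α + (((a₂.2 : ℤ) - a₁.2 : ℤ) : ℝ) * β)) := by
      rw [mul_add, mul_one, ← ee_add]
      congr 2
      push_cast
      ring
    rw [e1, norm_mul, norm_ee, one_mul]
    exact cos_dist _ _ hδ hfar
  rw [hsplit]
  have h1 : ((v a₁ : ℝ) : ℂ) * ee (a₁.1 * α + a₁.2 * β) + (((v a₂ : ℝ) : ℂ) * ee (a₂.1 * α + a₂.2 * β) +
      ∑ a ∈ ((Q b).erase a₁).erase a₂, ((v a : ℝ) : ℂ) * ee (a.1 * α + a.2 * β)) =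
      ((ρ : ℝ) : ℂ) * (ee (a₁.1 * α + a₁.2 * β) + ee (a₂.1 * α + a₂.2 * β)) +
      (((v a₁ - ρ : ℝ) : ℂ) * ee (a₁.1 * α + a₁.2 * β) + (((v a₂ - ρ : ℝ) : ℂ) * ee (a₂.1 * α + a₂.2 * β) +
      ∑ a ∈ ((Q b).erase a₁).erase a₂, ((v a : ℝ) : ℂ) * ee (a.1 * α + a.2 * β))) := by
    push_cast
    ring
  rw [h1]
  have t1 : ‖((ρ : ℝ) : ℂ) * (ee (a₁.1 * α + a₁.2 * β) + ee (a₂.1 * α + a₂.2 * β))‖ ≤ ρ * (2 - 4 * δ ^ 2) := by
    rw [norm_mul, Complex.norm_real, Real.norm_of_nonneg hρ0]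
    exact mul_le_mul_of_nonneg_left hpair hρ0
  have t2 : ‖((v a₁ - ρ : ℝ) : ℂ) * ee (a₁.1 * α + a₁.2 * β)‖ = v a₁ - ρ := by
    rw [norm_mul, norm_ee, mul_one, Complex.norm_real, Real.norm_of_nonneg (by linarith)]
  have t3 : ‖((v a₂ - ρ : ℝ) : ℂ) * ee (a₂.1 * α + a₂.2 * β)‖ = v a₂ - ρ := by
    rw [norm_mul, norm_ee, mul_one, Complex.norm_real, Real.norm_of_nonneg (by linarith)]
  refine (norm_add_le _ _).trans ?_
  have t4 := norm_add_le (((v a₁ - ρ : ℝ) : ℂ) * ee (a₁.1 * α + a₁.2 * β)) (((v a₂ - ρ : ℝ) : ℂ) * ee (a₂.1 * α + a₂.2 * β) +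
      ∑ a ∈ ((Q b).erase a₁).erase a₂, ((v a : ℝ) : ℂ) * ee (a.1 * α + a.2 * β))
  have t5 := norm_add_le (((v a₂ - ρ : ℝ) : ℂ) * ee (a₂.1 * α + a₂.2 * β))
      (∑ a ∈ ((Q b).erase a₁).erase a₂, ((v a : ℝ) : ℂ) * ee (a.1 * α + a.2 * β))
  have t6 : ρ * (2 - 4 * δ ^ 2) = 2 * ρ - 4 * ρ * δ ^ 2 := by ring
  linarith

/-- two probable values which differ in both coordinates -/
lemma quad (b : ℕ) (v : ℕ × ℕ → ℝ) (hv0 : ∀ a, 0 ≤ v a) (hsum : ∑ a ∈ Q b, v a = 1) (η : ℝ) (hη : 0 < η)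
    (hm : η ≤ ∑ a ∈ Q b, ∑ a' ∈ Q b, if a.1 ≠ a'.1 ∧ a.2 ≠ a'.2 then v a * v a' else 0) :
    ∃ a₁ ∈ Q b, ∃ a₂ ∈ Q b, a₂.1 ≠ a₁.1 ∧ a₂.2 ≠ a₁.2 ∧ η / (b : ℝ) ^ 4 ≤ v a₁ ∧ η / (b : ℝ) ^ 4 ≤ v a₂ := by
  have hle1 : ∀ a ∈ Q b, v a ≤ 1 := by
    intro a ha
    rw [← hsum]
    exact single_le_sum (fun x _ => hv0 x) ha
  have hne : (Q b).Nonempty := by
    rw [nonempty_iff_ne_empty]
    intro h
    rw [h, sum_empty] at hsum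
    exact zero_ne_one hsum
  have hcard : ((Q b).card : ℝ) = (b : ℝ) ^ 2 := by
    unfold Q
    rw [card_product, card_range]
    push_cast
    ring
  have hb0 : (0 : ℝ) < (b : ℝ) ^ 2 := by
    rw [← hcard]
    exact_mod_cast hne.card_pos
  by_contra hcon
  push Not at hcon
  have h1 : ∀ a ∈ Q b, ∀ a' ∈ Q b, (if a.1 ≠ a'.1 ∧ a.2 ≠ a'.2 then v a * v a' else 0) < η / (b : ℝ) ^ 4 := by
    intro a ha a' ha'
    have hpos : 0 < η / (b : ℝ) ^ 4 := by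
      have : (b : ℝ) ^ 4 = (b : ℝ) ^ 2 * (b : ℝ) ^ 2 := by ring
      rw [this]; positivity
    split_ifs with h
    · by_cases h3 : η / (b : ℝ) ^ 4 ≤ v a'
      · have h4 := hcon a' ha' a ha h.1 h.2 h3
        calc v a * v a' ≤ v a * 1 := mul_le_mul_of_nonneg_left (hle1 a' ha') (hv0 a)
          _ < _ := by rw [mul_one]; exact h4
      · push Not at h3
        calc v a * v a' ≤ 1 * v a' := mul_le_mul_of_nonneg_right (hle1 a ha) (hv0 a')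
          _ < _ := by rw [one_mul]; exact h3
    · exact hpos
  have h2 : ∑ a ∈ Q b, ∑ a' ∈ Q b, (if a.1 ≠ a'.1 ∧ a.2 ≠ a'.2 then v a * v a' else 0) <
      ∑ _a ∈ Q b, ∑ _a' ∈ Q b, η / (b : ℝ) ^ 4 :=
    sum_lt_sum_of_nonempty hne fun a ha => sum_lt_sum_of_nonempty hne fun a' ha' => h1 a ha a' ha'
  rw [sum_const, sum_const, nsmul_eq_mul, nsmul_eq_mul, hcard] at h2
  have h3 : (b : ℝ) ^ 2 * ((b : ℝ) ^ 2 * (η / (b : ℝ) ^ 4)) = η := by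
    have : (b : ℝ) ≠ 0 := by intro h; rw [h] at hb0; simp at hb0
    field_simp
  rw [h3] at h2
  linarith

/-- the characteristic function is a product -/
lemma char_prod (b k m : ℕ) (w : ℕ → ℕ × ℕ → ℝ) (θ : ℝ) :
    ∑ g ∈ Gs b m, ((pw w g : ℝ) : ℂ) * ee ((val b k g : ℝ) * θ) =
      ∏ i ∈ range m, ∑ a ∈ Q b, ((w i a : ℝ) : ℂ) * ee (a.1 * ((b : ℝ) ^ i * θ) + a.2 * ((b : ℝ) ^ (k - 1 - i) * θ)) := by
  rw [← Fin.prod_univ_eq_prod_range (fun i => ∑ a ∈ Q b, ((w i a : ℝ) : ℂ) *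
    ee (a.1 * ((b : ℝ) ^ i * θ) + a.2 * ((b : ℝ) ^ (k - 1 - i) * θ))) m]
  rw [Finset.prod_univ_sum]
  unfold Gs
  apply sum_congr rfl
  intro g _
  rw [prod_mul_distrib]
  congr 1
  · unfold pw
    push_cast
    rfl
  · have h1 : ∀ (s : Finset (Fin m)) (f : Fin m → ℝ), ∏ j ∈ s, ee (f j) = ee (∑ j ∈ s, f j) := by
      intro s f
      classical
      induction s using Finset.induction_on with
      | empty => simp [ee_zero]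
      | insert a s ha ih => rw [prod_insert ha, sum_insert ha, ee_add, ih]
    rw [h1]
    congr 1
    unfold val
    push_cast
    rw [sum_mul]
    apply sum_congr rfl
    intro j _
    ring

/-- a frequency can be recovered from two neighbouring pairs -/
lemma extract (b F : ℕ) (hb : 2 ≤ b) (hF : F = (b ^ 4).factorial) (X Y X' Y' : ℤ) (hX : |X| < b)
    (hY0 : Y ≠ 0) (hY : |Y| < b) (hX'0 : X' ≠ 0) (hX' : |X'| < b) (hY' : |Y'| < b) (α β : ℝ)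
    (hα : ∀ n : ℤ, 1 / (b : ℝ) ^ 2 ≤ |(F : ℝ) * α - n|) :
    (∀ n : ℤ, 1 / (2 * (F : ℝ) * (b : ℝ) ^ 4) ≤ |(X : ℝ) * α + Y * (b * β) - n|) ∨
    (∀ n : ℤ, 1 / (2 * (F : ℝ) * (b : ℝ) ^ 4) ≤ |(X' : ℝ) * (b * α) + Y' * β - n|) := by
  by_contra hcon
  push Not at hcon
  obtain ⟨⟨n₁, hn₁⟩, ⟨n₂, hn₂⟩⟩ := hcon
  obtain ⟨δ, hδ⟩ : ∃ δ, δ = 1 / (2 * (F : ℝ) * (b : ℝ) ^ 4) := ⟨_, rfl⟩
  rw [← hδ] at hn₁ hn₂
  have hbr : (2 : ℝ) ≤ b := by exact_mod_cast hb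
  have hb0 : (0 : ℝ) < b := by linarith
  have hF0 : (0 : ℝ) < F := by rw [hF]; exact_mod_cast (b ^ 4).factorial_pos
  have hδ0 : 0 < δ := by rw [hδ]; positivity
  obtain ⟨K, hK⟩ : ∃ K : ℤ, K = b ^ 2 * (Y * X') - Y' * X := ⟨_, rfl⟩
  have hbz : (2 : ℤ) ≤ b := by exact_mod_cast hb
  have a1 : 1 ≤ |Y * X'| := Int.one_le_abs (mul_ne_zero hY0 hX'0)
  have a2 : |Y' * X| ≤ ((b : ℤ) - 1) ^ 2 := by
    rw [abs_mul, pow_two]
    exact mul_le_mul (by omega) (by omega) (abs_nonneg _) (by omega)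
  have a3 : |Y * X'| ≤ ((b : ℤ) - 1) ^ 2 := by
    rw [abs_mul, pow_two]
    exact mul_le_mul (by omega) (by omega) (abs_nonneg _) (by omega)
  have hK0 : K ≠ 0 := by
    intro h0
    have h1 : (b : ℤ) ^ 2 * (Y * X') = Y' * X := by rw [hK] at h0; linarith
    have h2 : |(b : ℤ) ^ 2 * (Y * X')| = |Y' * X| := by rw [h1]
    rw [abs_mul, abs_of_nonneg (by positivity : (0 : ℤ) ≤ (b : ℤ) ^ 2)] at h2
    nlinarith
  have hKle : |K| ≤ (b : ℤ) ^ 4 := by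
    have h1 : |K| ≤ (b : ℤ) ^ 2 * |Y * X'| + |Y' * X| := by
      rw [hK]
      refine (abs_sub _ _).trans ?_
      rw [abs_mul, abs_of_nonneg (by positivity : (0 : ℤ) ≤ (b : ℤ) ^ 2)]
    have h2 : (b : ℤ) ^ 2 * |Y * X'| ≤ (b : ℤ) ^ 2 * ((b : ℤ) - 1) ^ 2 := mul_le_mul_of_nonneg_left a3 (by positivity)
    have h3 : (b : ℤ) ^ 2 * ((b : ℤ) - 1) ^ 2 + ((b : ℤ) - 1) ^ 2 ≤ (b : ℤ) ^ 4 := by
      have : (b : ℤ) ^ 4 - ((b : ℤ) ^ 2 * ((b : ℤ) - 1) ^ 2 + ((b : ℤ) - 1) ^ 2) = 2 * b ^ 3 - 2 * b ^ 2 + 2 * b - 1 := by ring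
      nlinarith [mul_nonneg (sq_nonneg (b : ℤ)) (by linarith : (0 : ℤ) ≤ (b : ℤ) - 2)]
    linarith
  obtain ⟨q, hq⟩ : K ∣ ((F : ℕ) : ℤ) := by
    rw [← Int.natAbs_dvd_natAbs, Int.natAbs_natCast, hF]
    apply Nat.dvd_factorial (Int.natAbs_pos.2 hK0)
    have : ((K.natAbs : ℕ) : ℤ) ≤ ((b ^ 4 : ℕ) : ℤ) := by
      rw [Int.natCast_natAbs]; push_cast; exact hKle
    exact_mod_cast this
  have hqr : (F : ℝ) = (K : ℝ) * q := by exact_mod_cast hq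
  have hqabs : |(q : ℝ)| ≤ F := by
    rw [← abs_of_pos hF0, hqr, abs_mul]
    have : (1 : ℝ) ≤ |(K : ℝ)| := by exact_mod_cast Int.one_le_abs hK0
    have h0 : 0 ≤ |(q : ℝ)| := abs_nonneg _
    nlinarith
  have h1 := hα (q * (b * Y * n₂ - Y' * n₁))
  have e1 : (F : ℝ) * α - ((q * (b * Y * n₂ - Y' * n₁) : ℤ) : ℝ) =
      q * (b * Y * ((X' : ℝ) * (b * α) + Y' * β - n₂) - Y' * ((X : ℝ) * α + Y * (b * β) - n₁)) := by
    rw [hqr, hK]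
    push_cast
    ring
  rw [e1, abs_mul] at h1
  have hYr : |(Y : ℝ)| ≤ b := by exact_mod_cast hY.le
  have hYr' : |(Y' : ℝ)| ≤ b := by exact_mod_cast hY'.le
  have hYr0 : 0 < |(Y : ℝ)| := by
    rw [abs_pos]; exact_mod_cast hY0
  have h2 : |(b : ℝ) * Y * ((X' : ℝ) * (b * α) + Y' * β - n₂) - Y' * ((X : ℝ) * α + Y * (b * β) - n₁)| < 2 * (b : ℝ) ^ 2 * δ := by
    refine lt_of_le_of_lt (abs_sub _ _) ?_
    rw [abs_mul, abs_mul, abs_mul, abs_of_pos hb0]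
    have c1 : (b : ℝ) * |(Y : ℝ)| * |(X' : ℝ) * (b * α) + Y' * β - n₂| < (b : ℝ) ^ 2 * δ := by
      calc (b : ℝ) * |(Y : ℝ)| * |(X' : ℝ) * (b * α) + Y' * β - n₂| < (b : ℝ) * |(Y : ℝ)| * δ :=
            mul_lt_mul_of_pos_left hn₂ (by positivity)
        _ ≤ (b : ℝ) * b * δ := by
            apply mul_le_mul_of_nonneg_right _ hδ0.le
            exact mul_le_mul_of_nonneg_left hYr hb0.le
        _ = _ := by ring
    have c2 : |(Y' : ℝ)| * |(X : ℝ) * α + Y * (b * β) - n₁| ≤ (b : ℝ) ^ 2 * δ := by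
      calc |(Y' : ℝ)| * |(X : ℝ) * α + Y * (b * β) - n₁| ≤ b * δ := mul_le_mul hYr' hn₁.le (abs_nonneg _) hb0.le
        _ ≤ (b : ℝ) ^ 2 * δ := by
            apply mul_le_mul_of_nonneg_right _ hδ0.le
            nlinarith
    linarith
  have h3 : |(q : ℝ)| * |(b : ℝ) * Y * ((X' : ℝ) * (b * α) + Y' * β - n₂) - Y' * ((X : ℝ) * α + Y * (b * β) - n₁)| <
      F * (2 * (b : ℝ) ^ 2 * δ) := by
    calc |(q : ℝ)| * |(b : ℝ) * Y * ((X' : ℝ) * (b * α) + Y' * β - n₂) - Y' * ((X : ℝ) * α + Y * (b * β) - n₁)| ≤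
          F * |(b : ℝ) * Y * ((X' : ℝ) * (b * α) + Y' * β - n₂) - Y' * ((X : ℝ) * α + Y * (b * β) - n₁)| :=
          mul_le_mul_of_nonneg_right hqabs (abs_nonneg _)
      _ < _ := mul_lt_mul_of_pos_left h2 hF0
  have h4 : (F : ℝ) * (2 * (b : ℝ) ^ 2 * δ) = 1 / (b : ℝ) ^ 2 := by
    rw [hδ]
    field_simp
  linarith

end Pool.Agent.TH872.Mir
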