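import Pool.Agent.TH872.Mir9
import Pool.Agent.TH872.Transfer

set_option autoImplicit false

/-! Prime pairs in progressions, for differences with mirror-dependent digits. -/

namespace Pool.Agent.TH872.Mir
open Finset
open Pool.Agent.H373R2.T7
open Pool.Agent.W93.AU
open Pool.Agent.W93.PP

theorem mir_pairs (b B U A Bq C W : ℕ) (hb : 2 ≤ b) (κ : ℤ) (hκ : κ ≠ 0) :
    Pool.Agent.TH872.Tr.Rare b B U κ (fun k bad => ∃ X : ℕ, b ^ k ≤ X ∧ (b : ℝ) ^ k * Real.log X ^ (C + 6) ≤ X ∧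
      (X : ℝ) ≤ (b : ℝ) ^ k * Real.log X ^ W ∧ ∀ n : ℤ, bad n → 0 < n ∧ ¬ GoodD A Bq C X n.toNat) := by
  classical
  intro η hη s hs
  obtain ⟨e, he⟩ : ∃ e, e = B + 3 * κ.natAbs := ⟨_, rfl⟩
  obtain ⟨V, hV⟩ := dd_law b (FF0 b κ) hb (FF0_pos b κ hκ) A Bq C U
  obtain ⟨D, hD⟩ := mir_law' b hb η hη κ (2 * W + 2) s V
  obtain ⟨K0, h0⟩ := hV D
  refine ⟨K0 + b ^ e + 4, fun m hm w hw cc hcc bad hbad E _ hE => ?_⟩
  rw [← he] at hcc
  obtain ⟨X, hX0, hX1, hX2, hbad⟩ := hbad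
  obtain ⟨k, hk⟩ : ∃ k, k = 2 * m + s := ⟨_, rfl⟩
  rw [← hk] at hX0 hX1 hX2
  have hpe : 0 < b ^ e := by positivity
  have hbr : (2 : ℝ) ≤ b := by exact_mod_cast hb
  have hb0 : (0 : ℝ) < b := by linarith
  have hbk : 0 < b ^ k := by positivity
  have hX : 0 < X := by omega
  have hXr : (0 : ℝ) < X := by exact_mod_cast hX
  have hlb : 1 / 2 ≤ Real.log b := by
    have q1 : Real.log 2 ≤ Real.log b := Real.log_le_log (by norm_num) hbr
    linarith [Real.log_two_gt_d9]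
  obtain ⟨L, hL⟩ : ∃ L, L = Real.log (X : ℝ) := ⟨_, rfl⟩
  rw [← hL] at hX1 hX2
  have hLk : (b : ℝ) ^ e ≤ L := by
    have q1 : Real.log ((b ^ k : ℕ) : ℝ) ≤ L := by
      rw [hL]
      apply Real.log_le_log
      · exact_mod_cast hbk
      · exact_mod_cast hX0
    have q2 : Real.log ((b ^ k : ℕ) : ℝ) = k * Real.log b := by
      push_cast; rw [Real.log_pow]
    have q3 : 2 * (b : ℝ) ^ e ≤ k := by exact_mod_cast (by omega : 2 * b ^ e ≤ k)
    rw [q2] at q1
    have q4 : (0 : ℝ) ≤ k := Nat.cast_nonneg _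
    nlinarith
  have hL1 : 1 ≤ L := (one_le_pow₀ (by linarith : (1 : ℝ) ≤ b)).trans hLk
  have hL0 : 0 < L := by linarith
  -- the scale
  obtain ⟨K, hKd⟩ : ∃ K, K = Nat.clog b (2 * X) := ⟨_, rfl⟩
  have hK1 : 2 * X ≤ b ^ K := by rw [hKd]; exact Nat.le_pow_clog (by omega) _
  have hkK : k < K := by
    have : b ^ k < b ^ K := by omega
    exact (Nat.pow_lt_pow_iff_right (by omega)).1 this
  have hK2 : b ^ K ≤ 2 * b * X := by
    have h1 : b ^ (K - 1) < 2 * X := by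
      rw [hKd]
      exact Nat.pow_pred_clog_lt_self (by omega) (by omega)
    calc b ^ K = b ^ (K - 1 + 1) := by congr 1; omega
      _ = b * b ^ (K - 1) := by rw [pow_succ']
      _ ≤ b * (2 * X) := Nat.mul_le_mul_left _ h1.le
      _ = 2 * b * X := by ring
  obtain ⟨e', he'⟩ : ∃ e', K = k + e' := ⟨K - k, by omega⟩
  have hKr : (1 : ℝ) ≤ K := by exact_mod_cast (by omega : 1 ≤ K)
  have hee : e' ≤ (2 * W + 2) * (Nat.log b K + 1) := by
    have f1 : (b : ℝ) ^ e' ≤ 2 * b * L ^ W := by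
      have g1 : ((b ^ K : ℕ) : ℝ) ≤ 2 * b * X := by exact_mod_cast hK2
      rw [he'] at g1
      push_cast at g1
      rw [pow_add] at g1
      have g2 : (b : ℝ) ^ k * (b : ℝ) ^ e' ≤ (b : ℝ) ^ k * (2 * b * L ^ W) := by
        refine g1.trans ?_
        calc 2 * (b : ℝ) * X ≤ 2 * b * ((b : ℝ) ^ k * L ^ W) := mul_le_mul_of_nonneg_left hX2 (by positivity)
          _ = _ := by ring
      exact le_of_mul_le_mul_left g2 (by positivity)
    have f2 : L ≤ b * K := by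
      have g1 : L ≤ Real.log ((b ^ K : ℕ) : ℝ) := by
        rw [hL]
        apply Real.log_le_log hXr
        exact_mod_cast (by omega : X ≤ b ^ K)
      have g2 : Real.log ((b ^ K : ℕ) : ℝ) = K * Real.log b := by
        push_cast; rw [Real.log_pow]
      have g3 : Real.log (b : ℝ) ≤ b := (Real.log_le_sub_one_of_pos hb0).trans (by linarith)
      rw [g2] at g1
      nlinarith
    have f3 : (K : ℝ) ≤ (b : ℝ) ^ (Nat.log b K + 1) := by
      exact_mod_cast (Nat.lt_pow_succ_log_self (by omega) K).le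
    have f4 : (b : ℝ) ^ e' ≤ (b : ℝ) ^ (2 + W + (Nat.log b K + 1) * W) := by
      calc (b : ℝ) ^ e' ≤ 2 * b * L ^ W := f1
        _ ≤ b * b * (b * (b : ℝ) ^ (Nat.log b K + 1)) ^ W := by
            have : L ≤ b * (b : ℝ) ^ (Nat.log b K + 1) := f2.trans (mul_le_mul_of_nonneg_left f3 hb0.le)
            gcongr
        _ = _ := by
            rw [mul_pow, ← pow_mul, pow_add, pow_add]
            ring
    have f5 : e' ≤ 2 + W + (Nat.log b K + 1) * W := by
      by_contra hcon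
      push Not at hcon
      have := pow_lt_pow_right₀ (by linarith : (1 : ℝ) < b) hcon
      linarith
    have f6 : 2 + W ≤ (2 + W) * (Nat.log b K + 1) := Nat.le_mul_of_pos_right _ (Nat.succ_pos _)
    calc e' ≤ 2 + W + (Nat.log b K + 1) * W := f5
      _ ≤ (2 + W) * (Nat.log b K + 1) + (Nat.log b K + 1) * W := by omega
      _ = _ := by ring
  have hYb : ∀ g ∈ Gs b m, |cc + κ * (Pool.Agent.TH872.Mir.val b (2 * m + s) g : ℕ)| < ((b ^ e * b ^ k : ℕ) : ℤ) := by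
    intro g hg
    have h0 : ((Pool.Agent.TH872.Mir.val b (2 * m + s) g : ℕ) : ℤ) < 2 * (b : ℤ) ^ (2 * m + s) := by
      exact_mod_cast val_lt b m s (by omega) g hg
    calc |cc + κ * (Pool.Agent.TH872.Mir.val b (2 * m + s) g : ℕ)| ≤
          |cc| + |κ * (Pool.Agent.TH872.Mir.val b (2 * m + s) g : ℕ)| := abs_add_le _ _
      _ = |cc| + |κ| * (Pool.Agent.TH872.Mir.val b (2 * m + s) g : ℕ) := by
          rw [abs_mul, abs_of_nonneg (by positivity : (0 : ℤ) ≤ ((Pool.Agent.TH872.Mir.val b (2 * m + s) g : ℕ) : ℤ))]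
      _ < |cc| + |κ| * (2 * (b : ℤ) ^ (2 * m + s)) := by
          have := mul_lt_mul_of_pos_left h0 (abs_pos.2 hκ)
          linarith
      _ ≤ _ := hcc.trans (le_of_eq (by rw [hk]; push_cast; ring))
  have hXL : ((b ^ e * b ^ k : ℕ) : ℝ) ≤ X / L ^ (C + 5) := by
    rw [le_div_iff₀ (by positivity)]
    push_cast
    calc (b : ℝ) ^ e * (b : ℝ) ^ k * L ^ (C + 5) ≤ L * (b : ℝ) ^ k * L ^ (C + 5) := by gcongr
      _ = (b : ℝ) ^ k * L ^ (C + 6) := by rw [pow_succ L (C + 5)]; ring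
      _ ≤ X := hX1
  have hXX : (X : ℝ) / L ^ (C + 5) ≤ X := div_le_self hXr.le (one_le_pow₀ hL1)
  have h := h0 K (by omega) X hK1 hK2 _ (Gs b m) (pw w) (fun g => cc + κ * (Pool.Agent.TH872.Mir.val b (2 * m + s) g : ℕ)) (by
    intro δ
    have := hD e' m K hee (by rw [he', hk]) (by omega) w hw (cc + δ)
    have e1 : (fun g : Fin m → ℕ × ℕ => cc + κ * (Pool.Agent.TH872.Mir.val b (2 * m + s) g : ℕ) + (δ : ℤ)) =
        (fun g => (cc + δ) + κ * (Pool.Agent.TH872.Mir.val b (2 * m + s) g : ℕ)) := by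
      funext g
      ring
    rw [e1]
    exact this) (by
    intro g hg
    have h1 := hYb g hg
    rw [abs_lt] at h1
    rw [← hL]
    have h2 : ((b ^ e * b ^ k : ℕ) : ℤ) ≤ (X : ℤ) := by
      exact_mod_cast hXL.trans hXX
    constructor
    · linarith [h1.1]
    · have h3 : ((cc + κ * (Pool.Agent.TH872.Mir.val b (2 * m + s) g : ℕ) : ℤ) : ℝ) ≤ ((b ^ e * b ^ k : ℕ) : ℝ) := by
        exact_mod_cast h1.2.le
      exact h3.trans hXL) E (fun g hg hEg => hbad _ (hE g hg hEg))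
  refine h.trans ?_
  have hm1 : (0 : ℝ) < ((2 * m + s : ℕ) : ℝ) := by exact_mod_cast (by omega : 0 < 2 * m + s)
  apply one_div_le_one_div_of_le (by positivity)
  apply pow_le_pow_left₀ hm1.le
  exact_mod_cast (by omega : 2 * m + s ≤ K)

end Pool.Agent.TH872.Mir
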