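import Pool.Agent.TH872.Mir1

set_option autoImplicit false

/-! Random integers with mirror-dependent digits: the law. -/

namespace Pool.Agent.TH872.Mir
open Finset
open Pool.Agent.H807R2.Dav
open Pool.Agent.W93.DG
open Pool.Agent.W93.RD

/-- `x` has distance at least `δ` from the integers -/
def Far (δ x : ℝ) : Prop := ∀ n : ℤ, δ ≤ |x - n|

lemma Far.neg {δ x : ℝ} (h : Far δ x) : Far δ (-x) := by
  intro n
  have := h (-n)
  rw [show -x - (n : ℝ) = -(x - ((-n : ℤ) : ℝ)) by push_cast; ring, abs_neg]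
  exact this

open Classical in
/-- the number of the positions at which the frequency is far from the integers -/
noncomputable def farCount (b F k : ℕ) (θ : ℝ) : ℕ :=
  ((range k).filter (fun j => Far (1 / (b : ℝ) ^ 2) ((F : ℝ) * ((b : ℝ) ^ j * θ)))).card

open Classical in
/-- most of the frequencies can be recovered -/
lemma count (b F m s : ℕ) (hb : 2 ≤ b) (hF : F = (b ^ 4).factorial) (X Y : ℕ → ℤ)
    (hX0 : ∀ i < m, 1 ≤ i → X i ≠ 0) (hX : ∀ i < m, 1 ≤ i → |X i| < b)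
    (hY0 : ∀ i < m, 1 ≤ i → Y i ≠ 0) (hY : ∀ i < m, 1 ≤ i → |Y i| < b) (θ : ℝ) :
    farCount b F (2 * m + s) θ ≤
      4 * ((Ico 1 m).filter (fun i => Far (1 / (2 * (F : ℝ) * (b : ℝ) ^ 4))
        ((X i : ℝ) * ((b : ℝ) ^ i * θ) + (Y i : ℝ) * ((b : ℝ) ^ (2 * m + s - 1 - i) * θ)))).card + (4 + s) := by
  unfold farCount
  obtain ⟨δ, hδ⟩ : ∃ δ, δ = 1 / (2 * (F : ℝ) * (b : ℝ) ^ 4) := ⟨_, rfl⟩
  rw [← hδ]
  obtain ⟨k, hk⟩ : ∃ k, k = 2 * m + s := ⟨_, rfl⟩
  rw [← hk]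
  obtain ⟨u, hu⟩ : ∃ u : ℕ → ℝ, ∀ i, u i = (X i : ℝ) * ((b : ℝ) ^ i * θ) + (Y i : ℝ) * ((b : ℝ) ^ (k - 1 - i) * θ) := ⟨_, fun i => rfl⟩
  have hG' : (Ico 1 m).filter (fun i => Far δ ((X i : ℝ) * ((b : ℝ) ^ i * θ) + (Y i : ℝ) * ((b : ℝ) ^ (k - 1 - i) * θ))) =
      (Ico 1 m).filter (fun i => Far δ (u i)) := by
    apply filter_congr
    intro i _
    rw [hu]
  rw [hG']
  obtain ⟨G, hG⟩ : ∃ G, G = (Ico 1 m).filter (fun i => Far δ (u i)) := ⟨_, rfl⟩
  rw [← hG]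
  have hlow : ∀ i, 1 ≤ i → i + 1 < m → Far (1 / (b : ℝ) ^ 2) ((F : ℝ) * ((b : ℝ) ^ i * θ)) → i ∈ G ∨ i + 1 ∈ G := by
    intro i h1 h2 hfar
    have e1 : (b : ℝ) ^ (k - 1 - i) * θ = b * ((b : ℝ) ^ (k - 1 - (i + 1)) * θ) := by
      rw [← mul_assoc, ← pow_succ']
      congr 2
      omega
    have e2 : (b : ℝ) ^ (i + 1) * θ = b * ((b : ℝ) ^ i * θ) := by rw [pow_succ']; ring
    have := extract b F hb hF (X i) (Y i) (X (i + 1)) (Y (i + 1)) (hX i (by omega) h1) (hY0 i (by omega) h1)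
      (hY i (by omega) h1) (hX0 (i + 1) h2 (by omega)) (hX (i + 1) h2 (by omega)) (hY (i + 1) h2 (by omega))
      ((b : ℝ) ^ i * θ) ((b : ℝ) ^ (k - 1 - (i + 1)) * θ) hfar
    rw [← e1, ← e2, ← hδ] at this
    rcases this with h | h
    · left
      rw [hG, mem_filter, mem_Ico]
      refine ⟨⟨h1, by omega⟩, ?_⟩
      rw [hu]; exact h
    · right
      rw [hG, mem_filter, mem_Ico]
      refine ⟨⟨by omega, h2⟩, ?_⟩
      rw [hu]; exact h
  have hhigh : ∀ i, 1 ≤ i → i + 1 < m → Far (1 / (b : ℝ) ^ 2) ((F : ℝ) * ((b : ℝ) ^ (k - 1 - (i + 1)) * θ)) → i ∈ G ∨ i + 1 ∈ G := by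
    intro i h1 h2 hfar
    have e1 : (b : ℝ) ^ (k - 1 - i) * θ = b * ((b : ℝ) ^ (k - 1 - (i + 1)) * θ) := by
      rw [← mul_assoc, ← pow_succ']
      congr 2
      omega
    have e2 : (b : ℝ) ^ (i + 1) * θ = b * ((b : ℝ) ^ i * θ) := by rw [pow_succ']; ring
    have := extract b F hb hF (Y (i + 1)) (X (i + 1)) (Y i) (X i) (hY (i + 1) h2 (by omega)) (hX0 (i + 1) h2 (by omega))
      (hX (i + 1) h2 (by omega)) (hY0 i (by omega) h1) (hY i (by omega) h1) (hX i (by omega) h1)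
      ((b : ℝ) ^ (k - 1 - (i + 1)) * θ) ((b : ℝ) ^ i * θ) hfar
    rw [← e1, ← e2, ← hδ] at this
    rcases this with h | h
    · right
      rw [hG, mem_filter, mem_Ico]
      refine ⟨⟨by omega, h2⟩, ?_⟩
      rw [hu, add_comm]; exact h
    · left
      rw [hG, mem_filter, mem_Ico]
      refine ⟨⟨h1, by omega⟩, ?_⟩
      rw [hu, add_comm]; exact h
  have hsub : (range k).filter (fun j => Far (1 / (b : ℝ) ^ 2) ((F : ℝ) * ((b : ℝ) ^ j * θ))) ⊆
      (({0, m - 1, k - 1, k - 2} : Finset ℕ) ∪ Ico m (m + s)) ∪ ((G ∪ G.image (fun i => i - 1)) ∪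
        (G.image (fun i => k - 1 - i) ∪ G.image (fun i => k - 2 - i))) := by
    intro j hj
    rw [mem_filter, mem_range] at hj
    obtain ⟨hjk, hfar⟩ := hj
    simp only [mem_union, mem_insert, mem_singleton, mem_Ico, mem_image]
    by_cases c1 : j < m
    · by_cases c2 : j = 0 ∨ j = m - 1
      · left; left
        rcases c2 with c2 | c2
        · left; exact c2
        · right; left; exact c2
      · push Not at c2
        right; left
        rcases hlow j (by omega) (by omega) hfar with h | h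
        · left; exact h
        · right; exact ⟨j + 1, h, by omega⟩
    · by_cases c3 : j < m + s
      · left; right; exact ⟨by omega, c3⟩
      · by_cases c4 : j = k - 1 ∨ j = k - 2
        · left; left; right; right; exact c4
        · push Not at c4
          right; right
          obtain ⟨i, hi⟩ : ∃ i, j = k - 1 - (i + 1) ∧ 1 ≤ i ∧ i + 1 < m := ⟨k - 2 - j, by omega, by omega, by omega⟩
          obtain ⟨hji, hi1, hi2⟩ := hi
          rw [hji] at hfar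
          rcases hhigh i hi1 hi2 hfar with h | h
          · right; exact ⟨i, h, by omega⟩
          · left; exact ⟨i + 1, h, by omega⟩
  refine (card_le_card hsub).trans ?_
  have c1 : (({0, m - 1, k - 1, k - 2} : Finset ℕ)).card ≤ 4 := card_le_four
  have c2 : (Ico m (m + s)).card = s := by simp
  have c3 := card_union_le ({0, m - 1, k - 1, k - 2} : Finset ℕ) (Ico m (m + s))
  have c4 := card_union_le G (G.image (fun i => i - 1))
  have c5 := card_union_le (G.image (fun i => k - 1 - i)) (G.image (fun i => k - 2 - i))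
  have c6 : (G.image (fun i => i - 1)).card ≤ G.card := card_image_le
  have c7 : (G.image (fun i => k - 1 - i)).card ≤ G.card := card_image_le
  have c8 : (G.image (fun i => k - 2 - i)).card ≤ G.card := card_image_le
  have c9 := card_union_le (G ∪ G.image (fun i => i - 1)) (G.image (fun i => k - 1 - i) ∪ G.image (fun i => k - 2 - i))
  have c10 := card_union_le (({0, m - 1, k - 1, k - 2} : Finset ℕ) ∪ Ico m (m + s)) ((G ∪ G.image (fun i => i - 1)) ∪
        (G.image (fun i => k - 1 - i) ∪ G.image (fun i => k - 2 - i)))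
  omega

open Classical in
/-- the decay of the characteristic function -/
lemma char_decay (b m s : ℕ) (hb : 2 ≤ b) (η : ℝ) (hη : 0 < η) (w : ℕ → ℕ × ℕ → ℝ) (hw : Mirr b m η w) (θ : ℝ) (N : ℕ)
    (hN : 4 * N + (4 + s) ≤ farCount b (b ^ 4).factorial (2 * m + s) θ) (γ : ℝ)
    (hγ : γ = 1 - 4 * (η / (b : ℝ) ^ 4) * (1 / (2 * ((b ^ 4).factorial : ℝ) * (b : ℝ) ^ 4)) ^ 2) (hγ0 : 0 ≤ γ) :
    ‖∑ g ∈ Gs b m, ((pw w g : ℝ) : ℂ) * ee ((val b (2 * m + s) g : ℝ) * θ)‖ ≤ γ ^ N := by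
  obtain ⟨F, hF⟩ : ∃ F, F = (b ^ 4).factorial := ⟨_, rfl⟩
  rw [← hF] at hN hγ
  have hb0 : (0 : ℝ) < b := by exact_mod_cast (by omega : 0 < b)
  have hF0 : (0 : ℝ) < F := by rw [hF]; exact_mod_cast (b ^ 4).factorial_pos
  have hex : ∀ i : ℕ, ∃ a : (ℕ × ℕ) × (ℕ × ℕ), i < m → 1 ≤ i → a.1 ∈ Q b ∧ a.2 ∈ Q b ∧ a.2.1 ≠ a.1.1 ∧ a.2.2 ≠ a.1.2 ∧
      η / (b : ℝ) ^ 4 ≤ w i a.1 ∧ η / (b : ℝ) ^ 4 ≤ w i a.2 := by
    intro i
    by_cases h : i < m ∧ 1 ≤ i
    · obtain ⟨a₁, h1, a₂, h2, h3, h4, h5, h6⟩ := quad b (w i) (hw.nonneg i h.1) (hw.sum i h.1) η hη (hw.mir i h.1 h.2)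
      exact ⟨(a₁, a₂), fun _ _ => ⟨h1, h2, h3, h4, h5, h6⟩⟩
    · exact ⟨((0, 0), (0, 0)), fun h1 h2 => absurd ⟨h1, h2⟩ h⟩
  choose a ha using hex
  obtain ⟨X, hX⟩ : ∃ X : ℕ → ℤ, ∀ i, X i = ((a i).2.1 : ℤ) - (a i).1.1 := ⟨_, fun i => rfl⟩
  obtain ⟨Y, hY⟩ : ∃ Y : ℕ → ℤ, ∀ i, Y i = ((a i).2.2 : ℤ) - (a i).1.2 := ⟨_, fun i => rfl⟩
  have hmem : ∀ i < m, 1 ≤ i → (a i).1.1 < b ∧ (a i).1.2 < b ∧ (a i).2.1 < b ∧ (a i).2.2 < b := by
    intro i h1 h2
    obtain ⟨e1, e2, -, -, -, -⟩ := ha i h1 h2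
    unfold Q at e1 e2
    rw [mem_product, mem_range, mem_range] at e1 e2
    exact ⟨e1.1, e1.2, e2.1, e2.2⟩
  have hcount := count b F m s hb hF X Y (by
      intro i h1 h2
      obtain ⟨-, -, e3, -, -, -⟩ := ha i h1 h2
      rw [hX]; omega) (by
      intro i h1 h2
      obtain ⟨e1, e2, e3, e4⟩ := hmem i h1 h2
      rw [hX, abs_lt]; constructor <;> omega) (by
      intro i h1 h2
      obtain ⟨-, -, -, e4, -, -⟩ := ha i h1 h2
      rw [hY]; omega) (by
      intro i h1 h2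
      obtain ⟨e1, e2, e3, e4⟩ := hmem i h1 h2
      rw [hY, abs_lt]; constructor <;> omega) θ
  obtain ⟨G, hG⟩ : ∃ G, G = (Ico 1 m).filter (fun i => Far (1 / (2 * (F : ℝ) * (b : ℝ) ^ 4))
        ((X i : ℝ) * ((b : ℝ) ^ i * θ) + (Y i : ℝ) * ((b : ℝ) ^ (2 * m + s - 1 - i) * θ))) := ⟨_, rfl⟩
  rw [← hG] at hcount
  have hNG : N ≤ G.card := by omega
  have hγ1 : γ ≤ 1 := by
    rw [hγ]
    have : 0 ≤ 4 * (η / (b : ℝ) ^ 4) * (1 / (2 * (F : ℝ) * (b : ℝ) ^ 4)) ^ 2 := by positivity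
    linarith
  refine le_trans ?_ (pow_le_pow_of_le_one hγ0 hγ1 hNG)
  rw [char_prod, norm_prod]
  have hfac : ∀ i ∈ range m, ‖∑ x ∈ Q b, ((w i x : ℝ) : ℂ) * ee (x.1 * ((b : ℝ) ^ i * θ) + x.2 * ((b : ℝ) ^ (2 * m + s - 1 - i) * θ))‖ ≤
      if i ∈ G then γ else 1 := by
    intro i hi
    rw [mem_range] at hi
    split_ifs with hiG
    · rw [hG, mem_filter, mem_Ico] at hiG
      obtain ⟨e1, e2, e3, e4, e5, e6⟩ := ha i hi hiG.1.1
      rw [hγ]
      apply pair_bound b (w i) (hw.nonneg i hi) (hw.sum i hi) (a i).1 (a i).2 e1 e2 (fun h => e3 (by rw [h])) _ (by positivity) e5 e6 _ _ _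
        (by positivity)
      intro n
      have := hiG.2 n
      rw [hX, hY] at this
      exact this
    · refine (norm_sum_le _ _).trans ?_
      rw [← hw.sum i hi]
      apply le_of_eq
      apply sum_congr rfl
      intro x _
      rw [norm_mul, norm_ee, mul_one, Complex.norm_real, Real.norm_of_nonneg (hw.nonneg i hi x)]
  refine (prod_le_prod (fun _ _ => norm_nonneg _) hfac).trans (le_of_eq ?_)
  rw [Finset.prod_ite, prod_const_one, mul_one, prod_const]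
  congr 2
  ext i
  rw [mem_filter, mem_range]
  constructor
  · exact fun h => h.2
  · intro h
    refine ⟨?_, h⟩
    rw [hG, mem_filter, mem_Ico] at h
    exact h.1.2

lemma pw_nonneg {b m : ℕ} {η : ℝ} {w : ℕ → ℕ × ℕ → ℝ} (hw : Mirr b m η w) (g : Fin m → ℕ × ℕ) : 0 ≤ pw w g :=
  prod_nonneg fun i _ => hw.nonneg i i.2 _

lemma pw_sum {b m : ℕ} {η : ℝ} {w : ℕ → ℕ × ℕ → ℝ} (hw : Mirr b m η w) : ∑ g ∈ Gs b m, pw w g = 1 := by
  unfold Gs pw
  rw [← Finset.prod_univ_sum]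
  apply prod_eq_one
  intro j _
  exact hw.sum j j.2

/-- digits and frequencies -/
lemma ne_far (b F k e t κ' : ℕ) (κ : ℤ) (hκ : κ' = κ.natAbs) (hb : 2 ≤ b) :
    ne b 0 (k + e) ((F * κ' * t) % b ^ (k + e + 1)) ≤
      e + farCount b F k (κ * ((t : ℝ) / ((b ^ (k + e + 1) : ℕ) : ℝ))) := by
  classical
  unfold farCount
  have hb0 : (0 : ℝ) < b := by exact_mod_cast (by omega : 0 < b)
  unfold ne
  rw [zero_add]
  have hsub : (Ico 0 (k + e)).filter (fun j => ¬ Ext b j (F * κ' * t % b ^ (k + e + 1))) ⊆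
      range e ∪ ((range k).filter (fun j => Far (1 / (b : ℝ) ^ 2)
        ((F : ℝ) * ((b : ℝ) ^ j * (κ * ((t : ℝ) / ((b ^ (k + e + 1) : ℕ) : ℝ))))))).image (fun j => k + e - 1 - j) := by
    intro i hi
    rw [mem_filter, mem_Ico] at hi
    rw [mem_union, mem_range, mem_image]
    by_cases c : i < e
    · left; exact c
    · right
      refine ⟨k + e - 1 - i, ?_, by omega⟩
      rw [mem_filter, mem_range]
      refine ⟨by omega, ?_⟩
      have h1 : ¬ Ext b i (F * κ' * t) := by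
        rw [← Ext_mod b i (k + e) _ (by omega)]
        exact hi.2
      have h2 : Far (1 / (b : ℝ) ^ 2) (((F * κ' * t : ℕ) : ℝ) / (b : ℝ) ^ (i + 2)) := ext_dist b i _ hb h1
      have h3 : (b : ℝ) ^ (k + e + 1) = (b : ℝ) ^ (k + e - 1 - i) * (b : ℝ) ^ (i + 2) := by
        rw [← pow_add]; congr 1; omega
      have h5 : (0 : ℝ) < (b : ℝ) ^ (k + e - 1 - i) := by positivity
      have h6 : (0 : ℝ) < (b : ℝ) ^ (i + 2) := by positivity
      rcases le_or_gt 0 κ with h0 | h0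
      · have e1 : (F : ℝ) * ((b : ℝ) ^ (k + e - 1 - i) * (κ * ((t : ℝ) / ((b ^ (k + e + 1) : ℕ) : ℝ)))) =
            ((F * κ' * t : ℕ) : ℝ) / (b : ℝ) ^ (i + 2) := by
          have : (κ : ℝ) = (κ' : ℝ) := by
            rw [hκ, Nat.cast_natAbs, abs_of_nonneg h0]
          push_cast
          rw [h3, this]
          field_simp
        rw [e1]; exact h2
      · have e1 : (F : ℝ) * ((b : ℝ) ^ (k + e - 1 - i) * (κ * ((t : ℝ) / ((b ^ (k + e + 1) : ℕ) : ℝ)))) =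
            -(((F * κ' * t : ℕ) : ℝ) / (b : ℝ) ^ (i + 2)) := by
          have : (κ : ℝ) = -(κ' : ℝ) := by
            rw [hκ, Nat.cast_natAbs, abs_of_neg h0]
            push_cast
            ring
          push_cast
          rw [h3, this]
          field_simp
        rw [e1]; exact h2.neg
  refine (card_le_card hsub).trans ((card_union_le _ _).trans ?_)
  rw [card_range]
  exact Nat.add_le_add_left card_image_le _

end Pool.Agent.TH872.Mir
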