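import Pool.Agent.TH872.Mir2

set_option autoImplicit false

/-! Random integers with mirror-dependent digits: the law, and small values. -/

namespace Pool.Agent.TH872.Mir
open Finset
open Pool.Agent.H807R2.Dav
open Pool.Agent.W93.DG
open Pool.Agent.W93.RD
open Pool.Agent.W93.AU

/-- the multiplier -/
def FF0 (b : ℕ) (κ : ℤ) : ℕ := (b ^ 4).factorial * κ.natAbs

lemma FF0_pos (b : ℕ) (κ : ℤ) (hκ : κ ≠ 0) : 1 ≤ FF0 b κ :=
  Nat.mul_pos (b ^ 4).factorial_pos (Int.natAbs_pos.2 hκ)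

/-- the law of the integers with mirror-dependent digits -/
theorem mir_law (b : ℕ) (hb : 2 ≤ b) (η : ℝ) (hη : 0 < η) (κ : ℤ) (e s V : ℕ) : ∃ D : ℕ, ∀ m K : ℕ, K = 2 * m + s + e → 1 ≤ K →
    ∀ w : ℕ → ℕ × ℕ → ℝ, Mirr b m η w → ∀ cc : ℤ,
    Law b (FF0 b κ) D V K (Gs b m) (pw w) (fun g => cc + κ * (val b (2 * m + s) g : ℕ)) := by
  obtain ⟨γ, hγ⟩ : ∃ γ, γ = 1 - 4 * (η / (b : ℝ) ^ 4) * (1 / (2 * ((b ^ 4).factorial : ℝ) * (b : ℝ) ^ 4)) ^ 2 := ⟨_, rfl⟩
  have hbr : (2 : ℝ) ≤ b := by exact_mod_cast hb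
  have hb0 : (0 : ℝ) < b := by linarith
  have hF0 : (0 : ℝ) < ((b ^ 4).factorial : ℝ) := by exact_mod_cast (b ^ 4).factorial_pos
  have hγ1 : γ < 1 := by
    rw [hγ]
    have : 0 < 4 * (η / (b : ℝ) ^ 4) * (1 / (2 * ((b ^ 4).factorial : ℝ) * (b : ℝ) ^ 4)) ^ 2 := by positivity
    linarith
  obtain ⟨v, hv⟩ : ∃ v : ℕ, (max γ 0) ^ v < 1 / b :=
    exists_pow_lt_of_lt_one (show (0 : ℝ) < 1 / b by positivity) (max_lt hγ1 one_pos)
  refine ⟨4 * (v * V) + (4 + s + e), fun m K hK hK1 w hw cc => ⟨fun g _ => pw_nonneg hw g, (pw_sum hw).le, ?_⟩⟩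
  intro t ht
  have hKe : b ^ (K + 1) = b ^ (2 * m + s + e + 1) := by rw [hK]
  have h1 : ne b 0 K (FF0 b κ * t % b ^ (K + 1)) ≤
      e + farCount b (b ^ 4).factorial (2 * m + s) (κ * ((t : ℝ) / ((b ^ (2 * m + s + e + 1) : ℕ) : ℝ))) := by
    have := ne_far b (b ^ 4).factorial (2 * m + s) e t κ.natAbs κ rfl hb
    rw [hK]
    exact this
  have hN : 4 * (v * V * (Nat.log b K + 1)) + (4 + s) ≤
      farCount b (b ^ 4).factorial (2 * m + s) (κ * ((t : ℝ) / ((b ^ (2 * m + s + e + 1) : ℕ) : ℝ))) := by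
    have h2 := ht.trans h1
    have h3 : 4 * (v * V * (Nat.log b K + 1)) + (4 + s + e) ≤ (4 * (v * V) + (4 + s + e)) * (Nat.log b K + 1) := by
      have : 4 + s + e ≤ (4 + s + e) * (Nat.log b K + 1) := Nat.le_mul_of_pos_right _ (Nat.succ_pos _)
      calc 4 * (v * V * (Nat.log b K + 1)) + (4 + s + e) ≤ 4 * (v * V * (Nat.log b K + 1)) + (4 + s + e) * (Nat.log b K + 1) := by omega
        _ = _ := by ring
    omega
  have hγ0 : 0 ≤ γ := by
    rw [hγ]
    have hη1 : η ≤ 1 ∨ ¬ η ≤ 1 := em _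
    have c1 : (1 : ℝ) ≤ ((b ^ 4).factorial : ℝ) := by exact_mod_cast (b ^ 4).factorial_pos
    have c2 : (16 : ℝ) ≤ (b : ℝ) ^ 4 := by
      calc (16 : ℝ) = 2 ^ 4 := by norm_num
        _ ≤ _ := pow_le_pow_left₀ (by norm_num) hbr 4
    -- η ≤ 1 if there is a nontrivial pair
    by_cases hm : 1 < m
    · have hη1 : η ≤ 1 := by
        have h1 := hw.mir 1 hm le_rfl
        have h2 : ∑ a ∈ Q b, ∑ a' ∈ Q b, (if a.1 ≠ a'.1 ∧ a.2 ≠ a'.2 then w 1 a * w 1 a' else 0) ≤
            ∑ a ∈ Q b, ∑ a' ∈ Q b, w 1 a * w 1 a' := by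
          apply sum_le_sum; intro a _
          apply sum_le_sum; intro a' _
          have := mul_nonneg (hw.nonneg 1 hm a) (hw.nonneg 1 hm a')
          split_ifs
          · exact le_rfl
          · exact this
        rw [← sum_mul_sum, hw.sum 1 hm, one_mul] at h2
        linarith
      have c3 : η / (b : ℝ) ^ 4 ≤ 1 / 16 := by
        rw [div_le_div_iff₀ (by positivity) (by norm_num)]
        nlinarith
      have c4 : 1 / (2 * ((b ^ 4).factorial : ℝ) * (b : ℝ) ^ 4) ≤ 1 / 32 := by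
        apply div_le_div_of_nonneg_left (by norm_num) (by norm_num)
        nlinarith
      have c5 : 0 ≤ 1 / (2 * ((b ^ 4).factorial : ℝ) * (b : ℝ) ^ 4) := by positivity
      have c6 : (1 / (2 * ((b ^ 4).factorial : ℝ) * (b : ℝ) ^ 4)) ^ 2 ≤ (1 / 32) ^ 2 := pow_le_pow_left₀ c5 c4 2
      have c7 : 0 ≤ η / (b : ℝ) ^ 4 := by positivity
      nlinarith
    · exfalso
      -- there are not enough positions
      have h4 : farCount b (b ^ 4).factorial (2 * m + s) (κ * ((t : ℝ) / ((b ^ (2 * m + s + e + 1) : ℕ) : ℝ))) ≤ 2 * m + s := by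
        classical
        unfold farCount
        refine (card_filter_le _ _).trans ?_
        rw [card_range]
      omega
  have hdec := char_decay b m s hb η hη w hw (κ * ((t : ℝ) / ((b ^ (2 * m + s + e + 1) : ℕ) : ℝ))) _ hN γ hγ hγ0
  have hshift : ∑ g ∈ Gs b m, ((pw w g : ℝ) : ℂ) * ee (((cc + κ * (val b (2 * m + s) g : ℕ) : ℤ) : ℝ) * ((t : ℝ) / ((b ^ (K + 1) : ℕ) : ℝ))) =
      ee ((cc : ℝ) * ((t : ℝ) / ((b ^ (K + 1) : ℕ) : ℝ))) *
        ∑ g ∈ Gs b m, ((pw w g : ℝ) : ℂ) * ee ((val b (2 * m + s) g : ℝ) * (κ * ((t : ℝ) / ((b ^ (2 * m + s + e + 1) : ℕ) : ℝ)))) := by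
    rw [mul_sum]
    apply sum_congr rfl
    intro g _
    have : ee (((cc + κ * (val b (2 * m + s) g : ℕ) : ℤ) : ℝ) * ((t : ℝ) / ((b ^ (K + 1) : ℕ) : ℝ))) =
        ee ((cc : ℝ) * ((t : ℝ) / ((b ^ (K + 1) : ℕ) : ℝ))) *
          ee ((val b (2 * m + s) g : ℝ) * (κ * ((t : ℝ) / ((b ^ (2 * m + s + e + 1) : ℕ) : ℝ)))) := by
      rw [← ee_add, hKe]
      congr 1
      push_cast
      ring
    rw [this]
    ring
  rw [hshift, norm_mul, norm_ee, one_mul]
  refine hdec.trans ?_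
  have h5 : γ ^ (v * V * (Nat.log b K + 1)) ≤ (1 / (b : ℝ)) ^ (V * (Nat.log b K + 1)) := by
    rw [mul_assoc, pow_mul]
    apply pow_le_pow_left₀ (by positivity)
    refine (pow_le_pow_left₀ hγ0 (le_max_left γ 0) v).trans hv.le
  refine h5.trans ?_
  rw [one_div_pow]
  apply div_le_div_of_nonneg_left (by norm_num) (by
    have : (0 : ℝ) < K := by exact_mod_cast hK1
    positivity)
  have h6 : (K : ℝ) ≤ (b : ℝ) ^ (Nat.log b K + 1) := by
    have := Nat.lt_pow_succ_log_self (b := b) (by omega) K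
    exact_mod_cast this.le
  calc (K : ℝ) ^ V ≤ ((b : ℝ) ^ (Nat.log b K + 1)) ^ V := pow_le_pow_left₀ (Nat.cast_nonneg _) h6 _
    _ = _ := by rw [← pow_mul]; congr 1; ring

/-! ### short intervals -/

lemma sum_lt_pow (b : ℕ) (d : ℕ → ℕ) (n : ℕ) (hd : ∀ i < n, d i < b) : ∑ i ∈ range n, d i * b ^ i < b ^ n := by
  induction n with
  | zero => simp
  | succ n ih =>
    rw [sum_range_succ, pow_succ]
    have h1 := ih (fun i hi => hd i (by omega))
    have h2 : d n + 1 ≤ b := hd n (by omega)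
    have h3 : (d n + 1) * b ^ n ≤ b * b ^ n := Nat.mul_le_mul_right _ h2
    have h4 : (d n + 1) * b ^ n = d n * b ^ n + b ^ n := by ring
    have h5 : b ^ n * b = b * b ^ n := by ring
    omega

lemma sum_lt_pow' (b : ℕ) (hb : 0 < b) (n : ℕ) : ∀ (d : ℕ → ℕ) (k : ℕ), n ≤ k → (∀ i < n, d i < b) →
    ∑ i ∈ range n, d i * b ^ (k - 1 - i) < b ^ k := by
  induction n with
  | zero =>
    intro d k _ hd
    rw [range_zero, sum_empty]
    positivity
  | succ n ih =>
    intro d k hk hd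
    rw [sum_range_succ']
    have h1 := ih (fun i => d (i + 1)) (k - 1) (by omega) (fun i hi => hd (i + 1) (by omega))
    have h2 : ∑ i ∈ range n, d (i + 1) * b ^ (k - 1 - (i + 1)) = ∑ i ∈ range n, d (i + 1) * b ^ (k - 1 - 1 - i) := by
      apply sum_congr rfl
      intro i _
      congr 2
      omega
    rw [h2]
    have h3 : d 0 + 1 ≤ b := hd 0 (by omega)
    have h4 : (d 0 + 1) * b ^ (k - 1) ≤ b * b ^ (k - 1) := Nat.mul_le_mul_right _ h3
    have h5 : b * b ^ (k - 1) = b ^ k := by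
      rw [← pow_succ']; congr 1; omega
    have h6 : (d 0 + 1) * b ^ (k - 1) = d 0 * b ^ (k - 1) + b ^ (k - 1) := by ring
    rw [Nat.sub_zero]
    omega

lemma digits_inj (b : ℕ) (T : ℕ) (d d' : ℕ → ℕ) (hd : ∀ i < T, d i < b) (hd' : ∀ i < T, d' i < b)
    (h : ∑ i ∈ range T, d i * b ^ (T - 1 - i) = ∑ i ∈ range T, d' i * b ^ (T - 1 - i)) : ∀ i < T, d i = d' i := by
  induction T with
  | zero => intro i hi; omega
  | succ T ih =>
    have hs : ∀ f : ℕ → ℕ, ∑ i ∈ range (T + 1), f i * b ^ (T + 1 - 1 - i) = b * ∑ i ∈ range T, f i * b ^ (T - 1 - i) + f T := by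
      intro f
      rw [sum_range_succ, mul_sum]
      congr 1
      · apply sum_congr rfl
        intro i hi
        rw [mem_range] at hi
        have : T + 1 - 1 - i = (T - 1 - i) + 1 := by omega
        rw [this, pow_succ]
        ring
      · simp
    rw [hs, hs] at h
    have hT : d T < b := hd T (by omega)
    have hT' : d' T < b := hd' T (by omega)
    have h1 : d T = d' T := by
      have := congrArg (fun x => x % b) h
      simp only [Nat.mul_add_mod] at this
      rwa [Nat.mod_eq_of_lt hT, Nat.mod_eq_of_lt hT'] at this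
    have h2 : ∑ i ∈ range T, d i * b ^ (T - 1 - i) = ∑ i ∈ range T, d' i * b ^ (T - 1 - i) := by
      rw [h1] at h
      have h3 := Nat.add_right_cancel h
      exact Nat.eq_of_mul_eq_mul_left (by omega) h3
    intro i hi
    rcases Nat.lt_or_ge i T with h3 | h3
    · exact ih (fun i hi => hd i (by omega)) (fun i hi => hd' i (by omega)) h2 i h3
    · have : i = T := by omega
      rw [this]; exact h1

/-- a digit is not determined -/
lemma coord_prob (b : ℕ) (v : ℕ × ℕ → ℝ) (hv0 : ∀ a, 0 ≤ v a) (hsum : ∑ a ∈ Q b, v a = 1) (η : ℝ) (hη : 0 ≤ η)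
    (hm : η ≤ ∑ a ∈ Q b, ∑ a' ∈ Q b, if a.1 ≠ a'.1 ∧ a.2 ≠ a'.2 then v a * v a' else 0) (y : ℕ) :
    ∑ x ∈ Q b, (if x.2 = y then v x else 0) ≤ 1 - η / 2 := by
  obtain ⟨q, hq⟩ : ∃ q, q = ∑ x ∈ Q b, (if x.2 = y then v x else 0) := ⟨_, rfl⟩
  rw [← hq]
  have hq1 : q ≤ 1 := by
    rw [hq, ← hsum]
    apply sum_le_sum
    intro x _
    split_ifs
    · exact le_rfl
    · exact hv0 x
  have h1 : ∑ a ∈ Q b, ∑ a' ∈ Q b, (if a.1 ≠ a'.1 ∧ a.2 ≠ a'.2 then v a * v a' else 0) ≤
      ∑ a ∈ Q b, ∑ a' ∈ Q b, (v a * v a' - (if a.2 = y then v a else 0) * (if a'.2 = y then v a' else 0)) := by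
    apply sum_le_sum; intro a _
    apply sum_le_sum; intro a' _
    have h2 := mul_nonneg (hv0 a) (hv0 a')
    by_cases c1 : a.2 = y
    · by_cases c2 : a'.2 = y
      · rw [if_neg (fun h => h.2 (by rw [c1, c2])), if_pos c1, if_pos c2]; linarith
      · rw [if_neg c2, mul_zero, sub_zero]
        split_ifs
        · exact le_rfl
        · exact h2
    · rw [if_neg c1, zero_mul, sub_zero]
      split_ifs
      · exact le_rfl
      · exact h2
  have h2 : ∑ a ∈ Q b, ∑ a' ∈ Q b, (v a * v a' - (if a.2 = y then v a else 0) * (if a'.2 = y then v a' else 0)) = 1 - q * q := by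
    simp only [sum_sub_distrib]
    rw [← sum_mul_sum, ← sum_mul_sum, hsum, ← hq]
    ring
  rw [h2] at h1
  have h3 : η ≤ 1 - q * q := hm.trans h1
  nlinarith [sq_nonneg (1 - q)]

/-- the `i`-th pair -/
def ext {m : ℕ} (g : Fin m → ℕ × ℕ) (i : ℕ) : ℕ × ℕ := if h : i < m then g ⟨i, h⟩ else (0, 0)

lemma ext_lt {b m : ℕ} (g : Fin m → ℕ × ℕ) (hg : g ∈ Gs b m) (i : ℕ) (hi : i < m) : (ext g i).1 < b ∧ (ext g i).2 < b := by
  unfold Gs at hg
  rw [Fintype.mem_piFinset] at hg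
  have := hg ⟨i, hi⟩
  unfold Q at this
  rw [mem_product, mem_range, mem_range] at this
  unfold ext
  rw [dif_pos hi]
  exact this

lemma val_eq (b k : ℕ) {m : ℕ} (g : Fin m → ℕ × ℕ) :
    val b k g = ∑ i ∈ range m, (ext g i).1 * b ^ i + ∑ i ∈ range m, (ext g i).2 * b ^ (k - 1 - i) := by
  rw [← sum_add_distrib, ← Fin.sum_univ_eq_sum_range (fun i => (ext g i).1 * b ^ i + (ext g i).2 * b ^ (k - 1 - i)) m]
  unfold val
  apply sum_congr rfl
  intro i _
  unfold ext
  rw [dif_pos i.2]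

/-- the leading digits -/
def top (b T : ℕ) {m : ℕ} (g : Fin m → ℕ × ℕ) : ℕ := ∑ i ∈ range T, (ext g i).2 * b ^ (T - 1 - i)

lemma top_val (b m s T : ℕ) (hb : 0 < b) (hT : T ≤ m) (g : Fin m → ℕ × ℕ) (hg : g ∈ Gs b m) :
    b ^ (2 * m + s - T) * top b T g ≤ val b (2 * m + s) g ∧ val b (2 * m + s) g < b ^ (2 * m + s - T) * (top b T g + 2) := by
  have h1 : ∑ i ∈ range m, (ext g i).2 * b ^ (2 * m + s - 1 - i) = b ^ (2 * m + s - T) * top b T g +
      ∑ i ∈ range (m - T), (ext g (T + i)).2 * b ^ (2 * m + s - T - 1 - i) := by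
    rw [← sum_range_add_sum_Ico _ hT, sum_Ico_eq_sum_range]
    congr 1
    · unfold top
      rw [mul_sum]
      apply sum_congr rfl
      intro i hi
      rw [mem_range] at hi
      have : 2 * m + s - 1 - i = (2 * m + s - T) + (T - 1 - i) := by omega
      rw [this, pow_add]
      ring
    · apply sum_congr rfl
      intro i _
      congr 2
      omega
  have h2 := sum_lt_pow b (fun i => (ext g i).1) m (fun i hi => (ext_lt g hg i hi).1)
  have h3 := sum_lt_pow' b hb (m - T) (fun i => (ext g (T + i)).2) (2 * m + s - T) (by omega)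
    (fun i hi => (ext_lt g hg (T + i) (by omega)).2)
  have h4 : b ^ m ≤ b ^ (2 * m + s - T) := Nat.pow_le_pow_right hb (by omega)
  rw [val_eq, h1]
  constructor
  · omega
  · rw [mul_add]
    omega

/-- the leading digits take each value with a small probability -/
lemma top_prob (b m T : ℕ) (η : ℝ) (hη : 0 ≤ η) (hη2 : η ≤ 2) (hT : T ≤ m) (w : ℕ → ℕ × ℕ → ℝ) (hw : Mirr b m η w) (A : ℕ) :
    ∑ g ∈ Gs b m, (if top b T g = A then pw w g else 0) ≤ (1 - η / 2) ^ (T - 1) := by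
  classical
  by_cases hex : ∃ g ∈ Gs b m, top b T g = A
  swap
  · rw [sum_eq_zero]
    · apply pow_nonneg; linarith
    · intro g hg
      rw [if_neg]
      intro h
      exact hex ⟨g, hg, h⟩
  obtain ⟨g₀, hg₀, hA⟩ := hex
  have h1 : ∑ g ∈ Gs b m, (if top b T g = A then pw w g else 0) ≤
      ∑ g ∈ Gs b m, ∏ i : Fin m, (if ((i : ℕ) < T → (g i).2 = (ext g₀ i).2) then w i (g i) else 0) := by
    apply sum_le_sum
    intro g hg
    rw [Finset.prod_ite_zero]
    by_cases c : top b T g = A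
    · rw [if_pos c, if_pos]
      · exact le_rfl
      · intro i _ hi
        have h2 := digits_inj b T (fun i => (ext g i).2) (fun i => (ext g₀ i).2)
          (fun i hi => (ext_lt g hg i (by omega)).2) (fun i hi => (ext_lt g₀ hg₀ i (by omega)).2) (by
            unfold top at c hA
            rw [c, hA]) i hi
        rw [← h2]
        unfold ext
        rw [dif_pos i.2]
    · rw [if_neg c]
      split_ifs
      · exact pw_nonneg hw g
      · exact le_rfl
  refine h1.trans ?_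
  unfold Gs
  rw [← Finset.prod_univ_sum (fun _ : Fin m => Q b) (fun i x => if ((i : ℕ) < T → x.2 = (ext g₀ i).2) then w i x else 0)]
  have h2 : ∀ i ∈ (univ : Finset (Fin m)), ∑ x ∈ Q b, (if ((i : ℕ) < T → x.2 = (ext g₀ i).2) then w i x else 0) ≤
      if 1 ≤ (i : ℕ) ∧ (i : ℕ) < T then 1 - η / 2 else 1 := by
    intro i _
    split_ifs with c
    · have := coord_prob b (w i) (hw.nonneg i i.2) (hw.sum i i.2) η hη (hw.mir i i.2 c.1) (ext g₀ i).2
      refine le_trans (le_of_eq ?_) this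
      apply sum_congr rfl
      intro x _
      have : ((i : ℕ) < T → x.2 = (ext g₀ i).2) ↔ x.2 = (ext g₀ i).2 := ⟨fun h => h c.2, fun h _ => h⟩
      simp only [this]
    · rw [← hw.sum i i.2]
      apply sum_le_sum
      intro x _
      split_ifs
      · exact le_rfl
      · exact hw.nonneg i i.2 x
  refine (prod_le_prod (fun i _ => sum_nonneg fun x _ => ?_) h2).trans ?_
  · split_ifs
    · exact hw.nonneg i i.2 x
    · exact le_rfl
  rw [Finset.prod_ite, prod_const_one, mul_one, prod_const]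
  apply le_of_eq
  congr 1
  have h3 : (univ.filter (fun i : Fin m => 1 ≤ (i : ℕ) ∧ (i : ℕ) < T)).card = (Ico 1 T).card := by
    apply card_bij (fun (i : Fin m) _ => (i : ℕ))
    · intro i hi
      rw [mem_filter] at hi
      rw [mem_Ico]
      exact hi.2
    · intro i _ j _ h
      exact Fin.ext h
    · intro j hj
      rw [mem_Ico] at hj
      exact ⟨⟨j, by omega⟩, by rw [mem_filter]; exact ⟨mem_univ _, hj⟩, rfl⟩
  rw [h3, Nat.card_Ico]

/-- short intervals contain few of the integers -/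
lemma interval (b m s T : ℕ) (hb : 0 < b) (η : ℝ) (hη : 0 ≤ η) (hη2 : η ≤ 2) (hT : T ≤ m) (w : ℕ → ℕ × ℕ → ℝ) (hw : Mirr b m η w)
    (P : (Fin m → ℕ × ℕ) → Prop) [DecidablePred P]
    (hP : ∀ g ∈ Gs b m, ∀ g' ∈ Gs b m, P g → P g' → val b (2 * m + s) g' < val b (2 * m + s) g + b ^ (2 * m + s - T)) :
    ∑ g ∈ Gs b m, (if P g then pw w g else 0) ≤ 4 * (1 - η / 2) ^ (T - 1) := by
  classical
  have hp0 : 0 ≤ (1 - η / 2) ^ (T - 1) := by apply pow_nonneg; linarith
  rcases ((Gs b m).filter P).eq_empty_or_nonempty with he | hne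
  · rw [← sum_filter, he, sum_empty]
    positivity
  obtain ⟨g0, hg0, hmin⟩ := exists_min_image ((Gs b m).filter P) (fun g => val b (2 * m + s) g) hne
  rw [mem_filter] at hg0
  obtain ⟨L, hL⟩ : ∃ L, L = b ^ (2 * m + s - T) := ⟨_, rfl⟩
  have hL0 : 0 < L := by rw [hL]; positivity
  have hrange : ∀ g ∈ Gs b m, P g → top b T g + 1 ∈ Icc (top b T g0) (top b T g0 + 3) := by
    intro g hg hPg
    have h1 : val b (2 * m + s) g0 ≤ val b (2 * m + s) g := hmin g (by rw [mem_filter]; exact ⟨hg, hPg⟩)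
    have h2 := hP g0 hg0.1 g hg hg0.2 hPg
    obtain ⟨a1, a2⟩ := top_val b m s T hb hT g hg
    obtain ⟨a3, a4⟩ := top_val b m s T hb hT g0 hg0.1
    rw [← hL] at h2 a1 a2 a3 a4
    rw [mem_Icc]
    constructor
    · have : L * top b T g0 < L * (top b T g + 2) := by omega
      have := Nat.lt_of_mul_lt_mul_left this
      omega
    · have : L * top b T g < L * (top b T g0 + 3) := by
        calc L * top b T g ≤ val b (2 * m + s) g := a1
          _ < val b (2 * m + s) g0 + L := h2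
          _ < L * (top b T g0 + 2) + L := by omega
          _ = _ := by ring
      have := Nat.lt_of_mul_lt_mul_left this
      omega
  have h1 : ∑ g ∈ Gs b m, (if P g then pw w g else 0) ≤
      ∑ g ∈ Gs b m, ∑ A ∈ Icc (top b T g0) (top b T g0 + 3), (if top b T g = A - 1 ∧ 1 ≤ A then pw w g else 0) := by
    apply sum_le_sum
    intro g hg
    have hnn : ∀ A ∈ Icc (top b T g0) (top b T g0 + 3), 0 ≤ (if top b T g = A - 1 ∧ 1 ≤ A then pw w g else 0) := by
      intro A _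
      split_ifs
      · exact pw_nonneg hw g
      · exact le_rfl
    by_cases c : P g
    · rw [if_pos c]
      refine le_trans ?_ (single_le_sum hnn (hrange g hg c))
      rw [if_pos ⟨by omega, by omega⟩]
    · rw [if_neg c]
      exact sum_nonneg hnn
  refine h1.trans ?_
  rw [sum_comm]
  have h2 : ∀ A ∈ Icc (top b T g0) (top b T g0 + 3), ∑ g ∈ Gs b m, (if top b T g = A - 1 ∧ 1 ≤ A then pw w g else 0) ≤ (1 - η / 2) ^ (T - 1) := by
    intro A _
    refine le_trans (sum_le_sum fun g _ => ?_) (top_prob b m T η hη hη2 hT w hw (A - 1))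
    split_ifs with c1 c2 c3
    · exact le_rfl
    · exact absurd c1.1 c2
    · exact pw_nonneg hw g
    · exact le_rfl
  refine (sum_le_sum h2).trans ?_
  rw [sum_const, Nat.card_Icc, nsmul_eq_mul]
  apply le_of_eq
  congr 1
  have : top b T g0 + 3 + 1 - top b T g0 = 4 := by omega
  rw [this]
  norm_num

end Pool.Agent.TH872.Mir
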