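import Pool.Agent.TH872.Mir4
import Pool.Agent.TH872.Pal

set_option autoImplicit false

/-! Random integers with mirror-dependent digits and palindromes: passing from laws to counts. -/

namespace Pool.Agent.TH872.Mir
open Finset

/-- the translation which comes from the middle digit -/
lemma cc_bound (b B m s : ℕ) (hb : 2 ≤ b) (hs : s ≤ 1) (κ c : ℤ) (hc : |c| ≤ B * (b : ℤ) ^ (2 * m + s)) (z : ℕ) (hz : z < b) :
    |c + κ * ((s * z * b ^ m : ℕ) : ℤ)| + |κ| * (2 * (b : ℤ) ^ (2 * m + s)) ≤ (b : ℤ) ^ (2 * m + s + (B + 3 * κ.natAbs)) := by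
  have h1 : ((s * z * b ^ m : ℕ) : ℤ) ≤ (b : ℤ) ^ (2 * m + s) := by
    have h0 : s = 0 ∨ s = 1 := by omega
    rcases h0 with rfl | rfl
    · simp only [zero_mul, Nat.cast_zero]; positivity
    · have : 1 * z * b ^ m ≤ b ^ (2 * m + 1) := by
        calc 1 * z * b ^ m = z * b ^ m := by ring
          _ ≤ b * b ^ m := Nat.mul_le_mul_right _ hz.le
          _ = b ^ (m + 1) := by ring
          _ ≤ _ := Nat.pow_le_pow_right (by omega) (by omega)
      exact_mod_cast this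
  have h2 : |c + κ * ((s * z * b ^ m : ℕ) : ℤ)| ≤ |c| + |κ| * (b : ℤ) ^ (2 * m + s) := by
    refine (abs_add_le _ _).trans ?_
    rw [abs_mul, abs_of_nonneg (by positivity : (0 : ℤ) ≤ ((s * z * b ^ m : ℕ) : ℤ))]
    have := mul_le_mul_of_nonneg_left h1 (abs_nonneg κ)
    linarith
  have h3 : ((B + 3 * κ.natAbs : ℕ) : ℤ) ≤ (b : ℤ) ^ (B + 3 * κ.natAbs) := by
    have : B + 3 * κ.natAbs < b ^ (B + 3 * κ.natAbs) := Nat.lt_pow_self (by omega)
    exact_mod_cast this.le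
  have h4 : ((B + 3 * κ.natAbs : ℕ) : ℤ) = B + 3 * |κ| := by
    push_cast
    ring
  rw [h4] at h3
  have h5 : (0 : ℤ) ≤ (b : ℤ) ^ (2 * m + s) := by positivity
  rw [pow_add (b : ℤ) (2 * m + s)]
  have h6 := mul_le_mul_of_nonneg_left h3 h5
  nlinarith

open Classical in
/-- palindromes -/
lemma pals_of_prob (b m s : ℕ) (hb : 2 ≤ b) (hm : 1 ≤ m) (hs : s ≤ 1) (P : ℕ → Prop) (δ : ℝ) (hδ : 0 ≤ δ)
    (h : ∀ z < b, ∑ g ∈ Gs b m, (if P (val b (2 * m + s) g + s * z * b ^ m) then pw (w0 b) g else 0) ≤ δ) :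
    (((Pals b (2 * m + s)).filter P).card : ℝ) ≤ ((Pals b (2 * m + s)).card : ℝ) * δ := by
  have hb0 : 0 < b := by omega
  have h1 : (((Pals b (2 * m + s)).filter P).card : ℝ) ≤ ∑ z ∈ Zs b s, (((Hs b m).filter (fun x => P (pval b m s x z))).card : ℝ) := by
    exact_mod_cast card_pals_filter_le b m s hb hm hs P
  refine h1.trans ?_
  have h2 : ∀ z ∈ Zs b s, (((Hs b m).filter (fun x => P (pval b m s x z))).card : ℝ) ≤ (Hs b m).card * δ := by
    intro z hz
    have hz' := mem_Zs b s z hb0 hz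
    refine le_trans ?_ (mul_le_mul_of_nonneg_left (h z hz') (Nat.cast_nonneg _))
    exact card_le_prob b m (fun g => P (val b (2 * m + s) g + s * z * b ^ m))
  refine (sum_le_sum h2).trans ?_
  rw [sum_const, nsmul_eq_mul]
  have h3 : (((Hs b m).card * (Zs b s).card : ℕ) : ℝ) ≤ ((Pals b (2 * m + s)).card : ℝ) := by
    exact_mod_cast card_pals_ge b m s hb0 hm hs
  push_cast at h3
  calc ((Zs b s).card : ℝ) * ((Hs b m).card * δ) = ((Hs b m).card * (Zs b s).card) * δ := by ring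
    _ ≤ _ := mul_le_mul_of_nonneg_right h3 hδ

end Pool.Agent.TH872.Mir
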