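import Pool.Agent.TH872.Mir3

set_option autoImplicit false

/-! Random integers with mirror-dependent digits: the law at a slightly larger scale. -/

namespace Pool.Agent.TH872.Mir
open Finset
open Pool.Agent.H807R2.Dav
open Pool.Agent.W93.DG
open Pool.Agent.W93.RD
open Pool.Agent.W93.AU

/-- the law of the integers with mirror-dependent digits, at a slightly larger scale -/
theorem mir_law' (b : ℕ) (hb : 2 ≤ b) (η : ℝ) (hη : 0 < η) (κ : ℤ) (e0 s V : ℕ) : ∃ D : ℕ, ∀ e m K : ℕ, e ≤ e0 * (Nat.log b K + 1) →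
    K = 2 * m + s + e → 1 ≤ K →
    ∀ w : ℕ → ℕ × ℕ → ℝ, Mirr b m η w → ∀ cc : ℤ,
    Law b (FF0 b κ) D V K (Gs b m) (pw w) (fun g => cc + κ * (val b (2 * m + s) g : ℕ)) := by
  obtain ⟨γ, hγ⟩ : ∃ γ, γ = 1 - 4 * (η / (b : ℝ) ^ 4) * (1 / (2 * ((b ^ 4).factorial : ℝ) * (b : ℝ) ^ 4)) ^ 2 := ⟨_, rfl⟩
  have hbr : (2 : ℝ) ≤ b := by exact_mod_cast hb
  have hb0 : (0 : ℝ) < b := by linarith
  have hF0 : (0 : ℝ) < ((b ^ 4).factorial : ℝ) := by exact_mod_cast (b ^ 4).factorial_pos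
  have hγ1 : γ < 1 := by
    rw [hγ]
    have : 0 < 4 * (η / (b : ℝ) ^ 4) * (1 / (2 * ((b ^ 4).factorial : ℝ) * (b : ℝ) ^ 4)) ^ 2 := by positivity
    linarith
  obtain ⟨v, hv⟩ : ∃ v : ℕ, (max γ 0) ^ v < 1 / b :=
    exists_pow_lt_of_lt_one (show (0 : ℝ) < 1 / b by positivity) (max_lt hγ1 one_pos)
  refine ⟨4 * (v * V) + (4 + s + e0), fun e m K he hK hK1 w hw cc => ⟨fun g _ => pw_nonneg hw g, (pw_sum hw).le, ?_⟩⟩
  intro t ht
  have hKe : b ^ (K + 1) = b ^ (2 * m + s + e + 1) := by rw [hK]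
  have h1 : ne b 0 K (FF0 b κ * t % b ^ (K + 1)) ≤
      e + farCount b (b ^ 4).factorial (2 * m + s) (κ * ((t : ℝ) / ((b ^ (2 * m + s + e + 1) : ℕ) : ℝ))) := by
    have := ne_far b (b ^ 4).factorial (2 * m + s) e t κ.natAbs κ rfl hb
    rw [hK]
    exact this
  have hN : 4 * (v * V * (Nat.log b K + 1)) + (4 + s) ≤
      farCount b (b ^ 4).factorial (2 * m + s) (κ * ((t : ℝ) / ((b ^ (2 * m + s + e + 1) : ℕ) : ℝ))) := by
    have h2 := ht.trans h1
    have h3 : 4 * (v * V * (Nat.log b K + 1)) + (4 + s + e) ≤ (4 * (v * V) + (4 + s + e0)) * (Nat.log b K + 1) := by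
      have h4 : 4 + s ≤ (4 + s) * (Nat.log b K + 1) := Nat.le_mul_of_pos_right _ (Nat.succ_pos _)
      calc 4 * (v * V * (Nat.log b K + 1)) + (4 + s + e) ≤
            4 * (v * V * (Nat.log b K + 1)) + ((4 + s) * (Nat.log b K + 1) + e0 * (Nat.log b K + 1)) := by omega
        _ = _ := by ring
    omega
  have hγ0 : 0 ≤ γ := by
    rw [hγ]
    have hη1 : η ≤ 1 ∨ ¬ η ≤ 1 := em _
    have c1 : (1 : ℝ) ≤ ((b ^ 4).factorial : ℝ) := by exact_mod_cast (b ^ 4).factorial_pos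
    have c2 : (16 : ℝ) ≤ (b : ℝ) ^ 4 := by
      calc (16 : ℝ) = 2 ^ 4 := by norm_num
        _ ≤ _ := pow_le_pow_left₀ (by norm_num) hbr 4
    -- η ≤ 1 if there is a nontrivial pair
    by_cases hm : 1 < m
    · have hη1 : η ≤ 1 := by
        have h1 := hw.mir 1 hm le_rfl
        have h2 : ∑ a ∈ Q b, ∑ a' ∈ Q b, (if a.1 ≠ a'.1 ∧ a.2 ≠ a'.2 then w 1 a * w 1 a' else 0) ≤
            ∑ a ∈ Q b, ∑ a' ∈ Q b, w 1 a * w 1 a' := by
          apply sum_le_sum; intro a _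
          apply sum_le_sum; intro a' _
          have := mul_nonneg (hw.nonneg 1 hm a) (hw.nonneg 1 hm a')
          split_ifs
          · exact le_rfl
          · exact this
        rw [← sum_mul_sum, hw.sum 1 hm, one_mul] at h2
        linarith
      have c3 : η / (b : ℝ) ^ 4 ≤ 1 / 16 := by
        rw [div_le_div_iff₀ (by positivity) (by norm_num)]
        nlinarith
      have c4 : 1 / (2 * ((b ^ 4).factorial : ℝ) * (b : ℝ) ^ 4) ≤ 1 / 32 := by
        apply div_le_div_of_nonneg_left (by norm_num) (by norm_num)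
        nlinarith
      have c5 : 0 ≤ 1 / (2 * ((b ^ 4).factorial : ℝ) * (b : ℝ) ^ 4) := by positivity
      have c6 : (1 / (2 * ((b ^ 4).factorial : ℝ) * (b : ℝ) ^ 4)) ^ 2 ≤ (1 / 32) ^ 2 := pow_le_pow_left₀ c5 c4 2
      have c7 : 0 ≤ η / (b : ℝ) ^ 4 := by positivity
      nlinarith
    · exfalso
      -- there are not enough positions
      have h4 : farCount b (b ^ 4).factorial (2 * m + s) (κ * ((t : ℝ) / ((b ^ (2 * m + s + e + 1) : ℕ) : ℝ))) ≤ 2 * m + s := by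
        classical
        unfold farCount
        refine (card_filter_le _ _).trans ?_
        rw [card_range]
      omega
  have hdec := char_decay b m s hb η hη w hw (κ * ((t : ℝ) / ((b ^ (2 * m + s + e + 1) : ℕ) : ℝ))) _ hN γ hγ hγ0
  have hshift : ∑ g ∈ Gs b m, ((pw w g : ℝ) : ℂ) * ee (((cc + κ * (val b (2 * m + s) g : ℕ) : ℤ) : ℝ) * ((t : ℝ) / ((b ^ (K + 1) : ℕ) : ℝ))) =
      ee ((cc : ℝ) * ((t : ℝ) / ((b ^ (K + 1) : ℕ) : ℝ))) *
        ∑ g ∈ Gs b m, ((pw w g : ℝ) : ℂ) * ee ((val b (2 * m + s) g : ℝ) * (κ * ((t : ℝ) / ((b ^ (2 * m + s + e + 1) : ℕ) : ℝ)))) := by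
    rw [mul_sum]
    apply sum_congr rfl
    intro g _
    have : ee (((cc + κ * (val b (2 * m + s) g : ℕ) : ℤ) : ℝ) * ((t : ℝ) / ((b ^ (K + 1) : ℕ) : ℝ))) =
        ee ((cc : ℝ) * ((t : ℝ) / ((b ^ (K + 1) : ℕ) : ℝ))) *
          ee ((val b (2 * m + s) g : ℝ) * (κ * ((t : ℝ) / ((b ^ (2 * m + s + e + 1) : ℕ) : ℝ)))) := by
      rw [← ee_add, hKe]
      congr 1
      push_cast
      ring
    rw [this]
    ring
  rw [hshift, norm_mul, norm_ee, one_mul]
  refine hdec.trans ?_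
  have h5 : γ ^ (v * V * (Nat.log b K + 1)) ≤ (1 / (b : ℝ)) ^ (V * (Nat.log b K + 1)) := by
    rw [mul_assoc, pow_mul]
    apply pow_le_pow_left₀ (by positivity)
    refine (pow_le_pow_left₀ hγ0 (le_max_left γ 0) v).trans hv.le
  refine h5.trans ?_
  rw [one_div_pow]
  apply div_le_div_of_nonneg_left (by norm_num) (by
    have : (0 : ℝ) < K := by exact_mod_cast hK1
    positivity)
  have h6 : (K : ℝ) ≤ (b : ℝ) ^ (Nat.log b K + 1) := by
    have := Nat.lt_pow_succ_log_self (b := b) (by omega) K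
    exact_mod_cast this.le
  calc (K : ℝ) ^ V ≤ ((b : ℝ) ^ (Nat.log b K + 1)) ^ V := pow_le_pow_left₀ (Nat.cast_nonneg _) h6 _
    _ = _ := by rw [← pow_mul]; congr 1; ring

end Pool.Agent.TH872.Mir
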