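import Pool.Agent.W93.AU18
import Pool.Agent.W93.PP7
import Pool.Agent.TH872.Mir8

set_option autoImplicit false

/-! Prime pairs in progressions, for an arbitrary law of the difference with small characteristic function. -/

namespace Pool.Agent.TH872.Mir
open Finset
open Pool.Agent.H373R2.T7
open Pool.Agent.W93.GB (vM_le)
open Pool.Agent.W93.AU
open Pool.Agent.W93.PP

lemma union_prob {ι τ : Type} (Ω : Finset ι) (p : ι → ℝ) (hp : ∀ ω ∈ Ω, 0 ≤ p ω) (I : Finset τ) (E : ι → Prop) [DecidablePred E]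
    (F : τ → ι → Prop) [∀ i, DecidablePred (F i)] (h : ∀ ω ∈ Ω, E ω → ∃ i ∈ I, F i ω) (q : ℝ)
    (hq : ∀ i ∈ I, ∑ ω ∈ Ω, (if F i ω then p ω else 0) ≤ q) :
    ∑ ω ∈ Ω, (if E ω then p ω else 0) ≤ I.card * q := by
  have h1 : ∀ ω ∈ Ω, (if E ω then p ω else 0) ≤ ∑ i ∈ I, (if F i ω then p ω else 0) := by
    intro ω hω
    have hn : ∀ i ∈ I, 0 ≤ (if F i ω then p ω else 0) := by
      intro i _
      split_ifs
      · exact hp ω hω
      · exact le_rfl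
    split_ifs with hE
    · obtain ⟨i, hi, hF⟩ := h ω hω hE
      refine le_trans (le_of_eq ?_) (single_le_sum hn hi)
      rw [if_pos hF]
    · exact sum_nonneg hn
  refine (sum_le_sum h1).trans ?_
  rw [sum_comm]
  refine (sum_le_sum hq).trans (le_of_eq ?_)
  rw [sum_const, nsmul_eq_mul]

theorem dd_law (b F : ℕ) (hb : 2 ≤ b) (hF : 1 ≤ F) (A B C U : ℕ) :
    ∃ V : ℕ, ∀ D : ℕ, ∃ K₀ : ℕ, ∀ K : ℕ, K₀ ≤ K → ∀ X : ℕ, 2 * X ≤ b ^ K → b ^ K ≤ 2 * b * X →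
    ∀ (ι : Type) (Ω : Finset ι) (p : ι → ℝ) (Y : ι → ℤ),
    (∀ δ : ℕ, Law b F D V K Ω p (fun ω => Y ω + (δ : ℤ))) →
    (∀ ω ∈ Ω, -(X : ℤ) < Y ω ∧ ((Y ω : ℤ) : ℝ) ≤ X / Real.log X ^ (C + 5)) →
    ∀ E : ι → Prop, [DecidablePred E] →
    (∀ ω ∈ Ω, E ω → 0 < Y ω ∧ ¬ GoodD A B C X (Y ω).toNat) →
    ∑ ω ∈ Ω, (if E ω then p ω else 0) ≤ 1 / (K : ℝ) ^ U := by
  classical
  obtain ⟨U2, hU2⟩ : ∃ U2, U2 = U + (3 + 2 * (A + 2 * B)) + (2 * (C + 3) + 1) := ⟨_, rfl⟩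
  refine ⟨4 * U2 + 3 * 2 + 7 + 6, fun D => ?_⟩
  obtain ⟨B0, h0⟩ := law_prob b F hb hF 2 U2 D
  obtain ⟨E1, hE1⟩ : ∃ E1, E1 = B0 + 1 + (C + 7 + B) := ⟨_, rfl⟩
  obtain ⟨n0, h0⟩ := h0 (E1 + 1)
  obtain ⟨X1, hdet⟩ := det_good A B C E1 (by omega)
  obtain ⟨n4, h4⟩ := ev_log' A 2
  obtain ⟨k3, hk3⟩ := exists_nat_ge ((2 : ℝ) ^ B0 + Real.log (2 * b) + 2)
  refine ⟨n0 + X1 + n4 + 2 * k3 + 2 * b + 16, fun K hK X hX1 hX2 ι Ω p Y hlaw hY E _ hE => ?_⟩
  have hK1 : 1 ≤ K := by omega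
  have hKr : (1 : ℝ) ≤ K := by exact_mod_cast hK1
  have hK0 : (0 : ℝ) < K := by linarith
  have hb2 : (2 : ℝ) ≤ b := by exact_mod_cast hb
  -- the size of `X`
  have hXb : b ^ (K - 2) ≤ X := by
    obtain ⟨K', rfl⟩ : ∃ K', K = K' + 2 := ⟨K - 2, by omega⟩
    rw [Nat.add_sub_cancel]
    have e1 : b * (2 * b ^ K') ≤ b * (2 * X) := by
      calc b * (2 * b ^ K') ≤ b * (b * b ^ K') := Nat.mul_le_mul_left _ (Nat.mul_le_mul_right _ hb)
        _ = b ^ (K' + 2) := by ring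
        _ ≤ 2 * b * X := hX2
        _ = b * (2 * X) := by ring
    have e2 := Nat.le_of_mul_le_mul_left e1 (by omega)
    omega
  have hXK : K - 2 < X := lt_of_lt_of_le (Nat.lt_pow_self (by omega)) hXb
  have hX0 : (0 : ℝ) < X := by exact_mod_cast (by omega : 0 < X)
  obtain ⟨L, hL⟩ : ∃ L, L = Real.log (X : ℝ) := ⟨_, rfl⟩
  obtain ⟨M, hM⟩ : ∃ M, M = Real.log ((b ^ K : ℕ) : ℝ) := ⟨_, rfl⟩
  have hlb : 1 / 2 ≤ Real.log b := by
    have q1 : Real.log 2 ≤ Real.log b := Real.log_le_log (by norm_num) hb2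
    linarith [Real.log_two_gt_d9]
  have hMe : M = K * Real.log b := by
    rw [hM]; push_cast; rw [Real.log_pow]
  have hLM : L ≤ M := by
    rw [hL, hM]
    apply Real.log_le_log hX0
    exact_mod_cast (by omega : X ≤ b ^ K)
  have hMK : M ≤ (K : ℝ) ^ 2 := by
    have e2 : Real.log (b : ℝ) ≤ K := by
      have q1 : Real.log (b : ℝ) ≤ b := (Real.log_le_sub_one_of_pos (by linarith)).trans (by linarith)
      exact q1.trans (by exact_mod_cast (by omega : b ≤ K))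
    rw [hMe, pow_two]
    exact mul_le_mul_of_nonneg_left e2 hK0.le
  have hLk : (k3 : ℝ) ≤ L := by
    have q1 : Real.log ((b ^ (K - 2) : ℕ) : ℝ) ≤ L := by
      rw [hL]
      apply Real.log_le_log
      · have : 0 < b ^ (K - 2) := by positivity
        exact_mod_cast this
      · exact_mod_cast hXb
    have q2 : Real.log ((b ^ (K - 2) : ℕ) : ℝ) = ((K - 2 : ℕ) : ℝ) * Real.log b := by
      push_cast; rw [Real.log_pow]
    have q3 : (2 * k3 : ℝ) ≤ ((K - 2 : ℕ) : ℝ) := by exact_mod_cast (by omega : 2 * k3 ≤ K - 2)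
    rw [q2] at q1
    nlinarith [(Nat.cast_nonneg (K - 2) : (0 : ℝ) ≤ ((K - 2 : ℕ) : ℝ))]
  have hp2 : (0 : ℝ) < 2 ^ B0 := by positivity
  have hlog2b : 0 ≤ Real.log (2 * b) := Real.log_nonneg (by linarith)
  have hL2 : 2 ≤ L := by linarith
  have hL1 : 1 ≤ L := by linarith
  have hL0 : 0 < L := by linarith
  have hML : M ≤ 2 * L := by
    have e1 : M ≤ Real.log (2 * b) + L := by
      rw [hM, hL, ← Real.log_mul (by positivity) hX0.ne']
      apply Real.log_le_log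
      · have : 0 < b ^ K := by positivity
        exact_mod_cast this
      · exact_mod_cast hX2
    linarith
  have hLK : L ≤ (K : ℝ) ^ 2 := hLM.trans hMK
  -- the level
  obtain ⟨z, hz⟩ : ∃ z, z = ⌈L ^ E1⌉₊ := ⟨_, rfl⟩
  have hfl : ∀ E : ℕ, L ^ E ≤ (⌈L ^ E⌉₊ : ℝ) ∧ (⌈L ^ E⌉₊ : ℝ) ≤ L ^ (E + 1) := by
    intro E
    refine ⟨Nat.le_ceil _, ?_⟩
    have h5 : (⌈L ^ E⌉₊ : ℝ) < L ^ E + 1 := Nat.ceil_lt_add_one (by positivity)
    have h6 : 1 ≤ L ^ E := one_le_pow₀ hL1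
    rw [pow_succ]
    nlinarith
  have hz1 : L ^ E1 ≤ z := by rw [hz]; exact (hfl E1).1
  have hz2 : (z : ℝ) ≤ L ^ (E1 + 1) := by rw [hz]; exact (hfl E1).2
  have hzM : M ^ B0 ≤ z := by
    refine le_trans ?_ hz1
    calc M ^ B0 ≤ (2 * L) ^ B0 := pow_le_pow_left₀ (by linarith) hML _
      _ = 2 ^ B0 * L ^ B0 := mul_pow _ _ _
      _ ≤ L * L ^ B0 := mul_le_mul_of_nonneg_right (by linarith) (by positivity)
      _ = L ^ (B0 + 1) := by ring
      _ ≤ L ^ E1 := pow_le_pow_right₀ hL1 (by omega)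
  have hzM2 : (z : ℝ) ≤ M ^ (E1 + 1) := hz2.trans (pow_le_pow_left₀ hL0.le hLM _)
  obtain ⟨T, hT⟩ : ∃ T, T = ⌈L ^ (C + 4)⌉₊ := ⟨_, rfl⟩
  have hT1 : L ^ (C + 4) ≤ T := by rw [hT]; exact (hfl (C + 4)).1
  have hT2 : (T : ℝ) ≤ L ^ (C + 5) := by rw [hT]; exact (hfl (C + 4)).2
  -- the error
  have hXU : ((b ^ K : ℕ) : ℝ) / (K : ℝ) ^ U2 ≤ X / L ^ (C + 3) := by
    have e1 : ((b ^ K : ℕ) : ℝ) ≤ 2 * b * X := by exact_mod_cast hX2
    have e2 : 2 * (b : ℝ) ≤ K := by exact_mod_cast (by omega : 2 * b ≤ K)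
    have e3 : L ^ (C + 3) ≤ ((K : ℝ) ^ 2) ^ (C + 3) := pow_le_pow_left₀ hL0.le hLK _
    rw [div_le_div_iff₀ (by positivity) (by positivity)]
    calc ((b ^ K : ℕ) : ℝ) * L ^ (C + 3) ≤ (2 * b * X) * ((K : ℝ) ^ 2) ^ (C + 3) :=
          mul_le_mul e1 e3 (by positivity) (by positivity)
      _ ≤ (K * X) * ((K : ℝ) ^ 2) ^ (C + 3) := by gcongr
      _ = X * (K : ℝ) ^ (2 * (C + 3) + 1) := by rw [← pow_mul, pow_succ (K : ℝ) (2 * (C + 3))]; ring
      _ ≤ X * (K : ℝ) ^ U2 := mul_le_mul_of_nonneg_left (pow_le_pow_right₀ hKr (by omega)) hX0.le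
  have hδX : ∀ δ : ℕ, (δ : ℝ) ≤ L ^ A → 2 * δ ≤ X := by
    intro δ hδ
    have q1 := h4 X (by omega)
    rw [← hL] at q1
    have hs0 : 0 ≤ √(X : ℝ) := Real.sqrt_nonneg _
    have q2 : √(X : ℝ) ≤ X := by
      rw [Real.sqrt_le_left (by positivity)]
      have : (1 : ℝ) ≤ X := by exact_mod_cast (by omega : 1 ≤ X)
      nlinarith
    have q3 : 2 * (δ : ℝ) ≤ X := by linarith
    exact_mod_cast q3
  have hD : ∀ ω ∈ Ω, 2 * Y ω ≤ X := by
    intro ω hω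
    have q1 := (hY ω hω).2
    rw [← hL] at q1
    have q2 : (X : ℝ) / L ^ (C + 5) ≤ X / 2 := by
      apply div_le_div_of_nonneg_left hX0.le (by norm_num)
      calc (2 : ℝ) ≤ L := hL2
        _ = L ^ 1 := (pow_one L).symm
        _ ≤ L ^ (C + 5) := pow_le_pow_right₀ hL1 (by omega)
    have q3 : (2 : ℝ) * (Y ω : ℤ) ≤ X := by linarith
    exact_mod_cast q3
  obtain ⟨I, hI⟩ : ∃ I : Finset (ℕ × ℕ × ℕ), I = range (⌊L ^ A⌋₊ + 1) ×ˢ (range (⌊L ^ B⌋₊ + 1) ×ˢ range (⌊L ^ B⌋₊ + 1)) := ⟨_, rfl⟩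
  have hIc : (I.card : ℝ) ≤ (K : ℝ) ^ (3 + 2 * (A + 2 * B)) := by
    have c1 : ∀ E : ℕ, ((⌊L ^ E⌋₊ + 1 : ℕ) : ℝ) ≤ 2 * L ^ E := by
      intro E
      have h5 : 1 ≤ L ^ E := one_le_pow₀ hL1
      have h6 := Nat.floor_le (a := L ^ E) (by positivity)
      push_cast
      linarith
    rw [hI, card_product, card_product, card_range, card_range]
    rw [Nat.cast_mul, Nat.cast_mul]
    have c2 := c1 A
    have c3 := c1 B
    have c4 : (2 : ℝ) ≤ K := by exact_mod_cast (by omega : 2 ≤ K)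
    calc ((⌊L ^ A⌋₊ + 1 : ℕ) : ℝ) * (((⌊L ^ B⌋₊ + 1 : ℕ) : ℝ) * ((⌊L ^ B⌋₊ + 1 : ℕ) : ℝ)) ≤
          (2 * L ^ A) * ((2 * L ^ B) * (2 * L ^ B)) := by gcongr
      _ = 2 ^ 3 * L ^ (A + 2 * B) := by rw [pow_add, two_mul B, pow_add]; ring
      _ ≤ (K : ℝ) ^ 3 * ((K : ℝ) ^ 2) ^ (A + 2 * B) := by gcongr
      _ = _ := by rw [← pow_mul, ← pow_add]
  have hmain := union_prob Ω p (fun ω hω => (hlaw 0).nonneg ω hω) I E
    (fun i ω => ∃ N ≤ X, ((b ^ K : ℕ) : ℝ) / (K : ℝ) ^ U2 < |∑ n ∈ Icc 1 N,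
      (if n ≤ X then (if n ≡ i.2.2 [MOD i.2.1] then ArithmeticFunction.vonMangoldt n else 0) else 0) * dI z ((n : ℤ) + (Y ω + (i.1 : ℤ)))|)
    (by
      intro ω hω hEω
      obtain ⟨c1, c3⟩ := hE ω hω hEω
      by_contra hcon
      push Not at hcon
      apply c3
      obtain ⟨Dm, hDm⟩ : ∃ Dm : ℕ, (Dm : ℤ) = Y ω := ⟨(Y ω).toNat, Int.toNat_of_nonneg c1.le⟩
      have hDr := (hY ω hω).2
      rw [← hDm] at hDr ⊢
      rw [Int.toNat_natCast]
      refine hdet X (by omega) Dm (by exact_mod_cast hDr) z (by rw [← hL]; exact hz1) (by rw [← hL]; exact hz2) T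
        (by rw [← hL]; exact hT1) (by rw [← hL]; exact hT2) ?_
      intro i hi δ q a hδ hq1 hq2 haq
      rw [← hL] at hδ hq2 ⊢
      have hmem : ((δ, q, a) : ℕ × ℕ × ℕ) ∈ I := by
        rw [hI, mem_product, mem_product, mem_range, mem_range, mem_range]
        have f1 : δ ≤ ⌊L ^ A⌋₊ := Nat.le_floor hδ
        have f2 : q ≤ ⌊L ^ B⌋₊ := Nat.le_floor hq2
        simp only
        omega
      have h5 := (hcon (δ, q, a) hmem (min (i * (X / T + 1)) X) (min_le_right _ _)).trans hXU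
      refine le_trans (le_of_eq ?_) h5
      congr 1
      apply sum_congr rfl
      intro n hn
      rw [mem_Icc] at hn
      rw [if_pos (hn.2.trans (min_le_right _ _)), ← hDm]
      push_cast
      rfl)
    (1 / (K : ℝ) ^ U2) (by
      intro i hi
      obtain ⟨δ, q, a⟩ := i
      rw [hI, mem_product, mem_range] at hi
      have hδ : (δ : ℝ) ≤ L ^ A := by
        have f1 : δ ≤ ⌊L ^ A⌋₊ := by
          have := hi.1
          simp only at this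
          omega
        have f2 := Nat.floor_le (a := L ^ A) (by positivity)
        have f3 : (δ : ℝ) ≤ (⌊L ^ A⌋₊ : ℝ) := by exact_mod_cast f1
        linarith
      have hδ2 := hδX δ hδ
      apply h0 K (by omega) z (by rw [← hM]; exact hzM) (by rw [← hM]; exact hzM2) ι Ω p _ (hlaw δ) X (by
        intro ω hω
        have g1 := (hY ω hω).1
        have g2 := hD ω hω
        have g3 : ((2 * X : ℕ) : ℤ) ≤ ((b ^ K : ℕ) : ℤ) := by exact_mod_cast hX1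
        have g4 : ((2 * δ : ℕ) : ℤ) ≤ (X : ℤ) := by exact_mod_cast hδ2
        push_cast at g3 g4 ⊢
        constructor
        · have : (0 : ℤ) ≤ δ := Int.natCast_nonneg _
          linarith [(Int.natCast_nonneg X : (0 : ℤ) ≤ X)]
        · linarith) (by omega)
        (fun n => if n ≤ X then (if n ≡ a [MOD q] then ArithmeticFunction.vonMangoldt n else 0) else 0) (by
          intro n
          split_ifs with hn h5
          · rw [abs_of_nonneg ArithmeticFunction.vonMangoldt_nonneg]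
            refine (vM_le n X (by omega) hn).trans ?_
            rw [← hL]
            exact hLK
          · rw [abs_zero]; positivity
          · rw [abs_zero]; positivity)
      intro ω hω h5
      left
      exact h5)
  refine hmain.trans ?_
  have hU2' : (K : ℝ) ^ U * (K : ℝ) ^ (3 + 2 * (A + 2 * B)) ≤ (K : ℝ) ^ U2 := by
    rw [← pow_add]
    exact pow_le_pow_right₀ hKr (by omega)
  rw [mul_one_div, div_le_div_iff₀ (by positivity) (by positivity), one_mul]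
  calc (I.card : ℝ) * (K : ℝ) ^ U ≤ (K : ℝ) ^ (3 + 2 * (A + 2 * B)) * (K : ℝ) ^ U :=
        mul_le_mul_of_nonneg_right hIc (by positivity)
    _ = (K : ℝ) ^ U * (K : ℝ) ^ (3 + 2 * (A + 2 * B)) := by ring
    _ ≤ _ := hU2'

end Pool.Agent.TH872.Mir
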